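import Mathlib

/-!
Shared definitions for MP_2a22ca_al (symmetric and exterior square of the staircase character).
Words are maps `X → ℕ`; functions on words have values in `ℚ`; a permutation `g` acts by
`(g • f) w = f (w ∘ g)`.
-/

namespace Sx

open Finset Equiv

variable {X Y : Type} [Fintype X] [DecidableEq X] [Fintype Y] [DecidableEq Y]

/-- number of positions of the word `w` carrying the letter `j`. -/
def cnt {L : Type} [DecidableEq L] (w : X → L) (j : L) : ℕ :=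
  (univ.filter fun x => w x = j).card

/-- the word `w` has content `(k, k-1, ..., 1)`: the letter `j` occurs `k - j` times. -/
def Cont (k : ℕ) (w : X → ℕ) : Prop := ∀ j, cnt w j = k - j

/-- the raising operator `R i`. -/
def R (i : ℕ) (f : (X → ℕ) → ℚ) (w : X → ℕ) : ℚ :=
  ∑ x ∈ univ.filter (fun x => w x = i), f (Function.update w x (i + 1))

/-- `f` lies in the Specht module of the staircase (as kernel of the raising operators). -/
structure InV (k : ℕ) (f : (X → ℕ) → ℚ) : Prop where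
  cont : ∀ w, f w ≠ 0 → Cont k w
  hw : ∀ i w, R i f w = 0

/-- functions of two words lying in `V k` in each variable. -/
structure InVV (k : ℕ) (F : (X → ℕ) → (X → ℕ) → ℚ) : Prop where
  left : ∀ w₂, InV k (fun w₁ => F w₁ w₂)
  right : ∀ w₁, InV k (F w₁)

/-- `F` vanishes on pairs of words with the same zero set. -/
def Zfree (F : (X → ℕ) → (X → ℕ) → ℚ) : Prop :=
  ∀ w₁ w₂, (∀ x, w₁ x = 0 ↔ w₂ x = 0) → F w₁ w₂ = 0

/-- the sign of a permutation as a rational number. -/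
def sg (c : Perm X) : ℚ := ((Perm.sign c : ℤ) : ℚ)

@[simp] lemma sg_one : sg (1 : Perm X) = 1 := by simp [sg]
@[simp] lemma sg_mul (a b : Perm X) : sg (a * b) = sg a * sg b := by simp [sg]
@[simp] lemma sg_inv (a : Perm X) : sg a⁻¹ = sg a := by simp [sg]
lemma sg_mul_self (a : Perm X) : sg a * sg a = 1 := by
  unfold sg
  rcases Int.units_eq_one_or (Perm.sign a) with h | h <;> simp [h]
lemma sg_ne_zero (a : Perm X) : sg a ≠ 0 := fun h => by simpa [h] using sg_mul_self a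
lemma sg_swap {x y : X} (h : x ≠ y) : sg (swap x y) = -1 := by simp [sg, Perm.sign_swap h]

/-- `f` is alternating under the permutations supported in `Q`. -/
def AltOn (Q : Finset X) (f : (X → ℕ) → ℚ) : Prop :=
  ∀ σ : Perm X, (∀ x, x ∉ Q → σ x = x) → ∀ w, f (w ∘ σ) = sg σ * f w

/-- `f` is invariant under the permutations supported in `Q`. -/
def InvOn (Q : Finset X) (f : (X → ℕ) → ℚ) : Prop :=
  ∀ σ : Perm X, (∀ x, x ∉ Q → σ x = x) → ∀ w, f (w ∘ σ) = f w

/-- tableaux: `t` is a bijection from `X` to the cells of `μ`. -/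
structure IsTab (t : X → ℕ × ℕ) (μ : YoungDiagram) : Prop where
  inj : Function.Injective t
  mem : ∀ p, p ∈ μ ↔ ∃ x, t x = p

/-- row stabilizer. -/
def rowS (t : X → ℕ × ℕ) : Finset (Perm X) := univ.filter fun r => ∀ x, (t (r x)).1 = (t x).1

/-- column stabilizer. -/
def colS (t : X → ℕ × ℕ) : Finset (Perm X) := univ.filter fun c => ∀ x, (t (c x)).2 = (t x).2

/-- Young symmetrizer of the tableau `t` on functions of two words. -/
def YS (t : X → ℕ × ℕ) (F : (X → ℕ) → (X → ℕ) → ℚ) (w₁ w₂ : X → ℕ) : ℚ :=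
  ∑ c ∈ colS t, ∑ r ∈ rowS t, sg c * F (w₁ ∘ c ∘ r) (w₂ ∘ c ∘ r)

/-- the staircase `{(i,j) : i + j < k}`. -/
def stair (k : ℕ) : YoungDiagram where
  cells := (range k ×ˢ range k).filter fun p => p.1 + p.2 < k
  isLowerSet := by
    rintro ⟨a, b⟩ ⟨c, d⟩ h hab
    simp only [Finset.coe_filter, Finset.mem_product, Finset.mem_range, Set.mem_ofPred_eq] at hab ⊢
    obtain ⟨h1, h2⟩ := Prod.mk_le_mk.1 h
    omega

lemma mem_stair {k : ℕ} {p : ℕ × ℕ} : p ∈ stair k ↔ p.1 + p.2 < k := by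
  show p ∈ (stair k).cells ↔ _
  simp only [stair, Finset.mem_filter, Finset.mem_product, Finset.mem_range]
  omega

/-- `lam / nu` is a horizontal strip with `m` cells. -/
structure HStrip (m : ℕ) (nu lam : YoungDiagram) : Prop where
  le : nu ≤ lam
  card : lam.card = nu.card + m
  col : ∀ j, lam.colLen j ≤ nu.colLen j + 1

/-- `lam / nu` is a vertical strip with `m` cells. -/
structure VStrip (m : ℕ) (nu lam : YoungDiagram) : Prop where
  le : nu ≤ lam
  card : lam.card = nu.card + m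
  row : ∀ i, lam.rowLen i ≤ nu.rowLen i + 1

/-- signed sum: `1`, `-1` or `0` according to whether the word `w : Fin k → ℕ` is a permutation
of `0, ..., k-1`, of sign `±1`. -/
def sgnw {k : ℕ} (w : Fin k → ℕ) : ℚ :=
  ∑ π : Perm (Fin k), sg π * ∏ i, if w i = ((π i : Fin k) : ℕ) then 1 else 0

/-- the map `j^s`. -/
def js {k : ℕ} (g : (Y → ℕ) → ℚ) (S : Y ⊕ Fin k → ℕ) : ℚ :=
  sgnw (S ∘ Sum.inr) * g (S ∘ Sum.inl)

/-- the map `j^s ⊗ j^s`. -/
def jss {k : ℕ} (F : (Y → ℕ) → (Y → ℕ) → ℚ) (S₁ S₂ : Y ⊕ Fin k → ℕ) : ℚ :=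
  sgnw (S₁ ∘ Sum.inr) * sgnw (S₂ ∘ Sum.inr) * F (S₁ ∘ Sum.inl) (S₂ ∘ Sum.inl)

/-- the map `J` attached to a tableau `b` of the staircase. -/
def J (b : X → ℕ × ℕ) (f : (X → ℕ) → ℚ) (S : X → ℕ) : ℚ :=
  ∑ σ : Perm X, sg σ * (if S = (fun x => (b (σ x)).2) then f (fun x => (b (σ x)).1) else 0)

/-- `J` in the second variable. -/
def J2 (b : X → ℕ × ℕ) (F : (X → ℕ) → (X → ℕ) → ℚ) : (X → ℕ) → (X → ℕ) → ℚ :=
  fun w₁ => J b (F w₁)

/-- `J` in the first variable. -/
def J1 (b : X → ℕ × ℕ) (F : (X → ℕ) → (X → ℕ) → ℚ) : (X → ℕ) → (X → ℕ) → ℚ :=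
  fun w₁ w₂ => J b (fun w => F w w₂) w₁

/-- witness that `lam` is a constituent of the symmetric square. -/
def SymW (k : ℕ) (lam : YoungDiagram) : Prop :=
  ∃ (X : Type) (_ : Fintype X) (_ : DecidableEq X) (t : X → ℕ × ℕ) (F : (X → ℕ) → (X → ℕ) → ℚ),
    IsTab t lam ∧ InVV k F ∧ (∀ w₁ w₂, F w₂ w₁ = F w₁ w₂) ∧ ∃ w₁ w₂, YS t F w₁ w₂ ≠ 0

/-- witness that `lam` is a constituent of the exterior square. -/
def AltW (k : ℕ) (lam : YoungDiagram) : Prop :=
  ∃ (X : Type) (_ : Fintype X) (_ : DecidableEq X) (t : X → ℕ × ℕ) (F : (X → ℕ) → (X → ℕ) → ℚ),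
    IsTab t lam ∧ InVV k F ∧ (∀ w₁ w₂, F w₂ w₁ = -F w₁ w₂) ∧ ∃ w₁ w₂, YS t F w₁ w₂ ≠ 0

/-- witness that `lam` is a constituent of the `Zfree` part. -/
def WW (k : ℕ) (lam : YoungDiagram) : Prop :=
  ∃ (X : Type) (_ : Fintype X) (_ : DecidableEq X) (t : X → ℕ × ℕ) (F : (X → ℕ) → (X → ℕ) → ℚ),
    IsTab t lam ∧ InVV k F ∧ Zfree F ∧ ∃ w₁ w₂, YS t F w₁ w₂ ≠ 0

/-- the family `Orth`. -/
inductive Orth : ℕ → YoungDiagram → Prop
  | base (lam : YoungDiagram) : lam.card = 3 → lam.rowLen 0 = 3 → Orth 2 lam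
  | horiz (k : ℕ) (nu lam : YoungDiagram) : Orth k nu → HStrip (k + 1) nu lam → Orth (k + 1) lam
  | vert (k : ℕ) (nu lam : YoungDiagram) : Orth k nu → VStrip (k + 1) nu lam → Orth (k + 1) lam

/-- the family `Sym`. -/
inductive Sym : ℕ → YoungDiagram → Prop
  | base (lam : YoungDiagram) : lam.card = 1 → Sym 1 lam
  | horiz (k : ℕ) (nu lam : YoungDiagram) : Sym k nu → HStrip (k + 1) nu lam → Sym (k + 1) lam
  | vert (k : ℕ) (nu lam : YoungDiagram) : Orth k nu → VStrip (k + 1) nu lam → Sym (k + 1) lam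

/-- the family `Alt`. -/
inductive Alt : ℕ → YoungDiagram → Prop
  | base (lam : YoungDiagram) : lam.card = 3 → lam.colLen 0 = 3 → Alt 2 lam
  | horiz (k : ℕ) (nu lam : YoungDiagram) : Alt k nu → HStrip (k + 1) nu lam → Alt (k + 1) lam
  | vert (k : ℕ) (nu lam : YoungDiagram) : Orth k nu → VStrip (k + 1) nu lam → Alt (k + 1) lam

/-- polytabloid of the tableau `b` as a function on words. -/
def pt (b : X → ℕ × ℕ) (w : X → ℕ) : ℚ :=
  ∑ c ∈ colS b, sg c * (if w = (fun x => (b (c x)).1) then 1 else 0)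

end Sx
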