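import Mathlib
import Pool.Agent.Helper87.Saxl.Defs

/-!
Definitions for the final statements: Specht modules over `ℂ` as spaces of functions on words,
and the relations of being a constituent of the symmetric or exterior square.
-/

namespace Sx

open Finset Equiv TensorProduct

/-- the permutation `g` acts on functions on words by `(g • f) w = f (w ∘ g)`. -/
noncomputable def permAct {n : ℕ} (g : Perm (Fin n)) :
    ((Fin n → ℕ) → ℂ) →ₗ[ℂ] ((Fin n → ℕ) → ℂ) :=
  LinearMap.funLeft ℂ ℂ (fun w => w ∘ g)

/-- the polytabloid of the tableau `t`: the signed sum, over the column stabilizer, of the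
tabloids of `t`, a tabloid being recorded by its row word. -/
noncomputable def polytabloid {n : ℕ} (t : Fin n → ℕ × ℕ) : (Fin n → ℕ) → ℂ := fun w =>
  ∑ c ∈ colS t, ((Perm.sign c : ℤ) : ℂ) * (if w = (fun x => (t (c x)).1) then 1 else 0)

/-- the Specht module of `lam`. -/
noncomputable def Specht (n : ℕ) (lam : YoungDiagram) : Submodule ℂ ((Fin n → ℕ) → ℂ) :=
  Submodule.span ℂ {e | ∃ t : Fin n → ℕ × ℕ, IsTab t lam ∧ e = polytabloid t}

theorem permAct_polytabloid {n : ℕ} (g : Perm (Fin n)) (t : Fin n → ℕ × ℕ) :
    permAct g (polytabloid t) = polytabloid (t ∘ g.symm) := by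
  funext w
  show polytabloid t (w ∘ g) = polytabloid (t ∘ g.symm) w
  unfold polytabloid
  refine Finset.sum_bij (fun c _ => g * c * g⁻¹) ?_ ?_ ?_ ?_
  · intro c hc
    simp only [colS, Finset.mem_filter, Finset.mem_univ, true_and] at hc ⊢
    intro x
    simpa using hc (g⁻¹ x)
  · intro a _ b _ h
    simpa using h
  · intro c hc
    refine ⟨g⁻¹ * c * g, ?_, by group⟩
    simp only [colS, Finset.mem_filter, Finset.mem_univ, true_and] at hc ⊢
    intro x
    simpa using hc (g x)
  · intro c _
    have h1 : Perm.sign (g * c * g⁻¹) = Perm.sign c := by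
      rw [Perm.sign_mul, Perm.sign_mul, Perm.sign_inv, mul_right_comm, Int.units_mul_self, one_mul]
    rw [h1]
    congr 1
    have h2 : (w ∘ g = fun x => (t (c x)).1) ↔
        (w = fun x => ((t ∘ g.symm) ((g * c * g⁻¹) x)).1) := by
      constructor
      · intro h
        funext x
        have := congrFun h (g⁻¹ x)
        simpa using this
      · intro h
        funext x
        have := congrFun h (g x)
        simpa using this
    simp only [h2]

theorem isTab_comp {n : ℕ} {t : Fin n → ℕ × ℕ} {lam : YoungDiagram} (ht : IsTab t lam)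
    (g : Perm (Fin n)) : IsTab (t ∘ g) lam :=
  ⟨ht.inj.comp g.injective, fun p => by
    rw [ht.mem p]
    constructor
    · rintro ⟨x, hx⟩
      exact ⟨g.symm x, by simpa using hx⟩
    · rintro ⟨x, hx⟩
      exact ⟨g x, hx⟩⟩

theorem permAct_mem {n : ℕ} (lam : YoungDiagram) (g : Perm (Fin n)) :
    ∀ f ∈ Specht n lam, permAct g f ∈ Specht n lam := by
  intro f hf
  refine Submodule.span_induction (p := fun f _ => permAct g f ∈ Specht n lam) ?_ ?_ ?_ ?_ hf
  · rintro e ⟨t, ht, rfl⟩
    rw [permAct_polytabloid]
    exact Submodule.subset_span ⟨_, isTab_comp ht g.symm, rfl⟩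
  · rw [map_zero]
    exact Submodule.zero_mem _
  · intro a b _ _ ha hb
    rw [map_add]
    exact Submodule.add_mem _ ha hb
  · intro a b _ hb
    rw [map_smul]
    exact Submodule.smul_mem _ a hb

/-- the action of a permutation on the Specht module. -/
noncomputable def spechtAct {n : ℕ} (lam : YoungDiagram) (g : Perm (Fin n)) :
    Specht n lam →ₗ[ℂ] Specht n lam :=
  (permAct g).restrict (permAct_mem lam g)

/-- `lam` is a constituent of the symmetric square of the Specht module of `mu`. -/
def ConstSym (n : ℕ) (lam mu : YoungDiagram) : Prop :=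
  ∃ φ : Specht n lam →ₗ[ℂ] (Specht n mu ⊗[ℂ] Specht n mu),
    Function.Injective φ ∧
    (∀ v, TensorProduct.comm ℂ (Specht n mu) (Specht n mu) (φ v) = φ v) ∧
    ∀ (g : Perm (Fin n)) (v : Specht n lam),
      φ (spechtAct lam g v) = TensorProduct.map (spechtAct mu g) (spechtAct mu g) (φ v)

/-- `lam` is a constituent of the exterior square of the Specht module of `mu`. -/
def ConstAlt (n : ℕ) (lam mu : YoungDiagram) : Prop :=
  ∃ φ : Specht n lam →ₗ[ℂ] (Specht n mu ⊗[ℂ] Specht n mu),
    Function.Injective φ ∧
    (∀ v, TensorProduct.comm ℂ (Specht n mu) (Specht n mu) (φ v) = -φ v) ∧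
    ∀ (g : Perm (Fin n)) (v : Specht n lam),
      φ (spechtAct lam g v) = TensorProduct.map (spechtAct mu g) (spechtAct mu g) (φ v)

end Sx
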