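import Mathlib
import Pool.Agent.Helper87.Saxl.Defs

/-!
Two uniqueness statements for the Specht module of the staircase (functions killed by all raising
operators).
-/

namespace Sx

open Finset Equiv

variable {X Y : Type} [Fintype X] [DecidableEq X] [Fintype Y] [DecidableEq Y]

/-- one step of the straightening: `w x₀ = i + 1`, all the words obtained from `w` by moving the
letter `i + 1` from `x₀` to a position outside `B` are killed by `f`, and `f` does not change when
the letter `i + 1` is moved inside `B`. -/
theorem inv_step {f : (X → ℕ) → ℚ} (hf : ∀ i w, R i f w = 0) (B : Finset X) (w : X → ℕ) (x₀ : X)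
    (hx₀ : x₀ ∈ B) (i : ℕ) (hi : w x₀ = i + 1)
    (hsw : ∀ x ∈ B, f (w ∘ swap x₀ x) = f w)
    (hout : ∀ x, x ∉ B → w x = i → f (Function.update (Function.update w x₀ i) x (i + 1)) = 0) :
    f w = 0 := by
  have h1 := hf i (Function.update w x₀ i)
  unfold R at h1
  have h2 : ∀ x ∈ univ.filter (fun x => Function.update w x₀ i x = i),
      f (Function.update (Function.update w x₀ i) x (i + 1)) = if x ∈ B then f w else 0 := by
    intro x hx
    rw [Finset.mem_filter] at hx
    by_cases hxB : x ∈ B
    · rw [if_pos hxB, ← hsw x hxB]
      congr 1
      funext y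
      by_cases hxx : x = x₀
      · subst hxx
        simp only [swap_self, Equiv.coe_refl, Function.comp_id, Function.update_idem]
        by_cases hy : y = x
        · subst hy; simp [hi]
        · simp [Function.update_of_ne hy]
      · have hwx : w x = i := by
          have := hx.2
          rwa [Function.update_of_ne hxx] at this
        simp only [Function.comp]
        by_cases hy : y = x
        · subst hy
          rw [Function.update_self, swap_apply_right, hi]
        · rw [Function.update_of_ne hy]
          by_cases hy0 : y = x₀
          · subst hy0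
            rw [Function.update_self, swap_apply_left, hwx]
          · rw [Function.update_of_ne hy0, swap_apply_of_ne_of_ne hy0 hy]
    · rw [if_neg hxB]
      have hxx : x ≠ x₀ := fun h => hxB (h ▸ hx₀)
      have hwx : w x = i := by
        have := hx.2
        rwa [Function.update_of_ne hxx] at this
      exact hout x hxB hwx
  rw [Finset.sum_congr rfl h2, ← Finset.sum_filter, Finset.sum_const, nsmul_eq_mul] at h1
  rcases mul_eq_zero.1 h1 with h | h
  · exfalso
    rw [Nat.cast_eq_zero, Finset.card_eq_zero] at h
    have : x₀ ∈ ((univ.filter (fun x => Function.update w x₀ i x = i)).filter fun x => x ∈ B) := by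
      simp [hx₀]
    rw [h] at this
    simp at this
  · exact h

omit [Fintype X] in
theorem inv_sum_lt (B : Finset X) (w : X → ℕ) (x₀ : X) (hx₀ : x₀ ∈ B) (i : ℕ)
    (hi : w x₀ = i + 1) (x : X) (hx : x ∉ B) :
    ∑ y ∈ B, Function.update (Function.update w x₀ i) x (i + 1) y < ∑ y ∈ B, w y := by
  have hne : ∀ y ∈ B, y ≠ x := fun y hy h => hx (h ▸ hy)
  refine Finset.sum_lt_sum (fun y hy => ?_) ⟨x₀, hx₀, ?_⟩
  · rw [Function.update_of_ne (hne y hy)]
    by_cases h : y = x₀
    · subst h
      rw [Function.update_self, hi]
      omega
    · rw [Function.update_of_ne h]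
  · rw [Function.update_of_ne (hne x₀ hx₀), Function.update_self, hi]
    omega

theorem inv0 {f : (X → ℕ) → ℚ} (hf : ∀ i w, R i f w = 0) (B : Finset X) (hB : InvOn B f)
    (h0 : ∀ w, (∀ x, x ∈ B → w x = 0) → f w = 0) : ∀ w, f w = 0 := by
  have key : ∀ n w, ∑ x ∈ B, w x = n → f w = 0 := by
    intro n
    induction n using Nat.strong_induction_on with
    | _ n ih =>
      intro w hw
      by_cases hz : ∀ x, x ∈ B → w x = 0
      · exact h0 w hz
      · push Not at hz
        obtain ⟨x₀, hx₀, hne⟩ := hz
        obtain ⟨i, hi⟩ := Nat.exists_eq_succ_of_ne_zero hne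
        refine inv_step hf B w x₀ hx₀ i hi (fun x hx => ?_) (fun x hx _ => ?_)
        · refine hB _ (fun y hy => ?_) w
          exact swap_apply_of_ne_of_ne (fun h => hy (h ▸ hx₀)) (fun h => hy (h ▸ hx))
        · exact ih _ (by rw [← hw]; exact inv_sum_lt B w x₀ hx₀ i hi x hx) _ rfl
  exact fun w => key _ w rfl

theorem inv_cnt_row {k : ℕ} {b : X → ℕ × ℕ} (hb : IsTab b (stair k)) (j : ℕ) :
    cnt (fun x => (b x).1) j = k - j := by
  unfold cnt
  rw [← Finset.card_range (k - j)]
  refine Finset.card_bij (fun x _ => (b x).2) ?_ ?_ ?_
  · intro x hx
    rw [Finset.mem_filter] at hx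
    have h := mem_stair.1 ((hb.mem (b x)).2 ⟨x, rfl⟩)
    rw [Finset.mem_range]
    have h2 : (b x).1 = j := hx.2
    omega
  · intro x hx y hy h
    rw [Finset.mem_filter] at hx hy
    have h1 : (b x).1 = j := hx.2
    have h2 : (b y).1 = j := hy.2
    refine hb.inj (Prod.ext ?_ h)
    rw [h1, h2]
  · intro c hc
    rw [Finset.mem_range] at hc
    obtain ⟨x, hx⟩ := (hb.mem (j, c)).1 (mem_stair.2 (by simp only; omega))
    exact ⟨x, by simp [hx], by simp [hx]⟩

theorem uni {k : ℕ} {b : X → ℕ × ℕ} (hb : IsTab b (stair k)) {f : (X → ℕ) → ℚ} (hf : InV k f)
    (hinv : ∀ r ∈ rowS b, ∀ w, f (w ∘ r) = f w) (h0 : f (fun x => (b x).1) = 0) :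
    ∀ w, f w = 0 := by
  have key : ∀ d a, a + d = k → ∀ w, (∀ x, (b x).1 < a → w x = (b x).1) → f w = 0 := by
    intro d
    induction d with
    | zero =>
      intro a ha w hw
      have : w = fun x => (b x).1 := by
        funext x
        have h := mem_stair.1 ((hb.mem (b x)).2 ⟨x, rfl⟩)
        exact hw x (by omega)
      rw [this]
      exact h0
    | succ d ih =>
      intro a ha
      have key2 : ∀ n w, ∑ x ∈ univ.filter (fun x => (b x).1 = a), w x = n →
          (∀ x, (b x).1 < a → w x = (b x).1) → f w = 0 := by
        intro n
        induction n using Nat.strong_induction_on with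
        | _ n ih2 =>
          intro w hn hw
          by_contra hfw
          have hc := hf.cont w hfw
          -- the letters smaller than `a` are used up
          have hge : ∀ x, a ≤ (b x).1 → a ≤ w x := by
            intro x hx
            by_contra hlt
            push Not at hlt
            have hsub : (univ.filter fun y => (b y).1 = w x) ⊆ univ.filter fun y => w y = w x := by
              intro y hy
              rw [Finset.mem_filter] at hy ⊢
              refine ⟨hy.1, ?_⟩
              rw [hw y (by omega), hy.2]
            have hcard : (univ.filter fun y => w y = w x).card ≤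
                (univ.filter fun y => (b y).1 = w x).card := by
              have h1 : cnt w (w x) = k - w x := hc (w x)
              have h2 := inv_cnt_row hb (w x)
              unfold cnt at h1 h2
              rw [h1, h2]
            have heq := Finset.eq_of_subset_of_card_le hsub hcard
            have hmem : x ∈ univ.filter fun y => w y = w x := by simp
            rw [← heq, Finset.mem_filter] at hmem
            omega
          by_cases hall : ∀ x, (b x).1 = a → w x = a
          · refine hfw (ih (a + 1) (by omega) w fun x hx => ?_)
            rcases Nat.lt_succ_iff_lt_or_eq.1 hx with h | h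
            · exact hw x h
            · rw [hall x h, h]
          · push Not at hall
            obtain ⟨x₀, hx₀, hne⟩ := hall
            have h3 := hge x₀ (by omega)
            obtain ⟨i, hi⟩ : ∃ i, w x₀ = i + 1 := ⟨w x₀ - 1, by omega⟩
            have hB : x₀ ∈ univ.filter (fun x => (b x).1 = a) := by simp [hx₀]
            refine hfw (inv_step hf.hw _ w x₀ hB i hi (fun x hx => ?_) (fun x hx hwx => ?_))
            · refine hinv _ ?_ w
              rw [Finset.mem_filter] at hx
              unfold rowS
              rw [Finset.mem_filter]
              refine ⟨Finset.mem_univ _, fun y => ?_⟩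
              by_cases hy : y = x₀
              · subst hy
                rw [swap_apply_left, hx.2, hx₀]
              · by_cases hy' : y = x
                · subst hy'
                  rw [swap_apply_right, hx.2, hx₀]
                · rw [swap_apply_of_ne_of_ne hy hy']
            · have hlt := inv_sum_lt _ w x₀ hB i hi x hx
              refine ih2 _ (hn ▸ hlt) _ rfl fun y hy => ?_
              have hyx : y ≠ x := by
                rintro rfl
                have := hw y hy
                omega
              have hyx0 : y ≠ x₀ := by
                rintro rfl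
                omega
              rw [Function.update_of_ne hyx, Function.update_of_ne hyx0]
              exact hw y hy
      exact fun w hw => key2 _ w rfl hw
  exact fun w => key k 0 (by omega) w fun x hx => absurd hx (by omega)

end Sx
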