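import Mathlib
import Pool.Agent.Helper87.Saxl.Defs

namespace Sx

open Finset Equiv

variable {X Y : Type} [Fintype X] [DecidableEq X] [Fintype Y] [DecidableEq Y]

/-- the word of columns of a permuted staircase tableau has the content of the staircase. -/
lemma jmap_cont {k : ℕ} {b : X → ℕ × ℕ} (hb : IsTab b (stair k)) (σ : Perm X) :
    Cont k (fun x => (b (σ x)).2) := by
  intro j
  unfold cnt
  have h1 : (univ.filter fun x => (b (σ x)).2 = j).card
      = (univ.filter fun x => (b x).2 = j).card := by
    refine Finset.card_bij (fun x _ => σ x) ?_ ?_ ?_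
    · intro x hx
      simpa using hx
    · intro x _ y _ h
      exact σ.injective h
    · intro y hy
      exact ⟨σ.symm y, by simpa using hy, by simp⟩
  rw [h1]
  have h2 : (univ.filter fun x => (b x).2 = j).card = (range (k - j)).card := by
    refine Finset.card_bij (fun x _ => (b x).1) ?_ ?_ ?_
    · intro x hx
      have hx' : (b x).2 = j := by simpa using hx
      have hm : b x ∈ stair k := (hb.mem _).2 ⟨x, rfl⟩
      rw [mem_stair] at hm
      rw [Finset.mem_range]
      omega
    · intro x hx y hy h
      have hx' : (b x).2 = j := by simpa using hx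
      have hy' : (b y).2 = j := by simpa using hy
      exact hb.inj (Prod.ext h (by rw [hx', hy']))
    · intro i hi
      rw [Finset.mem_range] at hi
      obtain ⟨x, hx⟩ := (hb.mem (i, j)).1 (by rw [mem_stair]; show i + j < k; omega)
      exact ⟨x, by simp [hx], by rw [hx]⟩
  rw [h2, Finset.card_range]

theorem J_inV {k : ℕ} {b : X → ℕ × ℕ} (hb : IsTab b (stair k)) (f : (X → ℕ) → ℚ) :
    InV k (J b f) := by
  constructor
  · intro w hw
    unfold J at hw
    obtain ⟨σ, _, hσ⟩ := Finset.exists_ne_zero_of_sum_ne_zero hw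
    have : w = (fun x => (b (σ x)).2) := by
      by_contra hne
      exact hσ (by rw [if_neg hne, mul_zero])
    rw [this]
    exact jmap_cont hb σ
  · intro i W
    unfold R J
    rw [← Finset.sum_product']
    -- restrict to the pairs with nonzero indicator
    let s : Finset (X × Perm X) := (univ.filter (fun x => W x = i)) ×ˢ (univ : Finset (Perm X))
    let P : X × Perm X → Prop := fun a =>
      Function.update W a.1 (i + 1) = fun x => (b (a.2 x)).2
    have hfil : ∑ a ∈ s, sg a.2 * (if P a then f (fun x => (b (a.2 x)).1) else 0)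
        = ∑ a ∈ s.filter P, sg a.2 * f (fun x => (b (a.2 x)).1) := by
      rw [Finset.sum_filter]
      refine Finset.sum_congr rfl fun a _ => ?_
      split_ifs <;> simp
    refine hfil.trans ?_
    have key : ∀ a ∈ s.filter P, ∃ y, b (a.2 y) = ((b (a.2 a.1)).1, i) := by
      intro a ha
      obtain ⟨_, hP⟩ := Finset.mem_filter.1 ha
      have h1 : (b (a.2 a.1)).2 = i + 1 := by
        have := congrFun hP a.1
        simpa using this.symm
      have hm : b (a.2 a.1) ∈ stair k := (hb.mem _).2 ⟨_, rfl⟩
      rw [mem_stair] at hm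
      obtain ⟨x, hx⟩ := (hb.mem ((b (a.2 a.1)).1, i)).1
        (by rw [mem_stair]; show (b (a.2 a.1)).1 + i < k; omega)
      exact ⟨a.2.symm x, by simpa using hx⟩
    -- the involution
    let g : ∀ a ∈ s.filter P, X × Perm X := fun a ha =>
      ((key a ha).choose, a.2 * swap a.1 (key a ha).choose)
    have hsp : ∀ a (ha : a ∈ s.filter P),
        b (a.2 (key a ha).choose) = ((b (a.2 a.1)).1, i) := fun a ha => (key a ha).choose_spec
    have hWx : ∀ a ∈ s.filter P, W a.1 = i := by
      intro a ha
      obtain ⟨h1, _⟩ := Finset.mem_filter.1 ha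
      have := (Finset.mem_product.1 h1).1
      simpa using this
    have hcol : ∀ a ∈ s.filter P, (b (a.2 a.1)).2 = i + 1 := by
      intro a ha
      obtain ⟨_, hP⟩ := Finset.mem_filter.1 ha
      have := congrFun hP a.1
      simpa using this.symm
    have hne : ∀ a (ha : a ∈ s.filter P), (key a ha).choose ≠ a.1 := by
      intro a ha h
      have h1 := hsp a ha
      rw [h] at h1
      have h2 := hcol a ha
      rw [h1] at h2
      simp at h2
    have gmem : ∀ a (ha : a ∈ s.filter P), g a ha ∈ s.filter P := by
      intro a ha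
      have hy := hsp a ha
      have hn := hne a ha
      have hWa := hWx a ha
      have hca := hcol a ha
      obtain ⟨_, hP⟩ := Finset.mem_filter.1 ha
      set y := (key a ha).choose with hydef
      have hWy : W y = i := by
        have := congrFun hP y
        simp only [Function.update_of_ne hn] at this
        rw [this, hy]
      refine Finset.mem_filter.2 ⟨Finset.mem_product.2 ⟨?_, Finset.mem_univ _⟩, ?_⟩
      · exact Finset.mem_filter.2 ⟨Finset.mem_univ _, hWy⟩
      · show Function.update W y (i + 1) = fun x => (b ((a.2 * swap a.1 y) x)).2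
        funext x
        rw [Perm.mul_apply]
        by_cases hxy : x = y
        · subst hxy
          rw [Function.update_self, swap_apply_right, hca]
        · rw [Function.update_of_ne hxy]
          by_cases hxa : x = a.1
          · rw [hxa, swap_apply_left, hy, hWa]
          · rw [swap_apply_of_ne_of_ne hxa hxy]
            have := congrFun hP x
            simpa only [Function.update_of_ne hxa] using this
    refine Finset.sum_involution g ?_ ?_ gmem ?_
    · intro a ha
      have hy := hsp a ha
      have hn := hne a ha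
      show sg a.2 * f (fun x => (b (a.2 x)).1)
        + sg (a.2 * swap a.1 (key a ha).choose)
          * f (fun x => (b ((a.2 * swap a.1 (key a ha).choose) x)).1) = 0
      have hrow : (fun x => (b ((a.2 * swap a.1 (key a ha).choose) x)).1)
          = fun x => (b (a.2 x)).1 := by
        funext x
        rw [Perm.mul_apply]
        by_cases hxy : x = (key a ha).choose
        · rw [hxy, swap_apply_right, hy]
        · by_cases hxa : x = a.1
          · rw [hxa, swap_apply_left, hy]
          · rw [swap_apply_of_ne_of_ne hxa hxy]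
      rw [hrow, sg_mul, sg_swap (Ne.symm hn)]
      ring
    · intro a ha _ h
      exact hne a ha (congrArg Prod.fst h)
    · intro a ha
      have hy := hsp a ha
      have hn := hne a ha
      have hg : g a ha = ((key a ha).choose, a.2 * swap a.1 (key a ha).choose) := rfl
      have h2 := hsp (g a ha) (gmem a ha)
      -- the chosen element for `g a` is `a.1`
      have h3 : (key (g a ha) (gmem a ha)).choose = a.1 := by
        apply (g a ha).2.injective
        apply hb.inj
        rw [h2]
        show ((b ((a.2 * swap a.1 (key a ha).choose) (key a ha).choose)).1, i)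
          = b ((a.2 * swap a.1 (key a ha).choose) a.1)
        rw [Perm.mul_apply, Perm.mul_apply, swap_apply_right, swap_apply_left, hy]
      show ((key (g a ha) (gmem a ha)).choose,
        (g a ha).2 * swap (g a ha).1 (key (g a ha) (gmem a ha)).choose) = a
      rw [h3]
      refine Prod.ext rfl ?_
      show (a.2 * swap a.1 (key a ha).choose) * swap (key a ha).choose a.1 = a.2
      rw [swap_comm (key a ha).choose a.1, mul_assoc, swap_mul_self, mul_one]

theorem J_act (b : X → ℕ × ℕ) (f : (X → ℕ) → ℚ) (g : Perm X) (S : X → ℕ) :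
    J b (fun w => f (w ∘ g)) S = sg g * J b f (S ∘ g) := by
  unfold J
  rw [Finset.mul_sum, ← Equiv.sum_comp (Equiv.mulRight g)
    (fun τ : Perm X => sg g * (sg τ * (if S ∘ g = (fun x => (b (τ x)).2)
      then f (fun x => (b (τ x)).1) else 0)))]
  refine Finset.sum_congr rfl fun σ _ => ?_
  have hiff : (S ∘ g = fun x => (b ((Equiv.mulRight g σ) x)).2) ↔ (S = fun x => (b (σ x)).2) := by
    constructor
    · intro h
      funext x
      have := congrFun h (g⁻¹ x)
      simpa [Perm.mul_apply] using this
    · intro h
      funext x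
      have := congrFun h (g x)
      simpa [Perm.mul_apply] using this
  have hcomp : (fun x => (b ((Equiv.mulRight g σ) x)).1) = (fun x => (b (σ x)).1) ∘ g := by
    funext x
    simp [Perm.mul_apply]
  by_cases h : S = fun x => (b (σ x)).2
  · rw [if_pos h, if_pos (hiff.2 h), hcomp]
    have : sg (Equiv.mulRight g σ) = sg σ * sg g := by
      show sg (σ * g) = _
      rw [sg_mul]
    rw [this]
    have h2 := sg_mul_self g
    calc sg σ * f ((fun x => (b (σ x)).1) ∘ g)
        = sg σ * (sg g * sg g) * f ((fun x => (b (σ x)).1) ∘ g) := by rw [h2, mul_one]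
      _ = _ := by ring
  · rw [if_neg h, if_neg (fun h' => h (hiff.1 h'))]
    ring

/-- the transposition of the staircase as a permutation of the positions. -/
lemma jmap_transpose {k : ℕ} {b : X → ℕ × ℕ} (hb : IsTab b (stair k)) :
    ∃ τ : Perm X, (∀ x, b (τ x) = (b x).swap) ∧ τ * τ = 1 := by
  have h : ∀ x, ∃ y, b y = (b x).swap := by
    intro x
    have hm : b x ∈ stair k := (hb.mem _).2 ⟨x, rfl⟩
    rw [mem_stair] at hm
    refine (hb.mem _).1 ?_
    rw [mem_stair]
    show (b x).2 + (b x).1 < k
    omega
  choose t ht using h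
  have htt : ∀ x, t (t x) = x := by
    intro x
    apply hb.inj
    rw [ht, ht, Prod.swap_swap]
  refine ⟨⟨t, t, htt, htt⟩, fun x => ht x, ?_⟩
  ext x
  exact htt x

theorem J_adj {k : ℕ} {b : X → ℕ × ℕ} (hb : IsTab b (stair k)) :
    ∃ ε : ℚ, ε * ε = 1 ∧ ∀ f g : (X → ℕ) → ℚ,
      ∑ σ : Perm X, J b f (fun x => (b (σ x)).1) * g (fun x => (b (σ x)).1)
      = ε * ∑ σ : Perm X, f (fun x => (b (σ x)).1) * J b g (fun x => (b (σ x)).1) := by
  obtain ⟨τ, hτ, hττ⟩ := jmap_transpose hb
  refine ⟨sg τ, sg_mul_self τ, fun f g => ?_⟩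
  -- number of permutations with a given row word
  let N : (X → ℕ) → ℚ := fun ρ => ∑ π : Perm X, if (fun x => (b (π x)).1) = ρ then 1 else 0
  have hN : ∀ σ : Perm X, N (fun x => (b ((τ * σ) x)).1) = N (fun x => (b (σ x)).1) := by
    intro σ
    show (∑ π : Perm X, if (fun x => (b (π x)).1) = (fun x => (b ((τ * σ) x)).1) then (1 : ℚ) else 0)
      = ∑ π : Perm X, if (fun x => (b (π x)).1) = (fun x => (b (σ x)).1) then (1 : ℚ) else 0
    rw [← Equiv.sum_comp (Equiv.mulRight (σ⁻¹ * τ * σ))]
    refine Finset.sum_congr rfl fun π _ => ?_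
    have hiff : ((fun x => (b ((Equiv.mulRight (σ⁻¹ * τ * σ) π) x)).1)
        = (fun x => (b ((τ * σ) x)).1)) ↔ ((fun x => (b (π x)).1) = (fun x => (b (σ x)).1)) := by
      constructor
      · intro h
        funext x
        have := congrFun h ((σ⁻¹ * τ * σ)⁻¹ x)
        have h2 : (Equiv.mulRight (σ⁻¹ * τ * σ) π) ((σ⁻¹ * τ * σ)⁻¹ x) = π x := by
          show (π * (σ⁻¹ * τ * σ)) ((σ⁻¹ * τ * σ)⁻¹ x) = π x
          rw [← Perm.mul_apply]
          congr 1
          group
        have h3 : (τ * σ) ((σ⁻¹ * τ * σ)⁻¹ x) = σ x := by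
          rw [← Perm.mul_apply]
          congr 1
          group
        simp only [h2, h3] at this
        exact this
      · intro h
        funext x
        have := congrFun h ((σ⁻¹ * τ * σ) x)
        have h2 : (Equiv.mulRight (σ⁻¹ * τ * σ) π) x = π ((σ⁻¹ * τ * σ) x) := rfl
        have h3 : σ ((σ⁻¹ * τ * σ) x) = (τ * σ) x := by
          rw [← Perm.mul_apply]
          congr 1
          group
        simp only [h3] at this
        simp only [h2]
        exact this
    simp only [hiff]
  have hcolrow : ∀ σ : Perm X, (fun x => (b (σ x)).2) = fun x => (b ((τ * σ) x)).1 := by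
    intro σ
    funext x
    rw [Perm.mul_apply, hτ]
    rfl
  have hrowcol : ∀ σ : Perm X, (fun x => (b (σ x)).1) = fun x => (b ((τ * σ) x)).2 := by
    intro σ
    funext x
    rw [Perm.mul_apply, hτ]
    rfl
  -- both sides as a single sum
  have hL : ∑ π : Perm X, J b f (fun x => (b (π x)).1) * g (fun x => (b (π x)).1)
      = ∑ σ : Perm X, sg σ * f (fun x => (b (σ x)).1) * g (fun x => (b (σ x)).2)
          * N (fun x => (b (σ x)).2) := by
    unfold J
    simp only [Finset.sum_mul, N, Finset.mul_sum]
    rw [Finset.sum_comm]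
    refine Finset.sum_congr rfl fun σ _ => Finset.sum_congr rfl fun π _ => ?_
    by_cases h : (fun x => (b (π x)).1) = fun x => (b (σ x)).2
    · rw [if_pos h, if_pos h, h]
      ring
    · rw [if_neg h, if_neg h]
      ring
  have hR : ∑ π : Perm X, f (fun x => (b (π x)).1) * J b g (fun x => (b (π x)).1)
      = ∑ σ : Perm X, sg σ * f (fun x => (b (σ x)).2) * g (fun x => (b (σ x)).1)
          * N (fun x => (b (σ x)).2) := by
    unfold J
    simp only [N, Finset.mul_sum]
    rw [Finset.sum_comm]
    refine Finset.sum_congr rfl fun σ _ => Finset.sum_congr rfl fun π _ => ?_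
    by_cases h : (fun x => (b (π x)).1) = fun x => (b (σ x)).2
    · rw [if_pos h, if_pos h, h]
      ring
    · rw [if_neg h, if_neg h]
      ring
  rw [hL, hR, Finset.mul_sum, ← Equiv.sum_comp (Equiv.mulLeft τ)
    (fun σ : Perm X => sg τ * (sg σ * f (fun x => (b (σ x)).2) * g (fun x => (b (σ x)).1)
          * N (fun x => (b (σ x)).2)))]
  refine Finset.sum_congr rfl fun σ _ => ?_
  show sg σ * f (fun x => (b (σ x)).1) * g (fun x => (b (σ x)).2) * N (fun x => (b (σ x)).2)
    = sg τ * (sg (τ * σ) * f (fun x => (b ((τ * σ) x)).2) * g (fun x => (b ((τ * σ) x)).1)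
          * N (fun x => (b ((τ * σ) x)).2))
  rw [← hrowcol σ, ← hcolrow σ, sg_mul]
  have h1 : N (fun x => (b (σ x)).2) = N (fun x => (b (σ x)).1) := by
    rw [hcolrow σ]
    exact hN σ
  rw [h1]
  have h2 := sg_mul_self τ
  calc sg σ * f (fun x => (b (σ x)).1) * g (fun x => (b (σ x)).2) * N (fun x => (b (σ x)).1)
      = (sg τ * sg τ) * (sg σ * f (fun x => (b (σ x)).1) * g (fun x => (b (σ x)).2)
          * N (fun x => (b (σ x)).1)) := by rw [h2, one_mul]
    _ = _ := by ring

end Sx
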