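import Mathlib
import Pool.Agent.Helper87.Saxl.Defs
import Pool.Agent.Helper87.Saxl.Inv
import Pool.Agent.Helper87.Saxl.Jmap

set_option linter.unusedSectionVars false

namespace Sx

open Finset Equiv

variable {X Y : Type} [Fintype X] [DecidableEq X] [Fintype Y] [DecidableEq Y]

/-! ### content -/

lemma jinj_cnt_comp {L : Type} [DecidableEq L] (w : X → L) (g : Perm X) (j : L) :
    cnt (w ∘ g) j = cnt w j := by
  unfold cnt
  refine Finset.card_bij (fun x _ => g x) ?_ ?_ ?_
  · intro x hx
    simpa using hx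
  · intro x _ y _ h
    exact g.injective h
  · intro y hy
    refine ⟨g.symm y, ?_, by simp⟩
    simpa using hy

lemma jinj_cont_comp {k : ℕ} {w : X → ℕ} (g : Perm X) : Cont k (w ∘ g) ↔ Cont k w := by
  unfold Cont
  simp only [jinj_cnt_comp]

lemma jinj_cont_row {k : ℕ} {b : X → ℕ × ℕ} (hb : IsTab b (stair k)) :
    Cont k (fun x => (b x).1) := by
  intro j
  unfold cnt
  rw [← Finset.card_range (k - j)]
  refine Finset.card_bij (fun x _ => (b x).2) ?_ ?_ ?_
  · intro x hx
    have h1 : (b x).1 = j := by simpa using hx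
    have h2 : b x ∈ stair k := (hb.mem _).2 ⟨x, rfl⟩
    rw [mem_stair] at h2
    simp only [Finset.mem_range]
    omega
  · intro x hx y hy h
    have h1 : (b x).1 = j := by simpa using hx
    have h2 : (b y).1 = j := by simpa using hy
    exact hb.inj (Prod.ext (h1.trans h2.symm) h)
  · intro m hm
    have hm' : m < k - j := by simpa using hm
    have h1 : ((j, m) : ℕ × ℕ) ∈ stair k := by
      rw [mem_stair]
      show j + m < k
      omega
    obtain ⟨x, hx⟩ := (hb.mem _).1 h1
    exact ⟨x, by simp [hx], by simp [hx]⟩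

/-- words with the same content differ by a permutation of positions. -/
lemma jinj_exists_perm {k : ℕ} {w v : X → ℕ} (hw : Cont k w) (hv : Cont k v) :
    ∃ g : Perm X, w = v ∘ g := by
  have h : ∀ j, Nonempty ({x // w x = j} ≃ {x // v x = j}) := by
    intro j
    rw [← Fintype.card_eq]
    have h1 := hw j
    have h2 := hv j
    unfold cnt at h1 h2
    rw [Fintype.card_subtype, Fintype.card_subtype, h1, h2]
  refine ⟨Equiv.ofFiberEquiv (f := w) (g := v) (fun j => (h j).some), ?_⟩
  funext x
  exact (Equiv.ofFiberEquiv_map (fun j => (h j).some) x).symm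

/-! ### closure properties of `InV` -/

lemma jinj_update_comp (W : X → ℕ) (g : Perm X) (x : X) (m : ℕ) :
    (Function.update W (g x) m) ∘ g = Function.update (W ∘ g) x m := by
  funext y
  by_cases h : y = x
  · subst h
    simp
  · have h' : g y ≠ g x := fun hh => h (g.injective hh)
    simp [Function.update_of_ne h, Function.update_of_ne h']

lemma jinj_R_act (i : ℕ) (f : (X → ℕ) → ℚ) (g : Perm X) (W : X → ℕ) :
    R i (fun w => f (w ∘ g)) W = R i f (W ∘ g) := by
  unfold R
  symm
  refine Finset.sum_bij (fun x _ => g x) ?_ ?_ ?_ ?_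
  · intro x hx
    simpa using hx
  · intro x _ y _ h
    exact g.injective h
  · intro y hy
    refine ⟨g.symm y, ?_, by simp⟩
    simpa using hy
  · intro x _
    show _ = f (Function.update W (g x) (i + 1) ∘ g)
    rw [jinj_update_comp]

lemma jinj_inV_act {k : ℕ} {f : (X → ℕ) → ℚ} (hf : InV k f) (g : Perm X) :
    InV k (fun w => f (w ∘ g)) := by
  refine ⟨?_, ?_⟩
  · intro w hw
    exact (jinj_cont_comp g).1 (hf.cont _ hw)
  · intro i w
    rw [jinj_R_act]
    exact hf.hw i _

lemma jinj_inV_sum {k : ℕ} {ι : Type} (s : Finset ι) (f : ι → (X → ℕ) → ℚ)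
    (hf : ∀ a ∈ s, InV k (f a)) : InV k (fun w => ∑ a ∈ s, f a w) := by
  refine ⟨?_, ?_⟩
  · intro w hw
    obtain ⟨a, ha, h⟩ := Finset.exists_ne_zero_of_sum_ne_zero hw
    exact (hf a ha).cont w h
  · intro i w
    unfold R
    rw [Finset.sum_comm]
    refine Finset.sum_eq_zero fun a ha => ?_
    exact (hf a ha).hw i w

lemma jinj_inV_lin {k : ℕ} {f g : (X → ℕ) → ℚ} (hf : InV k f) (hg : InV k g) (a b : ℚ) :
    InV k (fun w => a * f w + b * g w) := by
  refine ⟨?_, ?_⟩
  · intro w hw
    by_cases h : f w = 0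
    · have h' : g w ≠ 0 := by
        intro h'
        apply hw
        simp [h, h']
      exact hg.cont w h'
    · exact hf.cont w h
  · intro i w
    have h1 := hf.hw i w
    have h2 := hg.hw i w
    unfold R at h1 h2 ⊢
    rw [Finset.sum_add_distrib, ← Finset.mul_sum, ← Finset.mul_sum, h1, h2]
    ring

/-! ### the row stabilizer -/

lemma jinj_mem_rowS {b : X → ℕ × ℕ} {r : Perm X} :
    r ∈ rowS b ↔ ∀ x, (b (r x)).1 = (b x).1 := by
  simp [rowS]

lemma jinj_mem_colS {b : X → ℕ × ℕ} {r : Perm X} :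
    r ∈ colS b ↔ ∀ x, (b (r x)).2 = (b x).2 := by
  simp [colS]

lemma jinj_one_mem (b : X → ℕ × ℕ) : (1 : Perm X) ∈ rowS b := by
  rw [jinj_mem_rowS]
  intro x
  rfl

lemma jinj_one_mem_col (b : X → ℕ × ℕ) : (1 : Perm X) ∈ colS b := by
  rw [jinj_mem_colS]
  intro x
  rfl

lemma jinj_rowS_mul {b : X → ℕ × ℕ} {r s : Perm X} (hr : r ∈ rowS b) :
    r * s ∈ rowS b ↔ s ∈ rowS b := by
  rw [jinj_mem_rowS] at hr
  rw [jinj_mem_rowS, jinj_mem_rowS]
  simp only [Perm.mul_apply, hr]

lemma jinj_sum_rowS_inv {b : X → ℕ × ℕ} (f : (X → ℕ) → ℚ) {r₀ : Perm X} (hr : r₀ ∈ rowS b)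
    (w : X → ℕ) : ∑ r ∈ rowS b, f ((w ∘ r₀) ∘ r) = ∑ r ∈ rowS b, f (w ∘ r) := by
  refine Finset.sum_bij (fun r _ => r₀ * r) ?_ ?_ ?_ ?_
  · intro r h
    exact (jinj_rowS_mul hr).2 h
  · intro r _ s _ h
    exact mul_left_cancel h
  · intro s hs
    refine ⟨r₀⁻¹ * s, ?_, by simp⟩
    rw [← jinj_rowS_mul hr]
    simpa using hs
  · intro r _
    rfl

lemma jinj_card_rowS_pos (b : X → ℕ × ℕ) : (0 : ℚ) < ((rowS b).card : ℚ) := by
  have : 0 < (rowS b).card := Finset.card_pos.2 ⟨1, jinj_one_mem b⟩
  exact_mod_cast this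

/-! ### the polytabloid -/

theorem pt_inV {k : ℕ} {b : X → ℕ × ℕ} (hb : IsTab b (stair k)) : InV k (pt b) := by
  refine ⟨?_, ?_⟩
  · intro w hw
    obtain ⟨c, _, h⟩ := Finset.exists_ne_zero_of_sum_ne_zero hw
    have h' : w = (fun x => (b (c x)).1) := by
      by_contra hne
      apply h
      simp [hne]
    have h'' : w = (fun x => (b x).1) ∘ c := h'
    rw [h'', jinj_cont_comp]
    exact jinj_cont_row hb
  · intro i W
    have he : ∀ x, ∃ y, (b x).1 = i + 1 → b y = (i, (b x).2) := by
      intro x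
      by_cases h : (b x).1 = i + 1
      · have h2 : b x ∈ stair k := (hb.mem _).2 ⟨x, rfl⟩
        rw [mem_stair] at h2
        have h1 : ((i, (b x).2) : ℕ × ℕ) ∈ stair k := by
          rw [mem_stair]
          show i + (b x).2 < k
          omega
        obtain ⟨y, hy⟩ := (hb.mem _).1 h1
        exact ⟨y, fun _ => hy⟩
      · exact ⟨x, fun h' => absurd h' h⟩
    choose e he using he
    unfold R pt
    rw [← Finset.sum_product']
    have hfil : ∑ p ∈ (univ.filter fun x => W x = i) ×ˢ colS b,
        sg p.2 * (if Function.update W p.1 (i + 1) = (fun x => (b (p.2 x)).1) then (1 : ℚ) else 0)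
        = ∑ p ∈ ((univ.filter fun x => W x = i) ×ˢ colS b).filter
            (fun p => Function.update W p.1 (i + 1) = (fun x => (b (p.2 x)).1)), sg p.2 := by
      rw [Finset.sum_filter]
      refine Finset.sum_congr rfl fun p _ => ?_
      split_ifs <;> simp
    rw [hfil]
    -- key facts
    have key : ∀ (x : X) (c : Perm X), W x = i → c ∈ colS b →
        Function.update W x (i + 1) = (fun x => (b (c x)).1) →
        (b (c x)).1 = i + 1 ∧ b (c (c⁻¹ (e (c x)))) = (i, (b (c x)).2) ∧
        c⁻¹ (e (c x)) ≠ x ∧ W (c⁻¹ (e (c x))) = i ∧ c * swap x (c⁻¹ (e (c x))) ∈ colS b ∧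
        Function.update W (c⁻¹ (e (c x))) (i + 1)
          = (fun z => (b ((c * swap x (c⁻¹ (e (c x)))) z)).1) := by
      intro x c hx hc hu
      have h1 : (b (c x)).1 = i + 1 := by
        have := congrFun hu x
        simpa using this.symm
      have h2 : b (c (c⁻¹ (e (c x)))) = (i, (b (c x)).2) := by
        have : c (c⁻¹ (e (c x))) = e (c x) := by simp
        rw [this]
        exact he _ h1
      set y := c⁻¹ (e (c x)) with hy
      have h3 : y ≠ x := by
        intro hyx
        rw [hyx] at h2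
        have : (b (c x)).1 = i := by rw [h2]
        omega
      have h4 : W y = i := by
        have := congrFun hu y
        rw [Function.update_of_ne h3] at this
        rw [this, h2]
      have h5 : c * swap x y ∈ colS b := by
        rw [jinj_mem_colS] at hc ⊢
        intro z
        rw [Perm.mul_apply]
        have hcy : (b y).2 = (b x).2 := by
          have a1 := hc y
          have a2 := hc x
          rw [h2] at a1
          rw [← a1, ← a2]
        by_cases hzx : z = x
        · subst hzx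
          rw [swap_apply_left, hc y]
          exact hcy
        · by_cases hzy : z = y
          · subst hzy
            rw [swap_apply_right, hc x]
            exact hcy.symm
          · rw [swap_apply_of_ne_of_ne hzx hzy, hc z]
      refine ⟨h1, h2, h3, h4, h5, ?_⟩
      funext z
      by_cases hzx : z = x
      · subst hzx
        rw [Function.update_of_ne h3.symm, hx, Perm.mul_apply, swap_apply_left, h2]
      · by_cases hzy : z = y
        · subst hzy
          rw [Function.update_self, Perm.mul_apply, swap_apply_right, h1]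
        · rw [Function.update_of_ne hzy, Perm.mul_apply, swap_apply_of_ne_of_ne hzx hzy]
          have := congrFun hu z
          rw [Function.update_of_ne hzx] at this
          exact this
    refine Finset.sum_involution
      (fun p _ => (p.2⁻¹ (e (p.2 p.1)), p.2 * swap p.1 (p.2⁻¹ (e (p.2 p.1))))) ?_ ?_ ?_ ?_
    · rintro ⟨x, c⟩ hp
      simp only [Finset.mem_filter, Finset.mem_product, Finset.mem_univ, true_and] at hp
      obtain ⟨⟨hx, hc⟩, hu⟩ := hp
      obtain ⟨h1, h2, h3, h4, h5, h6⟩ := key x c hx hc hu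
      show sg c + sg (c * swap x (c⁻¹ (e (c x)))) = 0
      rw [sg_mul, sg_swap (Ne.symm h3)]
      ring
    · rintro ⟨x, c⟩ hp _
      simp only [Finset.mem_filter, Finset.mem_product, Finset.mem_univ, true_and] at hp
      obtain ⟨⟨hx, hc⟩, hu⟩ := hp
      obtain ⟨h1, h2, h3, h4, h5, h6⟩ := key x c hx hc hu
      intro hh
      exact h3 (congrArg Prod.fst hh)
    · rintro ⟨x, c⟩ hp
      simp only [Finset.mem_filter, Finset.mem_product, Finset.mem_univ, true_and] at hp ⊢
      obtain ⟨⟨hx, hc⟩, hu⟩ := hp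
      obtain ⟨h1, h2, h3, h4, h5, h6⟩ := key x c hx hc hu
      exact ⟨⟨h4, h5⟩, h6⟩
    · rintro ⟨x, c⟩ hp
      simp only [Finset.mem_filter, Finset.mem_product, Finset.mem_univ, true_and] at hp
      obtain ⟨⟨hx, hc⟩, hu⟩ := hp
      obtain ⟨h1, h2, h3, h4, h5, h6⟩ := key x c hx hc hu
      set y := c⁻¹ (e (c x)) with hy
      have hc1 : (c * swap x y) y = c x := by
        rw [Perm.mul_apply, swap_apply_right]
      have hc2 : (c * swap x y) x = c y := by
        rw [Perm.mul_apply, swap_apply_left]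
      have hcy : c y = e (c x) := by
        rw [hy]
        simp
      have h7 : (c * swap x y)⁻¹ (e ((c * swap x y) y)) = x := by
        rw [hc1, ← hcy, ← hc2]
        simp
      refine Prod.ext ?_ ?_
      · exact h7
      · show (c * swap x y) * swap y ((c * swap x y)⁻¹ (e ((c * swap x y) y))) = c
        rw [h7, swap_comm y x, mul_assoc, swap_mul_self, mul_one]

lemma jinj_pt_row {b : X → ℕ × ℕ} (hb : Function.Injective b) :
    pt b (fun x => (b x).1) = 1 := by
  unfold pt
  rw [Finset.sum_eq_single (1 : Perm X)]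
  · simp
  · intro c hc hne
    rw [if_neg, mul_zero]
    intro h
    apply hne
    ext x
    have h1 := congrFun h x
    have h2 := (jinj_mem_colS.1 hc) x
    have h3 : b (c x) = b x := Prod.ext h1.symm h2
    rw [hb h3]
    rfl
  · intro h
    exact absurd (jinj_one_mem_col b) h

/-! ### linearity of `J` -/

lemma jinj_J_sum {ι : Type} (b : X → ℕ × ℕ) (s : Finset ι) (f : ι → (X → ℕ) → ℚ) (S : X → ℕ) :
    J b (fun w => ∑ a ∈ s, f a w) S = ∑ a ∈ s, J b (f a) S := by
  unfold J
  rw [Finset.sum_comm]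
  refine Finset.sum_congr rfl fun σ _ => ?_
  split_ifs
  · rw [Finset.mul_sum]
  · simp

lemma jinj_J_smul (b : X → ℕ × ℕ) (a : ℚ) (f : (X → ℕ) → ℚ) (S : X → ℕ) :
    J b (fun w => a * f w) S = a * J b f S := by
  unfold J
  rw [Finset.mul_sum]
  refine Finset.sum_congr rfl fun σ _ => ?_
  split_ifs
  · ring
  · simp

/-- the value of `J b f` at the column word. -/
lemma jinj_J_col (b : X → ℕ × ℕ) (f : (X → ℕ) → ℚ) :
    J b f (fun x => (b x).2) = ∑ c ∈ colS b, sg c * f (fun x => (b (c x)).1) := by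
  unfold J colS
  rw [Finset.sum_filter]
  refine Finset.sum_congr rfl fun σ _ => ?_
  by_cases h : ∀ x, (b (σ x)).2 = (b x).2
  · rw [if_pos h, if_pos]
    funext x
    exact (h x).symm
  · rw [if_neg h, if_neg, mul_zero]
    intro hh
    exact h fun x => (congrFun hh x).symm

theorem J_inj {k : ℕ} {b : X → ℕ × ℕ} (hb : IsTab b (stair k)) {f : (X → ℕ) → ℚ} (hf : InV k f)
    (h : ∀ S, J b f S = 0) : ∀ w, f w = 0 := by
  intro w₀
  by_contra hw₀
  obtain ⟨g, hg⟩ := jinj_exists_perm (hf.cont w₀ hw₀) (jinj_cont_row hb)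
  -- the translate
  set row : X → ℕ := fun x => (b x).1 with hrow
  have hpos := jinj_card_rowS_pos b
  -- symmetrised function
  set f' : (X → ℕ) → ℚ := fun w => ∑ r ∈ rowS b, f ((w ∘ r) ∘ g) with hf'
  have hf'V : InV k f' := by
    refine jinj_inV_sum (rowS b) (fun r w => f ((w ∘ r) ∘ g)) ?_
    intro r _
    exact jinj_inV_act (jinj_inV_act hf g) r
  have hf'inv : ∀ r ∈ rowS b, ∀ w, f' (w ∘ r) = f' w := by
    intro r hr w
    exact jinj_sum_rowS_inv (fun v => f (v ∘ g)) hr w
  have hf'row : f' row = ((rowS b).card : ℚ) * f w₀ := by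
    have h1 : ∀ r ∈ rowS b, f ((row ∘ r) ∘ g) = f w₀ := by
      intro r hr
      have h2 : row ∘ r = row := by
        funext x
        exact jinj_mem_rowS.1 hr x
      rw [h2, ← hg]
    show ∑ r ∈ rowS b, f ((row ∘ r) ∘ g) = _
    rw [Finset.sum_congr rfl h1, Finset.sum_const, nsmul_eq_mul]
  have hf'J : ∀ S, J b f' S = 0 := by
    intro S
    have h1 : J b f' S = ∑ r ∈ rowS b, J b (fun w => f ((w ∘ r) ∘ g)) S :=
      jinj_J_sum b (rowS b) (fun r w => f ((w ∘ r) ∘ g)) S
    rw [h1]
    refine Finset.sum_eq_zero fun r _ => ?_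
    have h2 := J_act b (fun w => f (w ∘ g)) r S
    rw [h2, J_act b f g, h]
    simp
  -- symmetrised polytabloid
  set z : (X → ℕ) → ℚ := fun w => ∑ r ∈ rowS b, pt b (w ∘ r) with hz
  have hzV : InV k z := by
    refine jinj_inV_sum (rowS b) (fun r w => pt b (w ∘ r)) ?_
    intro r _
    exact jinj_inV_act (pt_inV hb) r
  have hzinv : ∀ r ∈ rowS b, ∀ w, z (w ∘ r) = z w := by
    intro r hr w
    exact jinj_sum_rowS_inv (pt b) hr w
  have hzrow : z row = ((rowS b).card : ℚ) := by
    have h1 : ∀ r ∈ rowS b, pt b (row ∘ r) = 1 := by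
      intro r hr
      have h2 : row ∘ r = row := by
        funext x
        exact jinj_mem_rowS.1 hr x
      rw [h2]
      exact jinj_pt_row hb.inj
    show ∑ r ∈ rowS b, pt b (row ∘ r) = _
    rw [Finset.sum_congr rfl h1, Finset.sum_const, nsmul_eq_mul, mul_one]
  -- uniqueness
  have huni : ∀ w, (1 : ℚ) * f' w + (-(f w₀)) * z w = 0 := by
    refine uni hb (jinj_inV_lin hf'V hzV 1 (-(f w₀))) ?_ ?_
    · intro r hr w
      show 1 * f' (w ∘ r) + -(f w₀) * z (w ∘ r) = _
      rw [hf'inv r hr w, hzinv r hr w]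
    · show 1 * f' row + -(f w₀) * z row = 0
      rw [hf'row, hzrow]
      ring
  have hf'z : f' = fun w => f w₀ * z w := by
    funext w
    have := huni w
    linarith
  have hJz : ∀ S, J b z S = 0 := by
    intro S
    have h1 := hf'J S
    rw [hf'z, jinj_J_smul] at h1
    exact (mul_eq_zero.1 h1).resolve_left hw₀
  have hcol : ∑ c ∈ colS b, sg c * z (fun x => (b (c x)).1) = 0 := by
    rw [← jinj_J_col]
    exact hJz _
  -- the norm of z
  have hN : ∀ c : Perm X, ∑ σ : Perm X, z (fun x => (b (σ x)).1) *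
      (if (fun x => (b (σ x)).1) = (fun x => (b (c x)).1) then (1 : ℚ) else 0)
      = ((rowS b).card : ℚ) * z (fun x => (b (c x)).1) := by
    intro c
    have h1 : ∀ σ : Perm X, z (fun x => (b (σ x)).1) *
        (if (fun x => (b (σ x)).1) = (fun x => (b (c x)).1) then (1 : ℚ) else 0)
        = if (fun x => (b (σ x)).1) = (fun x => (b (c x)).1) then z (fun x => (b (c x)).1)
          else 0 := by
      intro σ
      split_ifs with hh
      · rw [hh, mul_one]
      · rw [mul_zero]
    rw [Finset.sum_congr rfl fun σ _ => h1 σ, ← Finset.sum_filter, Finset.sum_const, nsmul_eq_mul]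
    congr 2
    refine Finset.card_bij (fun σ _ => σ * c⁻¹) ?_ ?_ ?_
    · intro σ hσ
      have h2 : (fun x => (b (σ x)).1) = (fun x => (b (c x)).1) := by simpa using hσ
      rw [jinj_mem_rowS]
      intro x
      have h3 := congrFun h2 (c⁻¹ x)
      simpa using h3
    · intro σ _ τ _ hh
      exact mul_right_cancel hh
    · intro ρ hρ
      refine ⟨ρ * c, ?_, by simp⟩
      simp only [Finset.mem_filter, Finset.mem_univ, true_and]
      funext x
      exact jinj_mem_rowS.1 hρ (c x)
  have hnorm : ∑ σ : Perm X, z (fun x => (b (σ x)).1) * z (fun x => (b (σ x)).1) = 0 := by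
    have h1 : ∀ σ : Perm X, z (fun x => (b (σ x)).1) * z (fun x => (b (σ x)).1)
        = ∑ r ∈ rowS b, z (fun x => (b ((σ * r) x)).1) * pt b (fun x => (b ((σ * r) x)).1) := by
      intro σ
      have h2 : z (fun x => (b (σ x)).1)
          = ∑ r ∈ rowS b, pt b (fun x => (b ((σ * r) x)).1) := rfl
      have h3 : ∀ r ∈ rowS b, z (fun x => (b ((σ * r) x)).1) = z (fun x => (b (σ x)).1) := by
        intro r hr
        exact hzinv r hr (fun x => (b (σ x)).1)
      rw [Finset.sum_congr rfl fun r hr => by rw [h3 r hr], ← Finset.mul_sum, ← h2]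
    rw [Finset.sum_congr rfl fun σ _ => h1 σ, Finset.sum_comm]
    refine Finset.sum_eq_zero fun r _ => ?_
    have h4 : ∑ σ : Perm X, z (fun x => (b ((σ * r) x)).1) * pt b (fun x => (b ((σ * r) x)).1)
        = ∑ σ : Perm X, z (fun x => (b (σ x)).1) * pt b (fun x => (b (σ x)).1) :=
      Fintype.sum_equiv (Equiv.mulRight r) _ _ (fun σ => rfl)
    rw [h4]
    have h5 : ∀ σ : Perm X, z (fun x => (b (σ x)).1) * pt b (fun x => (b (σ x)).1)
        = ∑ c ∈ colS b, sg c * (z (fun x => (b (σ x)).1) *
          (if (fun x => (b (σ x)).1) = (fun x => (b (c x)).1) then (1 : ℚ) else 0)) := by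
      intro σ
      unfold pt
      rw [Finset.mul_sum]
      refine Finset.sum_congr rfl fun c _ => ?_
      ring
    rw [Finset.sum_congr rfl fun σ _ => h5 σ, Finset.sum_comm]
    have h6 : ∀ c ∈ colS b, ∑ σ : Perm X, sg c * (z (fun x => (b (σ x)).1) *
          (if (fun x => (b (σ x)).1) = (fun x => (b (c x)).1) then (1 : ℚ) else 0))
        = ((rowS b).card : ℚ) * (sg c * z (fun x => (b (c x)).1)) := by
      intro c _
      rw [← Finset.mul_sum, hN c]
      ring
    rw [Finset.sum_congr rfl h6, ← Finset.mul_sum, hcol, mul_zero]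
  have hzero := (Finset.sum_eq_zero_iff_of_nonneg (fun σ _ => mul_self_nonneg _)).1 hnorm
    (1 : Perm X) (Finset.mem_univ _)
  have h7 : z row = 0 := mul_self_eq_zero.1 hzero
  rw [hzrow] at h7
  exact absurd h7 hpos.ne'

end Sx
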