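import Mathlib
import Pool.Agent.Helper87.Saxl.FinDefs
import Pool.Agent.Helper87.Saxl.Jinj

/-!
BACK: a constituent of the symmetric / exterior square of the Specht module of the staircase
gives a witness `SymW` / `AltW`.
-/

namespace Sx

open Finset Equiv TensorProduct

section BackRat

variable {X : Type} [Fintype X] [DecidableEq X]

lemma back_row_comp {t : X → ℕ × ℕ} {r : Perm X} (hr : r ∈ rowS t) :
    (fun x => (t x).1) ∘ r = fun x => (t x).1 := by
  simp only [rowS, Finset.mem_filter, Finset.mem_univ, true_and] at hr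
  funext x
  exact hr x

lemma back_pt_row {t : X → ℕ × ℕ} (ht : Function.Injective t) : pt t (fun x => (t x).1) = 1 := by
  unfold pt
  rw [Finset.sum_eq_single (1 : Perm X)]
  · simp
  · intro c hc h1
    have : ¬ ((fun x => (t x).1) = fun x => (t (c x)).1) := by
      intro h
      apply h1
      simp only [colS, Finset.mem_filter, Finset.mem_univ, true_and] at hc
      ext x
      have e1 : (t (c x)).1 = (t x).1 := (congrFun h x).symm
      have e2 : (t (c x)).2 = (t x).2 := hc x
      have : c x = x := ht (Prod.ext e1 e2)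
      simp [this]
    simp [this]
  · intro h
    exfalso
    apply h
    simp [colS]

lemma back_mul_mem_rowS {t : X → ℕ × ℕ} {a b : Perm X} (ha : a ∈ rowS t) (hb : b ∈ rowS t) :
    a * b ∈ rowS t := by
  simp only [rowS, Finset.mem_filter, Finset.mem_univ, true_and] at *
  intro x
  rw [Perm.mul_apply, ha, hb]

lemma back_inv_mem_rowS {t : X → ℕ × ℕ} {a : Perm X} (ha : a ∈ rowS t) : a⁻¹ ∈ rowS t := by
  simp only [rowS, Finset.mem_filter, Finset.mem_univ, true_and] at *
  intro x
  have := ha (a⁻¹ x)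
  simpa using this.symm

/-- the row average of the polytabloid. -/
private def backU (t : X → ℕ × ℕ) (w : X → ℕ) : ℚ := ∑ r ∈ rowS t, pt t (w ∘ r)

private lemma backU_comp {t : X → ℕ × ℕ} {a : Perm X} (ha : a ∈ rowS t) (w : X → ℕ) :
    backU t (w ∘ a) = backU t w := by
  unfold backU
  refine Finset.sum_bij (fun r _ => a * r) ?_ ?_ ?_ ?_
  · intro r hr
    exact back_mul_mem_rowS ha hr
  · intro r _ s _ h
    simpa using h
  · intro r hr
    exact ⟨a⁻¹ * r, back_mul_mem_rowS (back_inv_mem_rowS ha) hr, by group⟩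
  · intro r _
    rfl

private lemma backU_row {t : X → ℕ × ℕ} (ht : Function.Injective t) :
    backU t (fun x => (t x).1) = ((rowS t).card : ℚ) := by
  unfold backU
  rw [Finset.sum_congr rfl (fun r hr => by rw [back_row_comp hr, back_pt_row ht])]
  simp

private lemma back_card_pos (t : X → ℕ × ℕ) : 0 < (rowS t).card := by
  apply Finset.card_pos.2
  exact ⟨1, by simp [rowS]⟩

private lemma back_count (t : X → ℕ × ℕ) (c : Perm X) :
    ((univ.filter fun σ : Perm X =>
      ((fun x => (t x).1) ∘ σ = fun x => (t (c x)).1)).card) = (rowS t).card := by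
  refine Finset.card_bij (fun σ _ => σ * c⁻¹) ?_ ?_ ?_
  · intro σ hσ
    simp only [rowS, Finset.mem_filter, Finset.mem_univ, true_and] at hσ ⊢
    intro x
    have := congrFun hσ (c⁻¹ x)
    simpa using this
  · intro a _ b _ h
    simpa using h
  · intro r hr
    refine ⟨r * c, ?_, by group⟩
    simp only [rowS, Finset.mem_filter, Finset.mem_univ, true_and] at hr ⊢
    funext x
    simpa using hr (c x)

theorem back_pos {t : X → ℕ × ℕ} (ht : Function.Injective t) :
    0 < ∑ c ∈ colS t, ∑ r ∈ rowS t, sg c * pt t ((fun x => (t x).1) ∘ c ∘ r) := by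
  set row : X → ℕ := fun x => (t x).1 with hrow
  set y : ℚ := ∑ c ∈ colS t, ∑ r ∈ rowS t, sg c * pt t (row ∘ c ∘ r) with hy
  have hN : (0 : ℚ) < (rowS t).card := by exact_mod_cast back_card_pos t
  have h1 : y = ∑ c ∈ colS t, sg c * backU t (row ∘ c) := by
    rw [hy]
    refine Finset.sum_congr rfl fun c _ => ?_
    unfold backU
    rw [Finset.mul_sum]
    rfl
  have h2 : ∑ σ : Perm X, backU t (row ∘ σ) * pt t (row ∘ σ) = (rowS t).card * y := by
    have e1 : ∀ σ : Perm X, backU t (row ∘ σ) * pt t (row ∘ σ) =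
        ∑ c ∈ colS t, (if (row ∘ σ = fun x => (t (c x)).1) then sg c * backU t (row ∘ c) else 0) := by
      intro σ
      unfold pt
      rw [Finset.mul_sum]
      refine Finset.sum_congr rfl fun c _ => ?_
      split_ifs with h
      · have : row ∘ c = row ∘ σ := by rw [h]; rfl
        rw [this]
        ring
      · ring
    rw [Finset.sum_congr rfl (fun σ _ => e1 σ), Finset.sum_comm, h1, Finset.mul_sum]
    refine Finset.sum_congr rfl fun c _ => ?_
    rw [← Finset.sum_filter, Finset.sum_const, back_count t c, nsmul_eq_mul]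
  have h3 : ∑ σ : Perm X, backU t (row ∘ σ) * backU t (row ∘ σ) =
      (rowS t).card * ∑ σ : Perm X, backU t (row ∘ σ) * pt t (row ∘ σ) := by
    have e2 : ∀ σ : Perm X, backU t (row ∘ σ) * backU t (row ∘ σ) =
        ∑ r ∈ rowS t, backU t (row ∘ ⇑(σ * r)) * pt t (row ∘ ⇑(σ * r)) := by
      intro σ
      conv_lhs => rw [show backU t (row ∘ σ) * backU t (row ∘ σ) =
        backU t (row ∘ σ) * ∑ r ∈ rowS t, pt t ((row ∘ σ) ∘ r) from rfl]
      rw [Finset.mul_sum]
      refine Finset.sum_congr rfl fun r hr => ?_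
      have : row ∘ ⇑(σ * r) = (row ∘ σ) ∘ r := rfl
      rw [this, backU_comp hr]
    rw [Finset.sum_congr rfl (fun σ _ => e2 σ), Finset.sum_comm]
    have e3 : ∀ r ∈ rowS t, ∑ σ : Perm X, backU t (row ∘ ⇑(σ * r)) * pt t (row ∘ ⇑(σ * r)) =
        ∑ σ : Perm X, backU t (row ∘ σ) * pt t (row ∘ σ) := by
      intro r _
      exact Fintype.sum_equiv (Equiv.mulRight r) _ _ (fun σ => rfl)
    rw [Finset.sum_congr rfl e3, Finset.sum_const, nsmul_eq_mul]
  have h4 : 0 < ∑ σ : Perm X, backU t (row ∘ σ) * backU t (row ∘ σ) := by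
    apply Finset.sum_pos'
    · intro σ _
      exact mul_self_nonneg _
    · refine ⟨1, Finset.mem_univ _, ?_⟩
      have : row ∘ ⇑(1 : Perm X) = row := by funext x; simp
      rw [this, backU_row ht]
      positivity
  rw [h3, h2] at h4
  by_contra hneg
  push Not at hneg
  have : ((rowS t).card : ℚ) * ((rowS t).card * y) ≤ 0 := by
    have h5 : ((rowS t).card : ℚ) * y ≤ 0 := mul_nonpos_of_nonneg_of_nonpos hN.le hneg
    exact mul_nonpos_of_nonneg_of_nonpos hN.le h5
  linarith

end BackRat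

section BackC

variable {n : ℕ}

lemma back_polytabloid_eq (t : Fin n → ℕ × ℕ) (w : Fin n → ℕ) :
    polytabloid t w = ((pt t w : ℚ) : ℂ) := by
  unfold polytabloid pt sg
  push_cast
  refine Finset.sum_congr rfl fun c _ => ?_
  split_ifs <;> simp

lemma back_cont {k : ℕ} {f : (Fin n → ℕ) → ℂ} (hf : f ∈ Specht n (stair k)) (w : Fin n → ℕ)
    (hw : ¬ Cont k w) : f w = 0 := by
  refine Submodule.span_induction (p := fun f _ => f w = 0) ?_ ?_ ?_ ?_ hf
  · rintro e ⟨t, ht, rfl⟩
    rw [back_polytabloid_eq]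
    have : pt t w = 0 := by
      by_contra h
      exact hw ((pt_inV ht).cont w h)
    rw [this]
    simp
  · rfl
  · intro a b _ _ ha hb
    simp [ha, hb]
  · intro a b _ hb
    simp [hb]

lemma back_R {k : ℕ} {f : (Fin n → ℕ) → ℂ} (hf : f ∈ Specht n (stair k)) (i : ℕ)
    (w : Fin n → ℕ) :
    ∑ x ∈ univ.filter (fun x => w x = i), f (Function.update w x (i + 1)) = 0 := by
  refine Submodule.span_induction (p := fun f _ =>
    ∑ x ∈ univ.filter (fun x => w x = i), f (Function.update w x (i + 1)) = 0) ?_ ?_ ?_ ?_ hf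
  · rintro e ⟨t, ht, rfl⟩
    have h := (pt_inV ht).hw i w
    unfold R at h
    simp only [back_polytabloid_eq]
    rw [← Rat.cast_sum, h]
    simp
  · simp
  · intro a b _ _ ha hb
    simp only [Pi.add_apply, Finset.sum_add_distrib]
    rw [ha, hb, add_zero]
  · intro a b _ hb
    simp only [Pi.smul_apply, smul_eq_mul, ← Finset.mul_sum]
    rw [hb, mul_zero]

/-- evaluation of a tensor as a function of two words. -/
noncomputable def backEv (mu : YoungDiagram) :
    (Specht n mu ⊗[ℂ] Specht n mu) →ₗ[ℂ] ((Fin n → ℕ) → (Fin n → ℕ) → ℂ) :=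
  TensorProduct.lift
    (LinearMap.mk₂ ℂ (fun (a b : Specht n mu) (w₁ w₂ : Fin n → ℕ) => a.1 w₁ * b.1 w₂)
      (by intro a b c; funext w₁ w₂; simp [add_mul])
      (by intro a b c; funext w₁ w₂; simp [mul_assoc])
      (by intro a b c; funext w₁ w₂; simp [mul_add])
      (by intro a b c; funext w₁ w₂; simp [mul_left_comm]))

lemma backEv_tmul (mu : YoungDiagram) (a b : Specht n mu) (w₁ w₂ : Fin n → ℕ) :
    backEv mu (a ⊗ₜ b) w₁ w₂ = a.1 w₁ * b.1 w₂ := by
  simp [backEv]

lemma backEv_inj (mu : YoungDiagram) : Function.Injective (backEv (n := n) mu) := by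
  classical
  rw [injective_iff_map_eq_zero]
  intro z hz
  let 𝒞 := Module.Basis.ofVectorSpace ℂ (Specht n mu)
  obtain ⟨m, rfl⟩ :=
    (TensorProduct.equivFinsuppOfBasisRight (M := Specht n mu) 𝒞).symm.surjective z
  rw [TensorProduct.equivFinsuppOfBasisRight_symm_apply] at hz ⊢
  have hm : m = 0 := by
    refine Finsupp.ext fun i => ?_
    refine Subtype.ext (funext fun w₁ => ?_)
    have key : Finsupp.linearCombination ℂ 𝒞
        (m.mapRange (fun a : Specht n mu => a.1 w₁) rfl) = 0 := by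
      refine Subtype.ext (funext fun w₂ => ?_)
      have hz' := congrFun (congrFun hz w₁) w₂
      rw [Finsupp.sum, map_sum, Finset.sum_apply, Finset.sum_apply] at hz'
      rw [Finsupp.linearCombination_apply, Finsupp.sum_mapRange_index (by simp), Finsupp.sum]
      rw [AddSubmonoidClass.coe_finsetSum, Finset.sum_apply]
      rw [show ((0 : Specht n mu) : (Fin n → ℕ) → ℂ) w₂ = 0 from rfl]
      rw [← show ((0 : (Fin n → ℕ) → (Fin n → ℕ) → ℂ) w₁ w₂) = 0 from rfl, ← hz']
      refine Finset.sum_congr rfl fun j _ => ?_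
      rw [backEv_tmul]
      rfl
    have h0 := linearIndependent_iff.1 𝒞.linearIndependent _ key
    have := DFunLike.congr_fun h0 i
    simpa using this
  rw [hm]
  simp

lemma backEv_act (mu : YoungDiagram) (g : Perm (Fin n)) (z : Specht n mu ⊗[ℂ] Specht n mu)
    (w₁ w₂ : Fin n → ℕ) :
    backEv mu (TensorProduct.map (spechtAct mu g) (spechtAct mu g) z) w₁ w₂ =
      backEv mu z (w₁ ∘ g) (w₂ ∘ g) := by
  induction z using TensorProduct.induction_on with
  | zero => simp
  | tmul a b =>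
    rw [TensorProduct.map_tmul, backEv_tmul, backEv_tmul]
    rfl
  | add a b ha hb =>
    rw [map_add, map_add, map_add, Pi.add_apply, Pi.add_apply, ha, hb]
    rfl

lemma backEv_comm (mu : YoungDiagram) (z : Specht n mu ⊗[ℂ] Specht n mu) (w₁ w₂ : Fin n → ℕ) :
    backEv mu (TensorProduct.comm ℂ (Specht n mu) (Specht n mu) z) w₁ w₂ = backEv mu z w₂ w₁ := by
  induction z using TensorProduct.induction_on with
  | zero => simp
  | tmul a b =>
    rw [TensorProduct.comm_tmul, backEv_tmul, backEv_tmul, mul_comm]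
  | add a b ha hb =>
    rw [map_add, map_add, map_add, Pi.add_apply, Pi.add_apply, ha, hb]
    rfl

lemma backEv_left (mu : YoungDiagram) (z : Specht n mu ⊗[ℂ] Specht n mu) (w₂ : Fin n → ℕ) :
    (fun w₁ => backEv mu z w₁ w₂) ∈ Specht n mu := by
  induction z using TensorProduct.induction_on with
  | zero =>
    simp only [map_zero, Pi.zero_apply]
    exact Submodule.zero_mem _
  | tmul a b =>
    have : (fun w₁ => backEv mu (a ⊗ₜ[ℂ] b) w₁ w₂) = (b.1 w₂) • a.1 := by
      funext w₁
      rw [backEv_tmul, Pi.smul_apply, smul_eq_mul, mul_comm]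
    rw [this]
    exact Submodule.smul_mem _ _ a.2
  | add a b ha hb =>
    have : (fun w₁ => backEv mu (a + b) w₁ w₂) =
        (fun w₁ => backEv mu a w₁ w₂) + fun w₁ => backEv mu b w₁ w₂ := by
      funext w₁
      rw [map_add]
      rfl
    rw [this]
    exact Submodule.add_mem _ ha hb

lemma backEv_right (mu : YoungDiagram) (z : Specht n mu ⊗[ℂ] Specht n mu) (w₁ : Fin n → ℕ) :
    (backEv mu z w₁) ∈ Specht n mu := by
  have h := backEv_left mu (TensorProduct.comm ℂ (Specht n mu) (Specht n mu) z) w₁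
  have e : (fun w => backEv mu (TensorProduct.comm ℂ (Specht n mu) (Specht n mu) z) w w₁) =
      backEv mu z w₁ := by
    funext w
    exact backEv_comm mu z w w₁
  rwa [e] at h

lemma back_exists_tab {lam : YoungDiagram} (hl : lam.card = n) :
    ∃ t : Fin n → ℕ × ℕ, IsTab t lam := by
  have e : Fin n ≃ lam.cells := (Finset.equivFinOfCardEq hl).symm
  refine ⟨fun x => (e x).1, ?_, ?_⟩
  · intro a b h
    exact e.injective (Subtype.ext h)
  · intro p
    constructor
    · intro hp
      refine ⟨e.symm ⟨p, ?_⟩, by simp⟩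
      exact (YoungDiagram.mem_cells _).2 hp
    · rintro ⟨x, rfl⟩
      exact (YoungDiagram.mem_cells _).1 (e x).2

/-- the common part of the two statements. -/
theorem back_main {k : ℕ} {lam : YoungDiagram} (hl : lam.card = n)
    (φ : Specht n lam →ₗ[ℂ] (Specht n (stair k) ⊗[ℂ] Specht n (stair k)))
    (hφ : Function.Injective φ)
    (hg : ∀ (g : Perm (Fin n)) (v : Specht n lam),
      φ (spechtAct lam g v) =
        TensorProduct.map (spechtAct (stair k) g) (spechtAct (stair k) g) (φ v)) :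
    ∃ (t : Fin n → ℕ × ℕ) (v : Specht n lam) (l : ℂ →ₗ[ℚ] ℚ), IsTab t lam ∧
      InVV k (fun w₁ w₂ => l (backEv (stair k) (φ v) w₁ w₂)) ∧
      ∃ w₁ w₂, YS t (fun w₁ w₂ => l (backEv (stair k) (φ v) w₁ w₂)) w₁ w₂ ≠ 0 := by
  obtain ⟨t, ht⟩ := back_exists_tab hl
  let e : Specht n lam := ⟨polytabloid t, Submodule.subset_span ⟨t, ht, rfl⟩⟩
  let Ye : Specht n lam := ∑ c ∈ colS t, ∑ r ∈ rowS t,
    ((Perm.sign c : ℤ) : ℂ) • spechtAct lam (c * r) e
  have hYe : Ye ≠ 0 := by
    intro h
    have h1 : (Ye : (Fin n → ℕ) → ℂ) (fun x => (t x).1) = 0 := by rw [h]; rfl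
    have h2 : (Ye : (Fin n → ℕ) → ℂ) (fun x => (t x).1) =
        ((∑ c ∈ colS t, ∑ r ∈ rowS t, sg c * pt t ((fun x => (t x).1) ∘ c ∘ r) : ℚ) : ℂ) := by
      simp only [Ye, AddSubmonoidClass.coe_finsetSum, Finset.sum_apply, Rat.cast_sum]
      refine Finset.sum_congr rfl fun c _ => Finset.sum_congr rfl fun r _ => ?_
      have : ((((Perm.sign c : ℤ) : ℂ) • spechtAct lam (c * r) e : Specht n lam) :
          (Fin n → ℕ) → ℂ) (fun x => (t x).1) =
          ((Perm.sign c : ℤ) : ℂ) * polytabloid t ((fun x => (t x).1) ∘ c ∘ r) := rfl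
      rw [this, back_polytabloid_eq]
      simp [sg]
    rw [h2] at h1
    have h3 := back_pos ht.inj
    rw [Rat.cast_eq_zero] at h1
    exact absurd h1 h3.ne'
  have hφYe : φ Ye ≠ 0 := fun h => hYe (hφ (by rw [h, map_zero]))
  have hev : backEv (stair k) (φ Ye) ≠ 0 := fun h =>
    hφYe (backEv_inj (stair k) (by rw [h, map_zero]))
  obtain ⟨w₁, w₂, hw⟩ : ∃ w₁ w₂, backEv (stair k) (φ Ye) w₁ w₂ ≠ 0 := by
    by_contra hcon
    push Not at hcon
    exact hev (funext fun w₁ => funext fun w₂ => hcon w₁ w₂)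
  obtain ⟨l, hl'⟩ : ∃ l : ℂ →ₗ[ℚ] ℚ, l (backEv (stair k) (φ Ye) w₁ w₂) ≠ 0 := by
    by_contra hcon
    push Not at hcon
    exact hw ((Module.forall_dual_apply_eq_zero_iff ℚ _).1 hcon)
  refine ⟨t, e, l, ht, ⟨?_, ?_⟩, w₁, w₂, ?_⟩
  · intro v₂
    have hm := backEv_left (stair k) (φ e) v₂
    constructor
    · intro w hne
      by_contra hc
      apply hne
      have := back_cont hm w hc
      rw [this, map_zero]
    · intro i w
      unfold R
      rw [← map_sum]
      have := back_R hm i w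
      rw [this, map_zero]
  · intro v₁
    have hm := backEv_right (stair k) (φ e) v₁
    constructor
    · intro w hne
      by_contra hc
      apply hne
      have := back_cont hm w hc
      simp only [this, map_zero]
    · intro i w
      unfold R
      rw [← map_sum]
      have := back_R hm i w
      rw [this, map_zero]
  · have h5 : backEv (stair k) (φ Ye) w₁ w₂ = ∑ c ∈ colS t, ∑ r ∈ rowS t,
        ((Perm.sign c : ℤ) : ℂ) * backEv (stair k) (φ e) (w₁ ∘ c ∘ r) (w₂ ∘ c ∘ r) := by
      simp only [Ye, map_sum, map_smul, hg, Finset.sum_apply]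
      refine Finset.sum_congr rfl fun c _ => Finset.sum_congr rfl fun r _ => ?_
      rw [Pi.smul_apply, Pi.smul_apply, backEv_act, smul_eq_mul]
      rfl
    have h6 : YS t (fun w₁ w₂ => l (backEv (stair k) (φ e) w₁ w₂)) w₁ w₂ =
        l (backEv (stair k) (φ Ye) w₁ w₂) := by
      rw [h5]
      unfold YS
      rw [map_sum]
      refine Finset.sum_congr rfl fun c _ => ?_
      rw [map_sum]
      refine Finset.sum_congr rfl fun r _ => ?_
      have : ((Perm.sign c : ℤ) : ℂ) * backEv (stair k) (φ e) (w₁ ∘ c ∘ r) (w₂ ∘ c ∘ r) =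
          (sg c : ℚ) • backEv (stair k) (φ e) (w₁ ∘ c ∘ r) (w₂ ∘ c ∘ r) := by
        rw [Rat.smul_def]
        simp [sg]
      rw [this, map_smul, smul_eq_mul]
    rw [h6]
    exact hl'

end BackC

theorem symW_of_constSym {k : ℕ} {lam : YoungDiagram} (hl : lam.card = k * (k + 1) / 2)
    (h : ConstSym (k * (k + 1) / 2) lam (stair k)) : SymW k lam := by
  obtain ⟨φ, hφ, hc, hg⟩ := h
  obtain ⟨t, v, l, ht, hV, hY⟩ := back_main hl φ hφ hg
  refine ⟨Fin (k * (k + 1) / 2), inferInstance, inferInstance, t, _, ht, hV, ?_, hY⟩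
  intro w₁ w₂
  have := backEv_comm (stair k) (φ v) w₁ w₂
  rw [hc] at this
  simp only [this]

theorem altW_of_constAlt {k : ℕ} {lam : YoungDiagram} (hl : lam.card = k * (k + 1) / 2)
    (h : ConstAlt (k * (k + 1) / 2) lam (stair k)) : AltW k lam := by
  obtain ⟨φ, hφ, hc, hg⟩ := h
  obtain ⟨t, v, l, ht, hV, hY⟩ := back_main hl φ hφ hg
  refine ⟨Fin (k * (k + 1) / 2), inferInstance, inferInstance, t, _, ht, hV, ?_, hY⟩
  intro w₁ w₂
  have := backEv_comm (stair k) (φ v) w₁ w₂
  rw [hc] at this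
  have h2 : backEv (stair k) (-φ v) w₁ w₂ = - backEv (stair k) (φ v) w₁ w₂ := by
    have h3 : backEv (stair k) (-φ v) = - backEv (stair k) (φ v) :=
      LinearMap.map_neg (backEv (stair k)) (φ v)
    rw [h3]
    rfl
  rw [h2] at this
  show l (backEv (stair k) (φ v) w₂ w₁) = -l (backEv (stair k) (φ v) w₁ w₂)
  rw [← this, map_neg]

end Sx
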