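import Mathlib
import Pool.Agent.Helper87.Saxl.Defs

/-!
If `c` preserves columns, `r` preserves rows and `c r` preserves the cells added to a Young
diagram, then `c` and `r` preserve these cells.
-/

namespace Sx

open Finset Equiv

variable {X Y : Type} [Fintype X] [DecidableEq X] [Fintype Y] [DecidableEq Y]

theorem block_mem_col {k : ℕ} {t : Y → ℕ × ℕ} {q : Fin k → ℕ × ℕ} (c₁ : Perm Y)
    (c₂ : Perm (Fin k)) :
    Perm.sumCongr c₁ c₂ ∈ colS (Sum.elim t q) ↔ c₁ ∈ colS t ∧ c₂ ∈ colS q := by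
  unfold colS
  simp only [Finset.mem_filter, Finset.mem_univ, true_and, Sum.forall, Perm.sumCongr_apply,
    Sum.map_inl, Sum.map_inr, Sum.elim_inl, Sum.elim_inr]

theorem block_mem_row {k : ℕ} {t : Y → ℕ × ℕ} {q : Fin k → ℕ × ℕ} (c₁ : Perm Y)
    (c₂ : Perm (Fin k)) :
    Perm.sumCongr c₁ c₂ ∈ rowS (Sum.elim t q) ↔ c₁ ∈ rowS t ∧ c₂ ∈ rowS q := by
  unfold rowS
  simp only [Finset.mem_filter, Finset.mem_univ, true_and, Sum.forall, Perm.sumCongr_apply,
    Sum.map_inl, Sum.map_inr, Sum.elim_inl, Sum.elim_inr]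

/-- a permutation preserving the right part preserves the left part. -/
theorem block_left {k : ℕ} (σ : Perm (Y ⊕ Fin k))
    (h : ∀ i : Fin k, ∃ i' : Fin k, σ (Sum.inr i) = Sum.inr i') (y : Y) :
    ∃ y' : Y, σ (Sum.inl y) = Sum.inl y' := by
  choose f hf using h
  have hinj : Function.Injective f := by
    intro i j hij
    have := (hf i).trans (hij ▸ (hf j).symm)
    exact Sum.inr_injective (σ.injective this)
  have hsurj := Finite.surjective_of_injective hinj
  rcases hy : σ (Sum.inl y) with y' | i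
  · exact ⟨y', rfl⟩
  · exfalso
    obtain ⟨j, rfl⟩ := hsurj i
    have := σ.injective (hy.trans (hf j).symm)
    cases this

theorem block_row {k : ℕ} {t : Y → ℕ × ℕ} {q : Fin k → ℕ × ℕ} {nu lam : YoungDiagram}
    (ht : IsTab t nu) (hl : IsTab (Sum.elim t q) lam) {c r : Perm (Y ⊕ Fin k)}
    (hc : c ∈ colS (Sum.elim t q)) (hr : r ∈ rowS (Sum.elim t q))
    (h : ∀ i : Fin k, ∃ i' : Fin k, c (r (Sum.inr i)) = Sum.inr i') (y₀ : Y) :
    ∃ y, r (Sum.inl y) = Sum.inl y₀ := by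
  unfold colS at hc
  unfold rowS at hr
  rw [Finset.mem_filter] at hc hr
  have hc' := hc.2
  have hr' := hr.2
  have h2 := block_left (c * r) h
  choose s hs using h2
  have hsinj : Function.Injective s := by
    intro i j hij
    have := (hs i).trans (hij ▸ (hs j).symm)
    exact Sum.inl_injective ((c * r).injective this)
  have hsbij : Function.Bijective s := ⟨hsinj, Finite.surjective_of_injective hsinj⟩
  -- the potential
  let g : ℕ × ℕ → ℤ := fun p => (nu.rowLen p.1 : ℤ) - p.2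
  have hgpos : ∀ y, 0 < g (t y) := by
    intro y
    have h1 : t y ∈ nu := (ht.mem _).2 ⟨y, rfl⟩
    have h2 : ((t y).1, (t y).2) ∈ nu := h1
    rw [YoungDiagram.mem_iff_lt_rowLen] at h2
    simp only [g]
    omega
  have hgneg : ∀ i, g (q i) ≤ 0 := by
    intro i
    by_contra hlt
    push Not at hlt
    have h2 : ((q i).1, (q i).2) ∈ nu := by
      rw [YoungDiagram.mem_iff_lt_rowLen]
      simp only [g] at hlt
      omega
    obtain ⟨y, hy⟩ := (ht.mem (q i)).1 h2
    have : (Sum.inl y : Y ⊕ Fin k) = Sum.inr i := hl.inj (by simpa using hy)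
    cases this
  -- the sums agree
  have hsum : ∑ y, g (Sum.elim t q (r (Sum.inl y))) = ∑ y, g (t y) := by
    have h3 : ∀ y, g (Sum.elim t q (r (Sum.inl y))) =
        (nu.rowLen (t y).1 : ℤ) - (t (s y)).2 := by
      intro y
      have e1 := hr' (Sum.inl y)
      have e2 := hc' (r (Sum.inl y))
      have e3 : c (r (Sum.inl y)) = Sum.inl (s y) := hs y
      rw [e3] at e2
      simp only [Sum.elim_inl] at e1 e2
      simp only [g]
      rw [e1, ← e2]
    rw [Finset.sum_congr rfl fun y _ => h3 y]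
    simp only [g]
    rw [Finset.sum_sub_distrib, Finset.sum_sub_distrib]
    congr 1
    exact Function.Bijective.sum_comp hsbij fun y => ((t y).2 : ℤ)
  by_contra hno
  push Not at hno
  -- split the sum
  let Z : Finset Y := univ.filter fun y => ∃ y', r (Sum.inl y) = Sum.inl y'
  have h4 : ∑ y, g (Sum.elim t q (r (Sum.inl y))) ≤
      ∑ y ∈ Z, g (Sum.elim t q (r (Sum.inl y))) := by
    rw [← Finset.sum_filter_add_sum_filter_not univ
      (fun y => ∃ y', r (Sum.inl y) = Sum.inl y')]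
    have : ∑ y ∈ univ.filter (fun y => ¬ ∃ y', r (Sum.inl y) = Sum.inl y'),
        g (Sum.elim t q (r (Sum.inl y))) ≤ 0 := by
      refine Finset.sum_nonpos fun y hy => ?_
      rw [Finset.mem_filter] at hy
      rcases hy' : r (Sum.inl y) with y' | i
      · exact absurd ⟨y', hy'⟩ hy.2
      · exact hgneg i
    simp only [Z]
    omega
  have h5 : ∀ y ∈ Z, ∃ y', r (Sum.inl y) = Sum.inl y' := fun y hy => (Finset.mem_filter.1 hy).2
  choose! z hz using h5
  have h6 : ∑ y ∈ Z, g (Sum.elim t q (r (Sum.inl y))) = ∑ y ∈ Z.image z, g (t y) := by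
    rw [Finset.sum_image]
    · refine Finset.sum_congr rfl fun y hy => ?_
      rw [hz y hy]
      rfl
    · intro a ha b hb hab
      have := (hz a ha).trans (hab ▸ (hz b hb).symm)
      exact Sum.inl_injective (r.injective this)
  have h7 : ∑ y ∈ Z.image z, g (t y) < ∑ y, g (t y) := by
    refine Finset.sum_lt_sum_of_subset (Finset.subset_univ _) (Finset.mem_univ y₀) ?_ (hgpos y₀)
      fun y _ _ => (hgpos y).le
    intro hmem
    rw [Finset.mem_image] at hmem
    obtain ⟨y, hy, hy'⟩ := hmem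
    exact hno y (by rw [hz y hy, hy'])
  rw [← hsum] at h7
  rw [h6] at h4
  omega

theorem block {k : ℕ} {t : Y → ℕ × ℕ} {q : Fin k → ℕ × ℕ} {nu lam : YoungDiagram}
    (ht : IsTab t nu) (hl : IsTab (Sum.elim t q) lam)
    (Φ : Perm (Y ⊕ Fin k) → Perm (Y ⊕ Fin k) → ℚ) :
    ∑ c ∈ colS (Sum.elim t q), ∑ r ∈ rowS (Sum.elim t q),
      (if ∀ i : Fin k, ∃ i' : Fin k, c (r (Sum.inr i)) = Sum.inr i' then Φ c r else 0)
    = ∑ c₁ ∈ colS t, ∑ c₂ ∈ colS q, ∑ r₁ ∈ rowS t, ∑ r₂ ∈ rowS q,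
        Φ (Perm.sumCongr c₁ c₂) (Perm.sumCongr r₁ r₂) := by
  rw [← Finset.sum_product', ← Finset.sum_filter]
  have hR : ∑ c₁ ∈ colS t, ∑ c₂ ∈ colS q, ∑ r₁ ∈ rowS t, ∑ r₂ ∈ rowS q,
        Φ (Perm.sumCongr c₁ c₂) (Perm.sumCongr r₁ r₂) =
      ∑ P ∈ (colS t ×ˢ colS q) ×ˢ (rowS t ×ˢ rowS q),
        Φ (Perm.sumCongr P.1.1 P.1.2) (Perm.sumCongr P.2.1 P.2.2) := by
    rw [Finset.sum_product, Finset.sum_product]
    refine Finset.sum_congr rfl fun c₁ _ => Finset.sum_congr rfl fun c₂ _ => ?_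
    rw [Finset.sum_product]
  rw [hR]
  symm
  refine Finset.sum_bij
    (fun P _ => (Perm.sumCongr P.1.1 P.1.2, Perm.sumCongr P.2.1 P.2.2)) ?_ ?_ ?_ ?_
  · rintro ⟨⟨c₁, c₂⟩, ⟨r₁, r₂⟩⟩ hP
    simp only [Finset.mem_product] at hP
    simp only [Finset.mem_filter, Finset.mem_product]
    refine ⟨⟨(block_mem_col _ _).2 hP.1, (block_mem_row _ _).2 hP.2⟩, fun i => ⟨c₂ (r₂ i), ?_⟩⟩
    simp
  · rintro ⟨⟨c₁, c₂⟩, ⟨r₁, r₂⟩⟩ _ ⟨⟨c₁', c₂'⟩, ⟨r₁', r₂'⟩⟩ _ h
    simp only [Prod.mk.injEq] at h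
    have e1 := Perm.sumCongrHom_injective (α := Y) (β := Fin k)
      (a₁ := (c₁, c₂)) (a₂ := (c₁', c₂')) h.1
    have e2 := Perm.sumCongrHom_injective (α := Y) (β := Fin k)
      (a₁ := (r₁, r₂)) (a₂ := (r₁', r₂')) h.2
    simp only [Prod.mk.injEq] at e1 e2 ⊢
    exact ⟨e1, e2⟩
  · rintro ⟨c, r⟩ hP
    simp only [Finset.mem_filter, Finset.mem_product] at hP
    obtain ⟨⟨hc, hr⟩, hcond⟩ := hP
    have h1 := block_row ht hl hc hr hcond
    -- `r` preserves the left part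
    choose u hu using h1
    have huinj : Function.Injective u := by
      intro a b hab
      have := (hu a).symm.trans (hab ▸ hu b)
      exact Sum.inl_injective this
    have husurj := Finite.surjective_of_injective huinj
    have hrl : ∀ y, ∃ y', r (Sum.inl y) = Sum.inl y' := by
      intro y
      obtain ⟨y', rfl⟩ := husurj y
      exact ⟨y', hu y'⟩
    have hcl : ∀ y, ∃ y', c (Sum.inl y) = Sum.inl y' := by
      intro y
      obtain ⟨y', hy'⟩ := block_left (c * r) hcond (u y)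
      rw [Perm.mul_apply, hu y] at hy'
      exact ⟨y', hy'⟩
    have hr2 : r ∈ (Perm.sumCongrHom Y (Fin k)).range :=
      Perm.mem_sumCongrHom_range_of_perm_mapsTo_inl (by
        rintro _ ⟨y, rfl⟩
        obtain ⟨y', hy'⟩ := hrl y
        exact ⟨y', hy'.symm⟩)
    have hc2 : c ∈ (Perm.sumCongrHom Y (Fin k)).range :=
      Perm.mem_sumCongrHom_range_of_perm_mapsTo_inl (by
        rintro _ ⟨y, rfl⟩
        obtain ⟨y', hy'⟩ := hcl y
        exact ⟨y', hy'.symm⟩)
    obtain ⟨⟨c₁, c₂⟩, hc3⟩ := hc2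
    obtain ⟨⟨r₁, r₂⟩, hr3⟩ := hr2
    have hc4 : Perm.sumCongr c₁ c₂ = c := hc3
    have hr4 : Perm.sumCongr r₁ r₂ = r := hr3
    rw [← hc4, block_mem_col] at hc
    rw [← hr4, block_mem_row] at hr
    refine ⟨((c₁, c₂), (r₁, r₂)), ?_, ?_⟩
    · simp only [Finset.mem_product]
      exact ⟨hc, hr⟩
    · simp only [hc4, hr4]
  · intro P _
    rfl

end Sx
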