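import Pool.Agent.Helper87.Saxl.InjD

namespace Sx

open Finset Equiv

variable {X Y : Type} [Fintype X] [DecidableEq X] [Fintype Y] [DecidableEq Y]


/-- generalisation of `injE` to fewer letters -/
theorem injE_aux {L : Type} [Fintype L] [DecidableEq L] (k : ℕ) (y : L) (m : ℕ) (hm : m ≤ k) :
    ∀ (z : Fin m → L) (_ : Function.Injective z) (_ : ∀ j, z j ≠ y) (G : (X → L) → ℚ)
    (_ : ∀ W, G W ≠ 0 → cnt W y = k ∧ ∀ j : Fin m, cnt W (z j) < k - j)
    (_ : ∀ W : X → L, ∑ p ∈ univ.filter (fun p : Fin m → X => ∀ j, W (p j) = z j),
      G (fun x => if ∃ j, p j = x then y else W x) = 0), ∀ W, G W = 0 := by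
  induction m with
  | zero =>
    intro z _ _ G _ h0 W
    have := h0 W
    rw [filter_true_of_mem (fun p _ j => j.elim0)] at this
    simpa using this
  | succ m ih =>
    intro z hz hyz G hs h0
    refine ih (by omega) (fun j => z j.castSucc) (fun a b h => by
      have := hz h
      exact Fin.castSucc_injective m this) (fun j => hyz _) G (fun W hW =>
        ⟨(hs W hW).1, fun j => (hs W hW).2 j.castSucc⟩) ?_
    -- the intermediate function
    set H : (X → L) → ℚ := fun W =>
      ∑ p ∈ univ.filter (fun p : Fin m → X => ∀ j : Fin m, W (p j) = z j.castSucc),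
        G (fun x => if ∃ j, p j = x then y else W x) with hH
    show ∀ W, H W = 0
    apply injD y (z (Fin.last m)) (hyz _).symm H
    · intro W hW
      obtain ⟨p, hp, hp0⟩ := exists_ne_zero_of_sum_ne_zero hW
      rw [mem_filter] at hp
      obtain ⟨h1, h2⟩ := hs _ hp0
      have h3 := h2 (Fin.last m)
      have hpinj : Function.Injective p := by
        intro a b hab
        have e1 := hp.2 a
        have e2 := hp.2 b
        rw [hab, e2] at e1
        exact (Fin.castSucc_injective m (hz e1)).symm
      -- the letter `z last`
      have e1 : cnt (fun x => if ∃ j, p j = x then y else W x) (z (Fin.last m)) =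
          cnt W (z (Fin.last m)) := by
        unfold cnt
        congr 1
        ext x
        simp only [mem_filter, mem_univ, true_and]
        by_cases hx : ∃ j, p j = x
        · rw [if_pos hx]
          obtain ⟨j, rfl⟩ := hx
          rw [hp.2 j]
          constructor
          · intro h; exact absurd h.symm (hyz _)
          · intro h
            have := hz h
            exact absurd this (Fin.castSucc_lt_last j).ne
        · rw [if_neg hx]
      -- the letter `y`
      have e2 : cnt (fun x => if ∃ j, p j = x then y else W x) y = cnt W y + m := by
        unfold cnt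
        have : (univ.filter fun x => (if ∃ j, p j = x then y else W x) = y) =
            (univ.filter fun x => W x = y) ∪ univ.image p := by
          ext x
          simp only [mem_filter, mem_univ, true_and, mem_union, mem_image]
          by_cases hx : ∃ j, p j = x
          · simp [hx]
          · simp [hx]
        rw [this, card_union_of_disjoint, card_image_of_injective _ hpinj, card_univ,
          Fintype.card_fin]
        rw [disjoint_left]
        intro x hx hx2
        rw [mem_image] at hx2
        obtain ⟨j, _, rfl⟩ := hx2
        rw [mem_filter, hp.2 j] at hx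
        exact hyz _ hx.2
      rw [e1, Fin.val_last] at h3
      rw [e2] at h1
      omega
    · intro W
      have key := h0 W
      rw [← key]
      simp only [hH]
      rw [sum_sigma']
      apply sum_bij' (i := fun (q : Σ _ : X, (Fin m → X)) _ => (Fin.snoc q.2 q.1 : Fin (m + 1) → X))
        (j := fun (p : Fin (m + 1) → X) _ => (⟨p (Fin.last m), Fin.init p⟩ : Σ _ : X, (Fin m → X)))
      · rintro ⟨x, p⟩ hq
        simp only [mem_sigma, mem_filter, mem_univ, true_and] at hq ⊢
        intro j
        refine Fin.lastCases ?_ (fun i => ?_) j
        · rw [Fin.snoc_last]; exact hq.1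
        · rw [Fin.snoc_castSucc]
          have := hq.2 i
          by_cases hx : p i = x
          · rw [hx, Function.update_self] at this
            exact absurd this.symm (hyz _)
          · rwa [Function.update_of_ne hx] at this
      · intro p hp
        simp only [mem_sigma, mem_filter, mem_univ, true_and] at hp ⊢
        refine ⟨hp _, fun j => ?_⟩
        have h1 : W (p j.castSucc) = z j.castSucc := hp _
        have h2 : p j.castSucc ≠ p (Fin.last m) := by
          intro h
          rw [h, hp (Fin.last m)] at h1
          exact absurd (hz h1).symm (Fin.castSucc_lt_last j).ne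
        show Function.update W (p (Fin.last m)) y (Fin.init p j) = _
        unfold Fin.init
        rw [Function.update_of_ne h2]
        exact h1
      · rintro ⟨x, p⟩ _
        simp
      · intro p _
        simp
      · rintro ⟨x, p⟩ _
        simp only
        congr 1
        funext u
        by_cases hu : ∃ j, p j = u
        · rw [if_pos hu, if_pos]
          obtain ⟨j, hj⟩ := hu
          exact ⟨j.castSucc, by rw [Fin.snoc_castSucc]; exact hj⟩
        · rw [if_neg hu]
          by_cases hux : u = x
          · subst hux
            rw [Function.update_self, if_pos]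
            exact ⟨Fin.last m, by rw [Fin.snoc_last]⟩
          · rw [Function.update_of_ne hux, if_neg]
            rintro ⟨j, hj⟩
            revert hj
            refine Fin.lastCases ?_ (fun i => ?_) j
            · rw [Fin.snoc_last]; exact fun h => hux h.symm
            · rw [Fin.snoc_castSucc]; exact fun h => hu ⟨i, h⟩

theorem injE {L : Type} [Fintype L] [DecidableEq L] (k : ℕ) (y : L) (z : Fin k → L)
    (hz : Function.Injective z) (hyz : ∀ j, z j ≠ y) (G : (X → L) → ℚ)
    (hs : ∀ W, G W ≠ 0 → cnt W y = k ∧ ∀ j : Fin k, cnt W (z j) < k - j)
    (h0 : ∀ W : X → L, ∑ p ∈ univ.filter (fun p : Fin k → X => ∀ j, W (p j) = z j),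
      G (fun x => if ∃ j, p j = x then y else W x) = 0) :
    ∀ W, G W = 0 := injE_aux k y k le_rfl z hz hyz G hs h0

end Sx
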