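import Mathlib
import Pool.Agent.Helper87.Saxl.Defs
import Pool.Agent.Helper87.Saxl.InjE

set_option linter.unusedSectionVars false

namespace Sx

open Finset Equiv

variable {X Y : Type} [Fintype X] [DecidableEq X] [Fintype Y] [DecidableEq Y]

/-- letters of a word of content `k` are `< k`. -/
lemma dir_cont_lt {k : ℕ} {S : X → ℕ} (h : Cont k S) (x : X) : S x < k := by
  by_contra hx
  have h1 := h (S x)
  rw [Nat.sub_eq_zero_of_le (by omega)] at h1
  have : x ∈ univ.filter fun y => S y = S x := by simp
  rw [cnt, card_eq_zero] at h1
  rw [h1] at this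
  simp at this

/-- an alternating function vanishes on words that are not injective on `Q`. -/
lemma dir_alt_inj {Q : Finset X} {f : (X → ℕ) → ℚ} (hf : AltOn Q f) {S : X → ℕ} (h : f S ≠ 0) :
    ∀ x ∈ Q, ∀ y ∈ Q, S x = S y → x = y := by
  intro x hx y hy hxy
  by_contra hne
  have h1 := hf (swap x y) (fun z hz => by
    apply swap_apply_of_ne_of_ne
    · rintro rfl; exact hz hx
    · rintro rfl; exact hz hy) S
  have h2 : S ∘ (swap x y) = S := by
    funext z
    simp only [Function.comp]
    by_cases h3 : z = x
    · subst h3; rw [swap_apply_left]; exact hxy.symm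
    · by_cases h4 : z = y
      · subst h4; rw [swap_apply_right]; exact hxy
      · rw [swap_apply_of_ne_of_ne h3 h4]
  rw [h2, sg_swap hne] at h1
  apply h
  linarith

/-- two words injective on `Q` with letters `< k = |Q|` differ on `Q` by a permutation. -/
lemma dir_perm {k : ℕ} {Q : Finset X} (hQ : Q.card = k) {S S' : X → ℕ}
    (hi : ∀ x ∈ Q, ∀ y ∈ Q, S x = S y → x = y) (hl : ∀ x ∈ Q, S x < k)
    (hi' : ∀ x ∈ Q, ∀ y ∈ Q, S' x = S' y → x = y) (hl' : ∀ x ∈ Q, S' x < k) :
    ∃ τ : Perm X, (∀ x, x ∉ Q → τ x = x) ∧ (∀ x ∈ Q, τ x ∈ Q) ∧ ∀ x ∈ Q, S (τ x) = S' x := by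
  have himg : ∀ (T : X → ℕ), (∀ x ∈ Q, ∀ y ∈ Q, T x = T y → x = y) → (∀ x ∈ Q, T x < k) →
      Q.image T = range k := by
    intro T h1 h2
    apply eq_of_subset_of_card_le
    · intro n hn
      obtain ⟨x, hx, rfl⟩ := mem_image.1 hn
      exact mem_range.2 (h2 x hx)
    · rw [card_range, card_image_of_injOn (fun x hx y hy h => h1 x hx y hy h), hQ]
  have key : ∀ x : {x // x ∈ Q}, ∃ y : {x // x ∈ Q}, S y = S' x := by
    intro x
    have : S' x ∈ Q.image S := by
      rw [himg S hi hl]; exact mem_range.2 (hl' x x.2)
    obtain ⟨y, hy, hxy⟩ := mem_image.1 this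
    exact ⟨⟨y, hy⟩, hxy⟩
  choose g hg using key
  have hginj : Function.Injective g := by
    intro a b hab
    have h1 := hg a
    rw [hab, hg b] at h1
    exact Subtype.ext (hi' _ a.2 _ b.2 h1.symm)
  have hgbij : Function.Bijective g := Finite.injective_iff_bijective.1 hginj
  refine ⟨Perm.ofSubtype (Equiv.ofBijective g hgbij), ?_, ?_, ?_⟩
  · intro x hx
    exact Perm.ofSubtype_apply_of_not_mem _ hx
  · intro x hx
    rw [Perm.ofSubtype_apply_of_mem _ hx]
    exact Subtype.property _
  · intro x hx
    rw [Perm.ofSubtype_apply_of_mem _ hx]
    exact hg ⟨x, hx⟩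

/-- `h` does not change if both words are changed on `Q`, staying equal and bijective there. -/
lemma dir_change {k : ℕ} {Q : Finset X} (hQ : Q.card = k) {F : (X → ℕ) → (X → ℕ) → ℚ}
    (ha₁ : ∀ S₂, AltOn Q (fun S₁ => F S₁ S₂)) (ha₂ : ∀ S₁, AltOn Q (fun S₂ => F S₁ S₂))
    {S₁ S₂ T₁ T₂ : X → ℕ}
    (h1 : ∀ x, x ∉ Q → T₁ x = S₁ x) (h2 : ∀ x, x ∉ Q → T₂ x = S₂ x)
    (hS : ∀ x ∈ Q, S₁ x = S₂ x) (hT : ∀ x ∈ Q, T₁ x = T₂ x)
    (hi : ∀ x ∈ Q, ∀ y ∈ Q, S₁ x = S₁ y → x = y) (hl : ∀ x ∈ Q, S₁ x < k)
    (hi' : ∀ x ∈ Q, ∀ y ∈ Q, T₁ x = T₁ y → x = y) (hl' : ∀ x ∈ Q, T₁ x < k) :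
    F T₁ T₂ = F S₁ S₂ := by
  obtain ⟨τ, hτ1, hτ2, hτ3⟩ := dir_perm hQ hi hl hi' hl'
  have e1 : S₁ ∘ τ = T₁ := by
    funext x
    by_cases hx : x ∈ Q
    · exact hτ3 x hx
    · simp only [Function.comp]; rw [hτ1 x hx, h1 x hx]
  have e2 : S₂ ∘ τ = T₂ := by
    funext x
    by_cases hx : x ∈ Q
    · simp only [Function.comp]; rw [← hS _ (hτ2 x hx), ← hT x hx]; exact hτ3 x hx
    · simp only [Function.comp]; rw [hτ1 x hx, h2 x hx]
  have h3 := ha₁ T₂ τ hτ1 S₁
  have h4 := ha₂ S₁ τ hτ1 S₂
  simp only at h3 h4
  rw [e1] at h3
  rw [e2] at h4
  rw [h3, h4, ← mul_assoc, sg_mul_self, one_mul]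

/-- number of agreements -/
def dirAg (S₁ S₂ : X → ℕ) : ℕ := (univ.filter fun x => S₁ x = S₂ x).card

lemma dir_eqOn {k m : ℕ} {F : (X → ℕ) → (X → ℕ) → ℚ} {Q : Finset X} (hQ : Q.card = k)
    (hc : ∀ S₁ S₂, F S₁ S₂ ≠ 0 → Cont k S₁ ∧ Cont k S₂)
    (ha₁ : ∀ S₂, AltOn Q (fun S₁ => F S₁ S₂)) (ha₂ : ∀ S₁, AltOn Q (fun S₂ => F S₁ S₂))
    (ih : ∀ S₁ S₂, m < dirAg S₁ S₂ → F S₁ S₂ = 0) {S₁ S₂ : X → ℕ} (hm : dirAg S₁ S₂ = m)
    (h : F S₁ S₂ ≠ 0) : ∀ x ∈ Q, S₁ x = S₂ x := by
  by_contra hcon
  push Not at hcon
  obtain ⟨x0, hx0, hne⟩ := hcon
  obtain ⟨c1, c2⟩ := hc _ _ h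
  have i1 := dir_alt_inj (ha₁ S₂) h
  have i2 := dir_alt_inj (ha₂ S₁) h
  obtain ⟨τ, hτ1, hτ2, hτ3⟩ := dir_perm hQ i2 (fun x _ => dir_cont_lt c2 x) i1
    (fun x _ => dir_cont_lt c1 x)
  have h4 := ha₂ S₁ τ hτ1 S₂
  simp only at h4
  have h5 : F S₁ (S₂ ∘ τ) ≠ 0 := by
    rw [h4]; exact mul_ne_zero (sg_ne_zero _) h
  apply h5
  apply ih
  rw [← hm]
  unfold dirAg
  apply card_lt_card
  rw [ssubset_iff_of_subset]
  · refine ⟨x0, ?_, ?_⟩
    · simp only [mem_filter, mem_univ, true_and, Function.comp]
      exact (hτ3 x0 hx0).symm
    · simp only [mem_filter, mem_univ, true_and]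
      exact hne
  · intro x hx
    simp only [mem_filter, mem_univ, true_and, Function.comp] at hx ⊢
    by_cases hxQ : x ∈ Q
    · exact (hτ3 x hxQ).symm
    · rw [hτ1 x hxQ]; exact hx

/-- the first word of `W`, filled with `s` at the positions `none`. -/
def dirA {k : ℕ} (s : X → ℕ) (W : X → Option (Fin k × Fin k)) (x : X) : ℕ :=
  match W x with
  | none => s x
  | some p => p.1

/-- the second word of `W`. -/
def dirB {k : ℕ} (s : X → ℕ) (W : X → Option (Fin k × Fin k)) (x : X) : ℕ :=
  match W x with
  | none => s x
  | some p => p.2

/-- the positions `none`. -/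
def dirQ {k : ℕ} (W : X → Option (Fin k × Fin k)) : Finset X := univ.filter fun x => W x = none

/-- a bijective filling. -/
noncomputable def dirS (Q : Finset X) (x : X) : ℕ :=
  if hx : x ∈ Q then ((Q.equivFin ⟨x, hx⟩ : Fin Q.card) : ℕ) else 0

lemma dirS_lt {Q : Finset X} {x : X} (hx : x ∈ Q) : dirS Q x < Q.card := by
  unfold dirS; rw [dif_pos hx]; exact (Q.equivFin ⟨x, hx⟩).2

lemma dirS_inj {Q : Finset X} : ∀ x ∈ Q, ∀ y ∈ Q, dirS Q x = dirS Q y → x = y := by
  intro x hx y hy h
  unfold dirS at h
  rw [dif_pos hx, dif_pos hy] at h
  have := Q.equivFin.injective (Fin.ext h)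
  exact congrArg Subtype.val this

lemma dirS_surj {Q : Finset X} {j : ℕ} (hj : j < Q.card) : ∃ x ∈ Q, dirS Q x = j := by
  refine ⟨(Q.equivFin.symm ⟨j, hj⟩ : Q), Subtype.property _, ?_⟩
  unfold dirS
  rw [dif_pos (Subtype.property _)]
  simp

/-- the auxiliary function -/
noncomputable def dirG0 (k m : ℕ) (h : Finset X → (X → ℕ) → (X → ℕ) → ℚ)
    (W : X → Option (Fin k × Fin k)) : ℚ :=
  if (dirQ W).card = k ∧ dirAg (dirA (dirS (dirQ W)) W) (dirB (dirS (dirQ W)) W) = m then
    h (dirQ W) (dirA (dirS (dirQ W)) W) (dirB (dirS (dirQ W)) W) else 0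

theorem dir (k : ℕ) (h : Finset X → (X → ℕ) → (X → ℕ) → ℚ)
    (hc : ∀ Q S₁ S₂, Q.card = k → h Q S₁ S₂ ≠ 0 → Cont k S₁ ∧ Cont k S₂)
    (ha₁ : ∀ Q, Q.card = k → ∀ S₂, AltOn Q (fun S₁ => h Q S₁ S₂))
    (ha₂ : ∀ Q, Q.card = k → ∀ S₁, AltOn Q (fun S₂ => h Q S₁ S₂))
    (hsum : ∀ S₁ S₂, ∑ Q ∈ powersetCard k univ, h Q S₁ S₂ = 0) :
    ∀ Q, Q.card = k → ∀ S₁ S₂, h Q S₁ S₂ = 0 := by
  -- downward induction on the number of agreements
  have main : ∀ d m : ℕ, m + d = Fintype.card X + 1 → ∀ S₁ S₂ : X → ℕ, m ≤ dirAg S₁ S₂ →
      ∀ Q : Finset X, Q.card = k → h Q S₁ S₂ = 0 := by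
    intro d
    induction d with
    | zero =>
      intro m hm S₁ S₂ hle Q hQ
      have : dirAg S₁ S₂ ≤ Fintype.card X := by
        unfold dirAg; exact card_le_univ _
      omega
    | succ d ih =>
      intro m hm
      have ih' := ih (m + 1) (by omega)
      -- it suffices to treat m agreements
      suffices hs : ∀ S₁ S₂ : X → ℕ, dirAg S₁ S₂ = m → ∀ Q : Finset X, Q.card = k →
          h Q S₁ S₂ = 0 by
        intro S₁ S₂ hle Q hQ
        rcases Nat.eq_or_lt_of_le hle with h1 | h1
        · exact hs S₁ S₂ h1.symm Q hQ
        · exact ih' S₁ S₂ h1 Q hQ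
      have ihQ : ∀ Q : Finset X, Q.card = k → ∀ S₁ S₂, m < dirAg S₁ S₂ → h Q S₁ S₂ = 0 :=
        fun Q hQ S₁ S₂ h1 => ih' S₁ S₂ h1 Q hQ
      have eqOn : ∀ Q : Finset X, Q.card = k → ∀ S₁ S₂, dirAg S₁ S₂ = m → h Q S₁ S₂ ≠ 0 →
          ∀ x ∈ Q, S₁ x = S₂ x := fun Q hQ S₁ S₂ hm h1 =>
        dir_eqOn hQ (fun S₁ S₂ => hc Q S₁ S₂ hQ) (ha₁ Q hQ) (ha₂ Q hQ) (ihQ Q hQ) hm h1
      have hG : ∀ W, dirG0 k m h W = 0 := by
        refine injE k (none : Option (Fin k × Fin k)) (fun j => some (j, j)) ?_ ?_ _ ?_ ?_
        · intro a b hab
          simpa using hab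
        · intro j; simp
        · -- support
          intro W hW
          unfold dirG0 at hW
          split_ifs at hW with hcond
          swap
          · exact absurd rfl hW
          refine ⟨hcond.1, fun j => ?_⟩
          obtain ⟨c1, -⟩ := hc _ _ _ hcond.1 hW
          rw [← c1 j]
          unfold cnt
          apply card_lt_card
          rw [ssubset_iff_of_subset]
          · obtain ⟨x, hx, hxj⟩ := dirS_surj (Q := dirQ W) (j := j) (by rw [hcond.1]; exact j.2)
            have hxn : W x = none := by
              have := hx
              unfold dirQ at this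
              simpa using this
            refine ⟨x, ?_, ?_⟩
            · simp only [mem_filter, mem_univ, true_and]
              unfold dirA
              rw [hxn]
              exact hxj
            · simp only [mem_filter, mem_univ, true_and]
              rw [hxn]
              simp
          · intro x hx
            simp only [mem_filter, mem_univ, true_and] at hx ⊢
            unfold dirA
            rw [hx]
        · -- the sum
          intro U
          by_cases hU : ∃ x, U x = none
          · obtain ⟨x, hx⟩ := hU
            apply sum_eq_zero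
            intro p hp
            simp only [mem_filter, mem_univ, true_and] at hp
            unfold dirG0
            rw [if_neg]
            rintro ⟨h1, -⟩
            have hpinj : Function.Injective p := by
              intro a b hab
              have h2 := hp a
              rw [hab, hp b] at h2
              simpa using h2.symm
            have h3 : insert x (univ.image p) ⊆
                dirQ (fun x => if ∃ j, p j = x then none else U x) := by
              intro y hy
              unfold dirQ
              simp only [mem_filter, mem_univ, true_and]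
              rcases mem_insert.1 hy with rfl | hy
              · split_ifs
                · rfl
                · exact hx
              · obtain ⟨j, -, rfl⟩ := mem_image.1 hy
                rw [if_pos ⟨j, rfl⟩]
            have h4 := card_le_card h3
            rw [card_insert_of_notMem, card_image_of_injective _ hpinj, h1] at h4
            · simp at h4
            · intro h5
              obtain ⟨j, -, rfl⟩ := mem_image.1 h5
              rw [hp j] at hx
              simp at hx
          · push Not at hU
            set S₁ := dirA (fun _ => 0) U with hS₁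
            set S₂ := dirB (fun _ => 0) U with hS₂
            have hS₁v : ∀ x p, U x = some p → S₁ x = p.1 := by
              intro x p hp; rw [hS₁]; unfold dirA; rw [hp]
            have hS₂v : ∀ x p, U x = some p → S₂ x = p.2 := by
              intro x p hp; rw [hS₂]; unfold dirB; rw [hp]
            -- value of a term
            have hval : ∀ p : Fin k → X, (∀ j, U (p j) = some (j, j)) →
                dirG0 k m h (fun x => if ∃ j, p j = x then none else U x) =
                  if dirAg S₁ S₂ = m then h (univ.image p) S₁ S₂ else 0 := by
              intro p hp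
              have hpinj : Function.Injective p := by
                intro a b hab
                have h2 := hp a
                rw [hab, hp b] at h2
                simpa using h2.symm
              set W : X → Option (Fin k × Fin k) :=
                fun x => if ∃ j, p j = x then none else U x with hW
              have hQ : dirQ W = univ.image p := by
                unfold dirQ
                ext x
                simp only [mem_filter, mem_univ, true_and, mem_image, hW]
                constructor
                · intro h1
                  by_contra h2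
                  rw [if_neg h2] at h1
                  exact hU x h1
                · intro h1
                  rw [if_pos h1]
              have hcard : (univ.image p).card = k := by
                rw [card_image_of_injective _ hpinj]; simp
              have hon : ∀ x ∈ univ.image p, W x = none := by
                intro x hx
                obtain ⟨j, -, rfl⟩ := mem_image.1 hx
                rw [hW]; simp only; rw [if_pos ⟨j, rfl⟩]
              have hoff : ∀ x, x ∉ univ.image p → W x = U x := by
                intro x hx
                rw [hW]; simp only; rw [if_neg]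
                rintro ⟨j, rfl⟩
                exact hx (mem_image_of_mem _ (mem_univ _))
              have hT1on : ∀ x ∈ univ.image p, dirA (dirS (dirQ W)) W x = dirS (univ.image p) x := by
                intro x hx
                unfold dirA; rw [hon x hx, hQ]
              have hT2on : ∀ x ∈ univ.image p, dirB (dirS (dirQ W)) W x = dirS (univ.image p) x := by
                intro x hx
                unfold dirB; rw [hon x hx, hQ]
              have hT1off : ∀ x, x ∉ univ.image p → dirA (dirS (dirQ W)) W x = S₁ x := by
                intro x hx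
                obtain ⟨u, hu⟩ := Option.ne_none_iff_exists'.1 (hU x)
                rw [hS₁v x u hu]
                unfold dirA; rw [hoff x hx, hu]
              have hT2off : ∀ x, x ∉ univ.image p → dirB (dirS (dirQ W)) W x = S₂ x := by
                intro x hx
                obtain ⟨u, hu⟩ := Option.ne_none_iff_exists'.1 (hU x)
                rw [hS₂v x u hu]
                unfold dirB; rw [hoff x hx, hu]
              have hS₁on : ∀ j, S₁ (p j) = j := fun j => hS₁v _ _ (hp j)
              have hS₂on : ∀ j, S₂ (p j) = j := fun j => hS₂v _ _ (hp j)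
              have hag : dirAg (dirA (dirS (dirQ W)) W) (dirB (dirS (dirQ W)) W) =
                  dirAg S₁ S₂ := by
                unfold dirAg
                congr 1
                ext x
                simp only [mem_filter, mem_univ, true_and]
                by_cases hx : x ∈ univ.image p
                · rw [hT1on x hx, hT2on x hx]
                  obtain ⟨j, -, rfl⟩ := mem_image.1 hx
                  rw [hS₁on, hS₂on]
                  simp
                · rw [hT1off x hx, hT2off x hx]
              unfold dirG0
              rw [hag]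
              by_cases hm' : dirAg S₁ S₂ = m
              · rw [if_pos ⟨by rw [hQ]; exact hcard, hm'⟩, if_pos hm', hQ]
                rw [hQ] at hT1on hT2on hT1off hT2off
                refine dir_change hcard (ha₁ _ hcard) (ha₂ _ hcard) hT1off hT2off ?_ ?_ ?_ ?_ ?_ ?_
                · intro x hx
                  obtain ⟨j, -, rfl⟩ := mem_image.1 hx
                  rw [hS₁on, hS₂on]
                · intro x hx
                  rw [hT1on x hx, hT2on x hx]
                · intro x hx y hy hxy
                  obtain ⟨i, -, rfl⟩ := mem_image.1 hx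
                  obtain ⟨j, -, rfl⟩ := mem_image.1 hy
                  rw [hS₁on, hS₁on] at hxy
                  rw [Fin.ext hxy]
                · intro x hx
                  obtain ⟨i, -, rfl⟩ := mem_image.1 hx
                  rw [hS₁on]; exact i.2
                · intro x hx y hy hxy
                  rw [hT1on x hx, hT1on y hy] at hxy
                  exact dirS_inj x hx y hy hxy
                · intro x hx
                  rw [hT1on x hx]
                  calc dirS (univ.image p) x < (univ.image p).card := dirS_lt hx
                    _ = k := hcard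
              · rw [if_neg (fun h1 => hm' h1.2), if_neg hm']
            rw [sum_congr rfl (fun p hp => hval p (by
              simpa only [mem_filter, mem_univ, true_and] using hp))]
            by_cases hm' : dirAg S₁ S₂ = m
            · simp only [if_pos hm']
              rw [← hsum S₁ S₂]
              refine sum_bij_ne_zero (fun p _ _ => univ.image p) ?_ ?_ ?_ ?_
              · intro p hp _
                simp only [mem_filter, mem_univ, true_and] at hp
                rw [mem_powersetCard]
                refine ⟨subset_univ _, ?_⟩
                rw [card_image_of_injective]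
                · simp
                · intro a b hab
                  have h2 := hp a
                  rw [hab, hp b] at h2
                  simpa using h2.symm
              · intro p hp _ p' hp' _ hpp
                simp only [mem_filter, mem_univ, true_and] at hp hp'
                funext j
                have h1 : p j ∈ univ.image p' := by
                  rw [← hpp]; exact mem_image_of_mem _ (mem_univ _)
                obtain ⟨i, -, hi⟩ := mem_image.1 h1
                have h2 := hp' i
                rw [hi, hp j] at h2
                have h3 : j = i := by simpa using h2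
                rw [h3] at hi ⊢
                exact hi.symm
              · intro Q hQ hne
                have hQc := (mem_powersetCard.1 hQ).2
                have e1 := eqOn Q hQc S₁ S₂ hm' hne
                have i1 := dir_alt_inj (ha₁ Q hQc S₂) hne
                obtain ⟨c1, c2⟩ := hc _ _ _ hQc hne
                have himg : Q.image S₁ = range k := by
                  apply eq_of_subset_of_card_le
                  · intro n hn
                    obtain ⟨x, hx, rfl⟩ := mem_image.1 hn
                    exact mem_range.2 (dir_cont_lt c1 x)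
                  · rw [card_range, card_image_of_injOn (fun x hx y hy h => i1 x hx y hy h), hQc]
                have hex : ∀ j : Fin k, ∃ x ∈ Q, S₁ x = j := by
                  intro j
                  have : (j : ℕ) ∈ Q.image S₁ := by rw [himg]; exact mem_range.2 j.2
                  obtain ⟨x, hx, hxj⟩ := mem_image.1 this
                  exact ⟨x, hx, hxj⟩
                choose p hpQ hpj using hex
                have hp : ∀ j, U (p j) = some (j, j) := by
                  intro j
                  obtain ⟨u, hu⟩ := Option.ne_none_iff_exists'.1 (hU (p j))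
                  have h1 := hS₁v _ _ hu
                  have h2 := hS₂v _ _ hu
                  rw [← e1 _ (hpQ j)] at h2
                  rw [hpj j] at h1 h2
                  rw [hu]
                  congr 1
                  exact Prod.ext (Fin.ext h1.symm) (Fin.ext h2.symm)
                have himp : univ.image p = Q := by
                  apply eq_of_subset_of_card_le
                  · intro x hx
                    obtain ⟨j, -, rfl⟩ := mem_image.1 hx
                    exact hpQ j
                  · rw [card_image_of_injective, hQc]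
                    · simp
                    · intro a b hab
                      have h1 := hpj a
                      rw [hab, hpj b] at h1
                      exact Fin.ext h1.symm
                refine ⟨p, ?_, ?_, himp⟩
                · simp only [mem_filter, mem_univ, true_and]
                  exact hp
                · rw [himp]; exact hne
              · intro p _ _
                rfl
            · simp only [if_neg hm']
              exact sum_const_zero
      -- conclusion
      intro S₁ S₂ hm' Q hQ
      by_contra hne
      have e1 := eqOn Q hQ S₁ S₂ hm' hne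
      have i1 := dir_alt_inj (ha₁ Q hQ S₂) hne
      obtain ⟨c1, c2⟩ := hc _ _ _ hQ hne
      set W : X → Option (Fin k × Fin k) := fun x => if x ∈ Q then none else
        some (⟨S₁ x, dir_cont_lt c1 x⟩, ⟨S₂ x, dir_cont_lt c2 x⟩) with hW
      have hdQ : dirQ W = Q := by
        unfold dirQ
        ext x
        simp only [mem_filter, mem_univ, true_and, hW]
        constructor
        · intro h1
          by_contra h2
          rw [if_neg h2] at h1
          simp at h1
        · intro h1
          rw [if_pos h1]
      have hA : ∀ x, x ∉ Q → dirA (dirS (dirQ W)) W x = S₁ x := by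
        intro x hx
        unfold dirA
        rw [hW]; simp only; rw [if_neg hx]
      have hB : ∀ x, x ∉ Q → dirB (dirS (dirQ W)) W x = S₂ x := by
        intro x hx
        unfold dirB
        rw [hW]; simp only; rw [if_neg hx]
      have hA' : ∀ x ∈ Q, dirA (dirS (dirQ W)) W x = dirS Q x := by
        intro x hx
        unfold dirA
        rw [hdQ, hW]; simp only; rw [if_pos hx]
      have hB' : ∀ x ∈ Q, dirB (dirS (dirQ W)) W x = dirS Q x := by
        intro x hx
        unfold dirB
        rw [hdQ, hW]; simp only; rw [if_pos hx]
      have hag : dirAg (dirA (dirS (dirQ W)) W) (dirB (dirS (dirQ W)) W) = m := by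
        rw [← hm']
        unfold dirAg
        congr 1
        ext x
        simp only [mem_filter, mem_univ, true_and]
        by_cases hx : x ∈ Q
        · rw [hA' x hx, hB' x hx]
          simp [e1 x hx]
        · rw [hA x hx, hB x hx]
      have hfin := hG W
      unfold dirG0 at hfin
      rw [if_pos ⟨by rw [hdQ]; exact hQ, hag⟩, hdQ] at hfin
      rw [hdQ] at hA hB hA' hB'
      apply hne
      rw [← hfin]
      symm
      refine dir_change hQ (ha₁ _ hQ) (ha₂ _ hQ) hA hB e1 ?_ i1 (fun x _ => dir_cont_lt c1 x) ?_ ?_
      · intro x hx
        rw [hA' x hx, hB' x hx]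
      · intro x hx y hy hxy
        rw [hA' x hx, hA' y hy] at hxy
        exact dirS_inj x hx y hy hxy
      · intro x hx
        rw [hA' x hx]
        calc dirS Q x < Q.card := dirS_lt hx
          _ = k := hQ
  intro Q hQ S₁ S₂
  exact main (Fintype.card X + 1) 0 (by omega) S₁ S₂ (Nat.zero_le _) Q hQ

end Sx
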