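import Mathlib
import Pool.Agent.Helper87.Saxl.Defs
import Pool.Agent.Helper87.Saxl.Dir

/-!
# Module DIRG: the directional lemma for sums over permutations
-/

namespace Sx

open Finset Equiv

variable {X Y : Type} [Fintype X] [DecidableEq X] [Fintype Y] [DecidableEq Y]

private lemma dirG_cnt (w : X → ℕ) (g : Perm X) (j : ℕ) : cnt (w ∘ g) j = cnt w j := by
  unfold cnt
  refine Finset.card_bij (fun x _ => g x) (fun x hx => ?_) (fun x _ y _ h => g.injective h)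
    (fun y hy => ⟨g.symm y, ?_, by simp⟩)
  · simpa using hx
  · simpa using hy

private lemma dirG_cont {k : ℕ} {w : X → ℕ} {g : Perm X} (h : Cont k (w ∘ g)) : Cont k w :=
  fun j => by rw [← h j, dirG_cnt]

private lemma dirG_conj (Q : Finset X) (g σ : Perm X)
    (hσ : ∀ x, x ∉ Q.image g → σ x = x) :
    (∀ x, x ∉ Q → (g⁻¹ * σ * g) x = x) ∧ sg (g⁻¹ * σ * g) = sg σ := by
  constructor
  · intro x hx
    have h1 : g x ∉ Q.image g := by
      intro h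
      obtain ⟨y, hy, hyx⟩ := Finset.mem_image.1 h
      rw [g.injective hyx] at hy
      exact hx hy
    simp [Perm.mul_apply, hσ _ h1]
  · rw [sg_mul, sg_mul, sg_inv]
    have := sg_mul_self g
    linear_combination (sg σ) * this

theorem dirG (k : ℕ) (Q : Finset X) (hQ : Q.card = k) (F : (X → ℕ) → (X → ℕ) → ℚ)
    (hc : ∀ S₁ S₂, F S₁ S₂ ≠ 0 → Cont k S₁ ∧ Cont k S₂)
    (ha₁ : ∀ S₂, AltOn Q (fun S₁ => F S₁ S₂)) (ha₂ : ∀ S₁, AltOn Q (F S₁))
    {ι : Type} (I : Finset ι) (a : ι → ℚ) (g : ι → Perm X)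
    (h0 : ∀ S₁ S₂, ∑ i ∈ I, a i * F (S₁ ∘ g i) (S₂ ∘ g i) = 0) :
    ∀ S₁ S₂, ∑ i ∈ I.filter (fun i => ∀ x, x ∈ Q → g i x ∈ Q),
      a i * F (S₁ ∘ g i) (S₂ ∘ g i) = 0 := by
  have key := dir k (fun Q' S₁ S₂ => ∑ i ∈ I.filter (fun i => Q.image (g i) = Q'),
      a i * F (S₁ ∘ g i) (S₂ ∘ g i)) ?_ ?_ ?_ ?_ Q hQ
  · intro S₁ S₂
    rw [← key S₁ S₂]
    refine Finset.sum_congr (Finset.filter_congr fun i _ => ?_) fun i _ => rfl
    constructor
    · intro h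
      apply Finset.eq_of_subset_of_card_le
      · intro y hy
        obtain ⟨x, hx, rfl⟩ := Finset.mem_image.1 hy
        exact h x hx
      · rw [Finset.card_image_of_injective _ (g i).injective]
    · intro h x hx
      rw [← h]
      exact Finset.mem_image_of_mem _ hx
  · intro Q' S₁ S₂ _ hne
    obtain ⟨i, _, hi⟩ := Finset.exists_ne_zero_of_sum_ne_zero hne
    obtain ⟨h1, h2⟩ := hc _ _ (right_ne_zero_of_mul hi)
    exact ⟨dirG_cont h1, dirG_cont h2⟩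
  · intro Q' _ S₂ σ hσ w
    show ∑ i ∈ I.filter (fun i => Q.image (g i) = Q'), a i * F ((w ∘ σ) ∘ g i) (S₂ ∘ g i) =
      sg σ * ∑ i ∈ I.filter (fun i => Q.image (g i) = Q'), a i * F (w ∘ g i) (S₂ ∘ g i)
    rw [Finset.mul_sum]
    refine Finset.sum_congr rfl fun i hi => ?_
    have hi' : Q.image (g i) = Q' := (Finset.mem_filter.1 hi).2
    obtain ⟨c1, c2⟩ := dirG_conj Q (g i) σ (by rw [hi']; exact hσ)
    have h1 := ha₁ (S₂ ∘ g i) _ c1 (w ∘ g i)
    have h2 : (w ∘ g i) ∘ ((g i)⁻¹ * σ * g i : Perm X) = (w ∘ σ) ∘ g i := by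
      funext x; simp [Perm.mul_apply]
    rw [h2, c2] at h1
    have h1' : F ((w ∘ σ) ∘ g i) (S₂ ∘ g i) = sg σ * F (w ∘ g i) (S₂ ∘ g i) := h1
    rw [h1']
    ring
  · intro Q' _ S₁ σ hσ w
    show ∑ i ∈ I.filter (fun i => Q.image (g i) = Q'), a i * F (S₁ ∘ g i) ((w ∘ σ) ∘ g i) =
      sg σ * ∑ i ∈ I.filter (fun i => Q.image (g i) = Q'), a i * F (S₁ ∘ g i) (w ∘ g i)
    rw [Finset.mul_sum]
    refine Finset.sum_congr rfl fun i hi => ?_
    have hi' : Q.image (g i) = Q' := (Finset.mem_filter.1 hi).2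
    obtain ⟨c1, c2⟩ := dirG_conj Q (g i) σ (by rw [hi']; exact hσ)
    have h1 := ha₂ (S₁ ∘ g i) _ c1 (w ∘ g i)
    have h2 : (w ∘ g i) ∘ ((g i)⁻¹ * σ * g i : Perm X) = (w ∘ σ) ∘ g i := by
      funext x; simp [Perm.mul_apply]
    rw [h2, c2] at h1
    rw [h1]
    ring
  · intro S₁ S₂
    rw [← h0 S₁ S₂]
    have h1 : ∀ i ∈ I, Q.image (g i) ∈ powersetCard k (univ : Finset X) := fun i _ => by
      rw [Finset.mem_powersetCard]
      exact ⟨Finset.subset_univ _, by rw [Finset.card_image_of_injective _ (g i).injective, hQ]⟩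
    exact Finset.sum_fiberwise_of_maps_to h1 _

end Sx
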