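import Mathlib
import Pool.Agent.Helper87.Saxl.Defs

/-!
# Module JS: the map `j^s`
-/

namespace Sx

open Finset Equiv

variable {X Y : Type} [Fintype X] [DecidableEq X] [Fintype Y] [DecidableEq Y]

theorem sgnw_comp {k : ℕ} (w : Fin k → ℕ) (σ : Perm (Fin k)) : sgnw (w ∘ σ) = sg σ * sgnw w := by
  unfold sgnw
  rw [Finset.mul_sum]
  refine Fintype.sum_equiv (Equiv.mulRight σ⁻¹) _ _ fun π => ?_
  have h1 : (∏ i, if (w ∘ σ) i = ((π i : Fin k) : ℕ) then (1 : ℚ) else 0) =
      ∏ i, if w i = (((π * σ⁻¹) i : Fin k) : ℕ) then (1 : ℚ) else 0 := by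
    refine Fintype.prod_equiv σ _ _ fun i => ?_
    simp
  have e : (Equiv.mulRight σ⁻¹) π = π * σ⁻¹ := rfl
  rw [h1, e]
  generalize (∏ i, if w i = (((π * σ⁻¹) i : Fin k) : ℕ) then (1 : ℚ) else 0) = P
  rw [sg_mul, sg_inv]
  have := sg_mul_self σ
  linear_combination (- sg π * P) * this

theorem sgnw_id (k : ℕ) : sgnw (fun i : Fin k => (i : ℕ)) = 1 := by
  unfold sgnw
  rw [Finset.sum_eq_single (1 : Perm (Fin k))]
  · simp
  · intro π _ hπ
    obtain ⟨i, hi⟩ : ∃ i, π i ≠ i := by
      by_contra h
      push Not at h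
      exact hπ (Equiv.ext h)
    have : (∏ i : Fin k, if ((i : Fin k) : ℕ) = ((π i : Fin k) : ℕ) then (1 : ℚ) else 0) = 0 :=
      Finset.prod_eq_zero (Finset.mem_univ i) (by
        rw [if_neg]
        intro h
        exact hi (Fin.ext h).symm)
    rw [this, mul_zero]
  · intro h
    exact absurd (Finset.mem_univ _) h

private lemma js_perm {k : ℕ} (w : Fin k → ℕ) (h : sgnw w ≠ 0) :
    ∃ π : Perm (Fin k), ∀ i, w i = ((π i : Fin k) : ℕ) := by
  unfold sgnw at h
  obtain ⟨π, _, hπ⟩ := Finset.exists_ne_zero_of_sum_ne_zero h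
  refine ⟨π, fun i => ?_⟩
  by_contra hi
  apply hπ
  rw [Finset.prod_eq_zero (Finset.mem_univ i) (if_neg hi), mul_zero]

theorem sgnw_cnt {k : ℕ} (w : Fin k → ℕ) (h : sgnw w ≠ 0) (j : ℕ) :
    cnt w j = if j < k then 1 else 0 := by
  obtain ⟨π, hπ⟩ := js_perm w h
  unfold cnt
  split_ifs with hj
  · rw [Finset.card_eq_one]
    refine ⟨π⁻¹ ⟨j, hj⟩, ?_⟩
    ext x
    simp only [Finset.mem_filter, Finset.mem_univ, true_and, Finset.mem_singleton]
    rw [hπ x, Perm.eq_inv_iff_eq]
    constructor
    · intro h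
      exact Fin.ext h
    · intro h
      rw [h]
  · rw [Finset.card_eq_zero, Finset.filter_eq_empty_iff]
    intro x _ hx
    apply hj
    rw [← hx, hπ x]
    exact (π x).2

/-- the raising operators kill `sgnw` -/
private lemma js_raise {m : ℕ} (v : Fin m → ℕ) (i : ℕ) :
    ∑ q ∈ univ.filter (fun q => v q = i), sgnw (Function.update v q (i + 1)) = 0 := by
  by_contra hne
  obtain ⟨q, hq, hs⟩ := Finset.exists_ne_zero_of_sum_ne_zero hne
  have hvq : v q = i := (Finset.mem_filter.1 hq).2
  obtain ⟨π, hπ⟩ := js_perm _ hs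
  have h1 : ((π q : Fin m) : ℕ) = i + 1 := by rw [← hπ q]; simp
  have him : i < m := by have := (π q).2; omega
  obtain ⟨q', hq'⟩ : ∃ q', π q' = ⟨i, him⟩ := ⟨π⁻¹ ⟨i, him⟩, by simp⟩
  have hqq : q' ≠ q := by
    intro h
    rw [h] at hq'
    rw [hq'] at h1
    simp at h1
  have hvq' : v q' = i := by
    have := hπ q'
    rw [Function.update_of_ne hqq, hq'] at this
    exact this
  have hset : univ.filter (fun x => v x = i) = {q, q'} := by
    ext x
    simp only [Finset.mem_filter, Finset.mem_univ, true_and, Finset.mem_insert,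
      Finset.mem_singleton]
    constructor
    · intro hx
      by_cases hxq : x = q
      · exact Or.inl hxq
      · right
        have := hπ x
        rw [Function.update_of_ne hxq, hx] at this
        apply π.injective
        rw [hq']
        exact Fin.ext this.symm
    · rintro (rfl | rfl)
      · exact hvq
      · exact hvq'
  apply hne
  rw [hset, Finset.sum_pair hqq.symm]
  have h2 : Function.update v q' (i + 1) = Function.update v q (i + 1) ∘ (swap q q') := by
    funext x
    simp only [Function.comp_apply]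
    by_cases hx : x = q
    · subst hx
      rw [swap_apply_left, Function.update_of_ne hqq.symm, Function.update_of_ne hqq, hvq, hvq']
    · by_cases hx' : x = q'
      · subst hx'
        rw [swap_apply_right]
        simp
      · rw [swap_apply_of_ne_of_ne hx hx', Function.update_of_ne hx, Function.update_of_ne hx']
  rw [h2, sgnw_comp, sg_swap hqq.symm]
  ring

theorem js_inV {k : ℕ} {g : (Y → ℕ) → ℚ} (hg : InV k g) : InV (k + 1) (js (k := k + 1) g) := by
  constructor
  · intro w hw j
    unfold js at hw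
    have h1 := sgnw_cnt _ (left_ne_zero_of_mul hw) j
    have h2 := hg.cont _ (right_ne_zero_of_mul hw) j
    have h3 : cnt w j = cnt (w ∘ Sum.inl) j + cnt (w ∘ Sum.inr) j := by
      unfold cnt
      rw [Finset.card_filter, Finset.card_filter, Finset.card_filter, Fintype.sum_sum_type]
      rfl
    rw [h3, h1, h2]
    split_ifs with h <;> omega
  · intro i w
    unfold R js
    rw [Finset.sum_filter, Fintype.sum_sum_type]
    have e1 : ∀ y : Y, (Function.update w (Sum.inl y) (i + 1)) ∘ Sum.inr = w ∘ Sum.inr := fun y => by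
      funext x; simp
    have e2 : ∀ y : Y, (Function.update w (Sum.inl y) (i + 1)) ∘ Sum.inl =
        Function.update (w ∘ Sum.inl) y (i + 1) := fun y => by
      funext x
      by_cases hx : x = y
      · subst hx; simp
      · simp [hx]
    have e3 : ∀ q : Fin (k + 1), (Function.update w (Sum.inr q) (i + 1)) ∘ Sum.inl =
        w ∘ Sum.inl := fun q => by
      funext x; simp
    have e4 : ∀ q : Fin (k + 1), (Function.update w (Sum.inr q) (i + 1)) ∘ Sum.inr =
        Function.update (w ∘ Sum.inr) q (i + 1) := fun q => by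
      funext x
      by_cases hx : x = q
      · subst hx; simp
      · simp [hx]
    simp only [e1, e2, e3, e4]
    have f1 : ∑ y : Y, (if w (Sum.inl y) = i then
        sgnw (w ∘ Sum.inr) * g (Function.update (w ∘ Sum.inl) y (i + 1)) else 0) =
        sgnw (w ∘ Sum.inr) * R i g (w ∘ Sum.inl) := by
      unfold R
      rw [← Finset.sum_filter, Finset.mul_sum]
      rfl
    have f2 : ∑ q : Fin (k + 1), (if w (Sum.inr q) = i then
        sgnw (Function.update (w ∘ Sum.inr) q (i + 1)) * g (w ∘ Sum.inl) else 0) =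
        (∑ q ∈ univ.filter (fun q => (w ∘ Sum.inr) q = i),
          sgnw (Function.update (w ∘ Sum.inr) q (i + 1))) * g (w ∘ Sum.inl) := by
      rw [← Finset.sum_filter, Finset.sum_mul]
      rfl
    rw [f1, f2, hg.hw, js_raise]
    ring

private lemma js_const {k : ℕ} {g : (Y → ℕ) → ℚ} (hg : InV k g) (c : ℚ) :
    InV k (fun w => c * g w) := by
  constructor
  · intro w hw
    exact hg.cont w (right_ne_zero_of_mul hw)
  · intro i w
    have h : R i (fun w => c * g w) w = c * R i g w := by
      unfold R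
      rw [Finset.mul_sum]
    rw [h, hg.hw, mul_zero]

theorem jss_inVV {k : ℕ} {F : (Y → ℕ) → (Y → ℕ) → ℚ} (hF : InVV k F) :
    InVV (k + 1) (jss (k := k + 1) F) := by
  constructor
  · intro w₂
    have h := js_inV (js_const (hF.left (w₂ ∘ Sum.inl)) (sgnw (w₂ ∘ Sum.inr)))
    have e : (fun w₁ => jss (k := k + 1) F w₁ w₂) =
        js (k := k + 1) (fun w => sgnw (w₂ ∘ Sum.inr) * F w (w₂ ∘ Sum.inl)) := by
      funext w₁
      unfold jss js
      ring
    rw [e]
    exact h
  · intro w₁
    have h := js_inV (js_const (hF.right (w₁ ∘ Sum.inl)) (sgnw (w₁ ∘ Sum.inr)))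
    have e : jss (k := k + 1) F w₁ =
        js (k := k + 1) (fun w => sgnw (w₁ ∘ Sum.inr) * F (w₁ ∘ Sum.inl) w) := by
      funext w₂
      unfold jss js
      ring
    rw [e]
    exact h

end Sx
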