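import Mathlib
import Pool.Agent.Helper87.Saxl.Defs

/-! Elementary facts on strips of Young diagrams and tableaux (module STRIP). -/

namespace Sx

open Finset Equiv

variable {X Y : Type} [Fintype X] [DecidableEq X] [Fintype Y] [DecidableEq Y]

theorem strip_tab {m : ℕ} {t : Y → ℕ × ℕ} {nu lam : YoungDiagram} (ht : IsTab t nu)
    (hle : nu ≤ lam) (hc : lam.card = nu.card + m) :
    ∃ q : Fin m → ℕ × ℕ, IsTab (Sum.elim t q) lam := by
  have hsub : nu.cells ⊆ lam.cells := YoungDiagram.cells_subset_iff.2 hle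
  have hcard : (lam.cells \ nu.cells).card = m := by
    rw [Finset.card_sdiff_of_subset hsub]
    have h1 : lam.cells.card = lam.card := rfl
    have h2 : nu.cells.card = nu.card := rfl
    omega
  let e := ((lam.cells \ nu.cells).equivFinOfCardEq hcard).symm
  have hq : ∀ i, (e i : ℕ × ℕ) ∈ lam ∧ (e i : ℕ × ℕ) ∉ nu := by
    intro i
    have h := (e i).2
    rw [Finset.mem_sdiff] at h
    exact h
  refine ⟨fun i => (e i : ℕ × ℕ), ?_, ?_⟩
  · refine Function.Injective.sumElim ht.inj ?_ ?_
    · intro a b h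
      exact e.injective (Subtype.ext h)
    · intro a b h
      exact (hq b).2 (h ▸ (ht.mem _).2 ⟨a, rfl⟩)
  · intro p
    constructor
    · intro hp
      by_cases hn : p ∈ nu
      · obtain ⟨y, hy⟩ := (ht.mem p).1 hn
        exact ⟨Sum.inl y, hy⟩
      · have hp' : p ∈ lam.cells \ nu.cells := Finset.mem_sdiff.2 ⟨hp, hn⟩
        refine ⟨Sum.inr (e.symm ⟨p, hp'⟩), ?_⟩
        simp
    · rintro ⟨x, hx⟩
      rcases x with y | i
      · have : p ∈ nu := (ht.mem p).2 ⟨y, hx⟩
        exact hle this
      · rw [← hx]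
        exact (hq i).1

private lemma strip_q_mem {m : ℕ} {t : Y → ℕ × ℕ} {q : Fin m → ℕ × ℕ} {nu lam : YoungDiagram}
    (ht : IsTab t nu) (hl : IsTab (Sum.elim t q) lam) (i : Fin m) :
    q i ∈ lam ∧ q i ∉ nu := by
  refine ⟨(hl.mem _).2 ⟨Sum.inr i, rfl⟩, fun h => ?_⟩
  obtain ⟨y, hy⟩ := (ht.mem _).1 h
  have h2 : Sum.elim t q (Sum.inl y) = Sum.elim t q (Sum.inr i) := hy
  exact Sum.inl_ne_inr (hl.inj h2)

private lemma strip_q_inj {m : ℕ} {t : Y → ℕ × ℕ} {q : Fin m → ℕ × ℕ} {lam : YoungDiagram}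
    (hl : IsTab (Sum.elim t q) lam) : Function.Injective q := by
  intro a b h
  have h2 : Sum.elim t q (Sum.inr a) = Sum.elim t q (Sum.inr b) := h
  exact Sum.inr_injective (hl.inj h2)

theorem colS_hstrip {m : ℕ} {t : Y → ℕ × ℕ} {q : Fin m → ℕ × ℕ} {nu lam : YoungDiagram}
    (ht : IsTab t nu) (hl : IsTab (Sum.elim t q) lam) (hs : HStrip m nu lam) : colS q = {1} := by
  ext c
  simp only [colS, Finset.mem_filter, Finset.mem_univ, true_and, Finset.mem_singleton]
  constructor
  · intro h
    ext1 i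
    apply strip_q_inj hl
    have key : ∀ i, nu.colLen (q i).2 ≤ (q i).1 ∧ (q i).1 < lam.colLen (q i).2 := by
      intro i
      obtain ⟨h1, h2⟩ := strip_q_mem ht hl i
      have h1' : ((q i).1, (q i).2) ∈ lam := h1
      have h2' : ((q i).1, (q i).2) ∉ nu := h2
      rw [YoungDiagram.mem_iff_lt_colLen] at h1' h2'
      exact ⟨not_lt.1 h2', h1'⟩
    have hi := key i
    have hci := key (c i)
    have h3 := hs.col (q i).2
    rw [h i] at hci
    refine Prod.ext ?_ (h i)
    show (q (c i)).1 = (q i).1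
    omega
  · rintro rfl i
    rfl

theorem rowS_vstrip {m : ℕ} {t : Y → ℕ × ℕ} {q : Fin m → ℕ × ℕ} {nu lam : YoungDiagram}
    (ht : IsTab t nu) (hl : IsTab (Sum.elim t q) lam) (hs : VStrip m nu lam) : rowS q = {1} := by
  ext c
  simp only [rowS, Finset.mem_filter, Finset.mem_univ, true_and, Finset.mem_singleton]
  constructor
  · intro h
    ext1 i
    apply strip_q_inj hl
    have key : ∀ i, nu.rowLen (q i).1 ≤ (q i).2 ∧ (q i).2 < lam.rowLen (q i).1 := by
      intro i
      obtain ⟨h1, h2⟩ := strip_q_mem ht hl i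
      have h1' : ((q i).1, (q i).2) ∈ lam := h1
      have h2' : ((q i).1, (q i).2) ∉ nu := h2
      rw [YoungDiagram.mem_iff_lt_rowLen] at h1' h2'
      exact ⟨not_lt.1 h2', h1'⟩
    have hi := key i
    have hci := key (c i)
    have h3 := hs.row (q i).1
    rw [h i] at hci
    refine Prod.ext (h i) ?_
    show (q (c i)).2 = (q i).2
    omega
  · rintro rfl i
    rfl

private lemma strip_card_transpose (μ : YoungDiagram) : μ.transpose.card = μ.card := by
  show μ.transpose.cells.card = μ.cells.card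
  unfold YoungDiagram.transpose
  simp

theorem HStrip.transpose {m : ℕ} {nu lam : YoungDiagram} (h : HStrip m nu lam) :
    VStrip m nu.transpose lam.transpose where
  le := YoungDiagram.transpose_mono h.le
  card := by rw [strip_card_transpose, strip_card_transpose]; exact h.card
  row := by
    intro i
    rw [YoungDiagram.rowLen_transpose, YoungDiagram.rowLen_transpose]
    exact h.col i

theorem VStrip.transpose {m : ℕ} {nu lam : YoungDiagram} (h : VStrip m nu lam) :
    HStrip m nu.transpose lam.transpose where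
  le := YoungDiagram.transpose_mono h.le
  card := by rw [strip_card_transpose, strip_card_transpose]; exact h.card
  col := by
    intro i
    rw [YoungDiagram.colLen_transpose, YoungDiagram.colLen_transpose]
    exact h.row i

theorem exists_tab_stair {k : ℕ} {w : X → ℕ} (h : Cont k w) :
    ∃ b : X → ℕ × ℕ, IsTab b (stair k) := by
  classical
  have hcard : ∀ j, Fintype.card {x // w x = j} = k - j := by
    intro j
    rw [Fintype.card_subtype]
    exact h j
  let e : ∀ j, {x // w x = j} ≃ Fin (k - j) := fun j => Fintype.equivFinOfCardEq (hcard j)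
  refine ⟨fun x => (w x, (e (w x) ⟨x, rfl⟩ : Fin _).val), ?_, ?_⟩
  · have key : ∀ (j : ℕ) (x y : X) (hx : w x = j) (hy : w y = j),
        (e j ⟨x, hx⟩).val = (e j ⟨y, hy⟩).val → x = y := by
      intro j x y hx hy hxy
      have := (e j).injective (Fin.ext hxy)
      exact congrArg Subtype.val this
    intro x y hxy
    have h1 : w x = w y := congrArg Prod.fst hxy
    have h2 : (e (w x) ⟨x, rfl⟩ : Fin _).val = (e (w y) ⟨y, rfl⟩ : Fin _).val :=
      congrArg Prod.snd hxy
    have h3 : ∀ (j : ℕ) (hj : w y = j), (e (w y) ⟨y, rfl⟩ : Fin _).val = (e j ⟨y, hj⟩ : Fin _).val := by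
      intro j hj
      subst hj
      rfl
    rw [h3 (w x) h1.symm] at h2
    exact key _ _ _ rfl h1.symm h2
  · intro p
    rw [mem_stair]
    constructor
    · intro hp
      obtain ⟨a, c⟩ := p
      simp only at hp
      have hc : c < k - a := by omega
      have h5 : ∀ (j : ℕ) (x : X) (hx : w x = j),
          (w x, (e (w x) ⟨x, rfl⟩ : Fin _).val) = (j, (e j ⟨x, hx⟩ : Fin _).val) := by
        intro j x hx
        subst hx
        rfl
      let z := (e a).symm ⟨c, hc⟩
      refine ⟨z.1, ?_⟩
      show (w z.1, (e (w z.1) ⟨z.1, rfl⟩ : Fin _).val) = (a, c)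
      rw [h5 a z.1 z.2]
      have : e a ⟨z.1, z.2⟩ = ⟨c, hc⟩ := (e a).apply_symm_apply _
      rw [this]
    · rintro ⟨x, hx⟩
      rw [← hx]
      have := (e (w x) ⟨x, rfl⟩).isLt
      show w x + (e (w x) ⟨x, rfl⟩ : Fin _).val < k
      omega

end Sx
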