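import Mathlib
import Pool.Agent.Helper87.Saxl.Defs
import Pool.Agent.Helper87.Saxl.DirG
import Pool.Agent.Helper87.Saxl.Js
import Pool.Agent.Helper87.Saxl.Block
import Pool.Agent.Helper87.Saxl.Strip

/-! The horizontal step (module HSTEP). -/

namespace Sx

open Finset Equiv

variable {X Y : Type} [Fintype X] [DecidableEq X] [Fintype Y] [DecidableEq Y]

private lemma hstep_sg_sumCongr {k : ℕ} (a : Perm Y) (b : Perm (Fin k)) :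
    sg (Perm.sumCongr a b) = sg a * sg b := by
  unfold sg
  rw [Perm.sign_sumCongr]
  push_cast
  ring

private lemma hstep_jss_comp {k : ℕ} (F : (Y → ℕ) → (Y → ℕ) → ℚ) (S₁ S₂ : Y ⊕ Fin k → ℕ)
    (a : Perm Y) (b : Perm (Fin k)) :
    jss F (S₁ ∘ Perm.sumCongr a b) (S₂ ∘ Perm.sumCongr a b)
      = sgnw (S₁ ∘ Sum.inr) * sgnw (S₂ ∘ Sum.inr)
        * F ((S₁ ∘ Sum.inl) ∘ a) ((S₂ ∘ Sum.inl) ∘ a) := by
  unfold jss
  have h1 : ∀ S : Y ⊕ Fin k → ℕ, (S ∘ Perm.sumCongr a b) ∘ Sum.inr = (S ∘ Sum.inr) ∘ b := by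
    intro S; rfl
  have h2 : ∀ S : Y ⊕ Fin k → ℕ, (S ∘ Perm.sumCongr a b) ∘ Sum.inl = (S ∘ Sum.inl) ∘ a := by
    intro S; rfl
  rw [h1, h1, h2, h2, sgnw_comp, sgnw_comp]
  have := sg_mul_self b
  linear_combination (sgnw (S₁ ∘ Sum.inr) * sgnw (S₂ ∘ Sum.inr)
        * F ((S₁ ∘ Sum.inl) ∘ a) ((S₂ ∘ Sum.inl) ∘ a)) * this

/-- the block of the new points. -/
private def hstepQ (Y : Type) [Fintype Y] [DecidableEq Y] (k : ℕ) : Finset (Y ⊕ Fin k) :=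
  univ.map ⟨Sum.inr, Sum.inr_injective⟩

private lemma hstep_mem {k : ℕ} (x : Y ⊕ Fin k) : x ∈ hstepQ Y k ↔ ∃ i, x = Sum.inr i := by
  unfold hstepQ
  rw [Finset.mem_map]
  constructor
  · rintro ⟨i, _, hi⟩
    exact ⟨i, hi.symm⟩
  · rintro ⟨i, hi⟩
    exact ⟨i, Finset.mem_univ _, hi.symm⟩

private lemma hstep_perm {k : ℕ} (σ : Perm (Y ⊕ Fin k)) (h : ∀ x, x ∉ hstepQ Y k → σ x = x) :
    ∃ b : Perm (Fin k), σ = Perm.sumCongr 1 b := by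
  have h' : ∀ y : Y, σ (Sum.inl y) = Sum.inl y := by
    intro y
    apply h
    rw [hstep_mem]
    rintro ⟨i, hi⟩
    exact Sum.inl_ne_inr hi
  have hm : Set.MapsTo σ (Set.range (Sum.inl : Y → Y ⊕ Fin k)) (Set.range Sum.inl) := by
    rintro _ ⟨y, rfl⟩
    exact ⟨y, (h' y).symm⟩
  obtain ⟨⟨a, b⟩, hab⟩ := Perm.mem_sumCongrHom_range_of_perm_mapsTo_inl hm
  refine ⟨b, ?_⟩
  have hab' : Perm.sumCongr a b = σ := hab
  have ha : a = 1 := by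
    ext1 y
    have h1 := h' y
    rw [← hab'] at h1
    exact Sum.inl_injective h1
  rw [← hab', ha]

private lemma hstep_alt₁ {k : ℕ} (F : (Y → ℕ) → (Y → ℕ) → ℚ) (S₂ : Y ⊕ Fin k → ℕ) :
    AltOn (hstepQ Y k) (fun S₁ => jss F S₁ S₂) := by
  intro σ hσ S₁
  obtain ⟨b, rfl⟩ := hstep_perm σ hσ
  rw [hstep_sg_sumCongr, sg_one, one_mul]
  show sgnw ((S₁ ∘ Perm.sumCongr 1 b) ∘ Sum.inr) * sgnw (S₂ ∘ Sum.inr)
    * F ((S₁ ∘ Perm.sumCongr 1 b) ∘ Sum.inl) (S₂ ∘ Sum.inl) = sg b * jss F S₁ S₂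
  have h1 : (S₁ ∘ Perm.sumCongr 1 b) ∘ Sum.inr = (S₁ ∘ Sum.inr) ∘ b := rfl
  have h2 : (S₁ ∘ Perm.sumCongr 1 b) ∘ Sum.inl = (S₁ ∘ Sum.inl) := rfl
  rw [h1, h2, sgnw_comp]
  unfold jss
  ring

private lemma hstep_alt₂ {k : ℕ} (F : (Y → ℕ) → (Y → ℕ) → ℚ) (S₁ : Y ⊕ Fin k → ℕ) :
    AltOn (hstepQ Y k) (jss F S₁) := by
  intro σ hσ S₂
  obtain ⟨b, rfl⟩ := hstep_perm σ hσ
  rw [hstep_sg_sumCongr, sg_one, one_mul]
  show sgnw (S₁ ∘ Sum.inr) * sgnw ((S₂ ∘ Perm.sumCongr 1 b) ∘ Sum.inr)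
    * F (S₁ ∘ Sum.inl) ((S₂ ∘ Perm.sumCongr 1 b) ∘ Sum.inl) = sg b * jss F S₁ S₂
  have h1 : (S₂ ∘ Perm.sumCongr 1 b) ∘ Sum.inr = (S₂ ∘ Sum.inr) ∘ b := rfl
  have h2 : (S₂ ∘ Perm.sumCongr 1 b) ∘ Sum.inl = (S₂ ∘ Sum.inl) := rfl
  rw [h1, h2, sgnw_comp]
  unfold jss
  ring

theorem ys_jss {k : ℕ} {t : Y → ℕ × ℕ} {q : Fin (k + 1) → ℕ × ℕ} {nu lam : YoungDiagram}
    (ht : IsTab t nu) (hl : IsTab (Sum.elim t q) lam) (hs : HStrip (k + 1) nu lam)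
    {F : (Y → ℕ) → (Y → ℕ) → ℚ} (hF : InVV k F) (h : ∃ w₁ w₂, YS t F w₁ w₂ ≠ 0) :
    ∃ w₁ w₂, YS (Sum.elim t q) (jss (k := k + 1) F) w₁ w₂ ≠ 0 := by
  by_contra hcon
  push Not at hcon
  obtain ⟨v₁, v₂, hv⟩ := h
  have hF' := jss_inVV hF
  have hcard : (hstepQ Y (k + 1)).card = k + 1 := by
    unfold hstepQ
    rw [Finset.card_map, Finset.card_univ, Fintype.card_fin]
  have hdir := dirG (k + 1) (hstepQ Y (k + 1)) hcard (jss (k := k + 1) F)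
    (fun S₁ S₂ hne => ⟨(hF'.left S₂).cont S₁ hne, (hF'.right S₁).cont S₂ hne⟩)
    (fun S₂ => hstep_alt₁ F S₂) (fun S₁ => hstep_alt₂ F S₁)
    (colS (Sum.elim t q) ×ˢ rowS (Sum.elim t q)) (fun p => sg p.1) (fun p => p.1 * p.2)
    (by
      intro S₁ S₂
      rw [Finset.sum_product]
      exact hcon S₁ S₂)
  have h1 := hdir (Sum.elim v₁ fun i : Fin (k + 1) => (i : ℕ))
    (Sum.elim v₂ fun i : Fin (k + 1) => (i : ℕ))
  set S₁ : Y ⊕ Fin (k + 1) → ℕ := Sum.elim v₁ fun i : Fin (k + 1) => (i : ℕ) with hS₁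
  set S₂ : Y ⊕ Fin (k + 1) → ℕ := Sum.elim v₂ fun i : Fin (k + 1) => (i : ℕ) with hS₂
  let Φ : Perm (Y ⊕ Fin (k + 1)) → Perm (Y ⊕ Fin (k + 1)) → ℚ :=
    fun c r => sg c * jss (k := k + 1) F (S₁ ∘ (c * r : Perm _)) (S₂ ∘ (c * r : Perm _))
  have h2 : ∑ c ∈ colS (Sum.elim t q), ∑ r ∈ rowS (Sum.elim t q),
      (if ∀ i : Fin (k + 1), ∃ i' : Fin (k + 1), c (r (Sum.inr i)) = Sum.inr i' then Φ c r else 0)
      = 0 := by
    refine Eq.trans ?_ h1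
    rw [Finset.sum_filter, Finset.sum_product]
    refine Finset.sum_congr rfl fun c _ => Finset.sum_congr rfl fun r _ => ?_
    refine if_congr ?_ rfl rfl
    constructor
    · intro hh x hx
      obtain ⟨i, rfl⟩ := (hstep_mem x).1 hx
      exact (hstep_mem _).2 (hh i)
    · intro hh i
      exact (hstep_mem _).1 (hh (Sum.inr i) ((hstep_mem _).2 ⟨i, rfl⟩))
  rw [block ht hl Φ, colS_hstrip ht hl hs] at h2
  have h3 : ∀ c₁ : Perm Y, ∀ r₁ : Perm Y, ∀ r₂ : Perm (Fin (k + 1)),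
      Φ (Perm.sumCongr c₁ 1) (Perm.sumCongr r₁ r₂) = sg c₁ * F (v₁ ∘ c₁ ∘ r₁) (v₂ ∘ c₁ ∘ r₁) := by
    intro c₁ r₁ r₂
    have h4 : (Perm.sumCongr c₁ 1 * Perm.sumCongr r₁ r₂ : Perm (Y ⊕ Fin (k + 1)))
        = Perm.sumCongr (c₁ * r₁) r₂ := by
      rw [Perm.sumCongr_mul, one_mul]
    show sg (Perm.sumCongr c₁ 1) * jss (k := k + 1) F
      (S₁ ∘ (Perm.sumCongr c₁ 1 * Perm.sumCongr r₁ r₂ : Perm _))
      (S₂ ∘ (Perm.sumCongr c₁ 1 * Perm.sumCongr r₁ r₂ : Perm _)) = _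
    rw [h4, hstep_jss_comp, hstep_sg_sumCongr, sg_one, mul_one]
    have h5 : S₁ ∘ Sum.inr = fun i : Fin (k + 1) => (i : ℕ) := rfl
    have h6 : S₂ ∘ Sum.inr = fun i : Fin (k + 1) => (i : ℕ) := rfl
    rw [h5, h6, sgnw_id, one_mul, one_mul]
    rfl
  simp only [Finset.sum_singleton, h3, Finset.sum_const, nsmul_eq_mul] at h2
  have h7 : ((rowS q).card : ℚ) * YS t F v₁ v₂ = 0 := by
    rw [← h2]
    unfold YS
    rw [Finset.mul_sum]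
    refine Finset.sum_congr rfl fun c _ => ?_
    rw [Finset.mul_sum]
  have h8 : ((rowS q).card : ℚ) ≠ 0 := by
    rw [Nat.cast_ne_zero]
    apply Finset.card_ne_zero_of_mem (a := (1 : Perm (Fin (k + 1))))
    simp [rowS]
  rcases mul_eq_zero.1 h7 with h9 | h9
  · exact h8 h9
  · exact hv h9

theorem symW_h {k : ℕ} {nu lam : YoungDiagram} (h : SymW k nu) (hs : HStrip (k + 1) nu lam) :
    SymW (k + 1) lam := by
  obtain ⟨X, _, _, t, F, ht, hF, hsym, hne⟩ := h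
  obtain ⟨q, hq⟩ := strip_tab ht hs.le hs.card
  refine ⟨X ⊕ Fin (k + 1), inferInstance, inferInstance, Sum.elim t q, jss (k := k + 1) F, hq,
    jss_inVV hF, ?_, ys_jss ht hq hs hF hne⟩
  intro S₁ S₂
  unfold jss
  rw [hsym (S₁ ∘ Sum.inl) (S₂ ∘ Sum.inl)]
  ring

theorem altW_h {k : ℕ} {nu lam : YoungDiagram} (h : AltW k nu) (hs : HStrip (k + 1) nu lam) :
    AltW (k + 1) lam := by
  obtain ⟨X, _, _, t, F, ht, hF, hsym, hne⟩ := h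
  obtain ⟨q, hq⟩ := strip_tab ht hs.le hs.card
  refine ⟨X ⊕ Fin (k + 1), inferInstance, inferInstance, Sum.elim t q, jss (k := k + 1) F, hq,
    jss_inVV hF, ?_, ys_jss ht hq hs hF hne⟩
  intro S₁ S₂
  unfold jss
  rw [hsym (S₁ ∘ Sum.inl) (S₂ ∘ Sum.inl)]
  ring

theorem wW_h {k : ℕ} {nu lam : YoungDiagram} (h : WW k nu) (hs : HStrip (k + 1) nu lam) :
    WW (k + 1) lam := by
  obtain ⟨X, _, _, t, F, ht, hF, hz, hne⟩ := h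
  obtain ⟨q, hq⟩ := strip_tab ht hs.le hs.card
  refine ⟨X ⊕ Fin (k + 1), inferInstance, inferInstance, Sum.elim t q, jss (k := k + 1) F, hq,
    jss_inVV hF, ?_, ys_jss ht hq hs hF hne⟩
  intro S₁ S₂ hS
  unfold jss
  rw [hz (S₁ ∘ Sum.inl) (S₂ ∘ Sum.inl) (fun x => hS (Sum.inl x))]
  ring

end Sx
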