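import Mathlib
import Pool.Agent.Helper87.Saxl.Defs
import Pool.Agent.Helper87.Saxl.HStep
import Pool.Agent.Helper87.Saxl.Inv
import Pool.Agent.Helper87.Saxl.Jmap
import Pool.Agent.Helper87.Saxl.Jinj

/-!
Module BOTH of MP_2a22ca_al: if `nu` is a constituent of the `Zfree` part for `k` and `lam / nu` is
a horizontal `(k+1)`-strip, then the transpose of `lam` is a constituent of both squares for `k+1`.
-/

namespace Sx

open Finset Equiv

variable {X Y : Type} [Fintype X] [DecidableEq X] [Fintype Y] [DecidableEq Y]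

/-! ### closure properties of `InV` -/

theorem both_cnt_comp (w : X → ℕ) (g : Perm X) (j : ℕ) : cnt (w ∘ g) j = cnt w j := by
  unfold cnt
  refine Finset.card_bij (fun x _ => g x) ?_ ?_ ?_
  · intro x hx
    simpa using hx
  · intro a _ b _ h
    exact g.injective h
  · intro y hy
    refine ⟨g.symm y, ?_, by simp⟩
    simpa using hy

theorem both_cont_comp {k : ℕ} {w : X → ℕ} (g : Perm X) : Cont k (w ∘ g) ↔ Cont k w := by
  unfold Cont
  simp only [both_cnt_comp]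

theorem both_R_comp (i : ℕ) (f : (X → ℕ) → ℚ) (g : Perm X) (w : X → ℕ) :
    R i (fun w => f (w ∘ g)) w = R i f (w ∘ g) := by
  unfold R
  symm
  refine Finset.sum_bij (fun x _ => g x) ?_ ?_ ?_ ?_
  · intro x hx
    simpa using hx
  · intro a _ b _ h
    exact g.injective h
  · intro y hy
    refine ⟨g.symm y, ?_, by simp⟩
    simpa using hy
  · intro x hx
    congr 1
    funext z
    by_cases hz : z = x
    · subst hz
      simp
    · have : g z ≠ g x := fun h => hz (g.injective h)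
      simp [Function.update_of_ne, hz, this]

theorem both_R_sum {ι : Type} (s : Finset ι) (i : ℕ) (f : ι → (X → ℕ) → ℚ) (w : X → ℕ) :
    R i (fun w => ∑ a ∈ s, f a w) w = ∑ a ∈ s, R i (f a) w := by
  unfold R
  rw [Finset.sum_comm]

theorem both_R_smul (i : ℕ) (c : ℚ) (f : (X → ℕ) → ℚ) (w : X → ℕ) :
    R i (fun w => c * f w) w = c * R i f w := by
  unfold R
  rw [Finset.mul_sum]

theorem InV.both_comp {k : ℕ} {f : (X → ℕ) → ℚ} (hf : InV k f) (g : Perm X) :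
    InV k (fun w => f (w ∘ g)) :=
  ⟨fun w hw => (both_cont_comp g).1 (hf.cont _ hw), fun i w => by
    rw [both_R_comp]
    exact hf.hw _ _⟩

theorem InV.both_sum {k : ℕ} {ι : Type} (s : Finset ι) {f : ι → (X → ℕ) → ℚ}
    (hf : ∀ a ∈ s, InV k (f a)) : InV k (fun w => ∑ a ∈ s, f a w) :=
  ⟨fun w hw => by
    obtain ⟨a, ha, h⟩ := Finset.exists_ne_zero_of_sum_ne_zero hw
    exact (hf a ha).cont w h, fun i w => by
    rw [both_R_sum]
    exact Finset.sum_eq_zero fun a ha => (hf a ha).hw i w⟩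

theorem InV.both_smul {k : ℕ} {f : (X → ℕ) → ℚ} (c : ℚ) (hf : InV k f) :
    InV k (fun w => c * f w) :=
  ⟨fun w hw => hf.cont w (right_ne_zero_of_mul hw), fun i w => by
    rw [both_R_smul, hf.hw, mul_zero]⟩

theorem InV.both_add {k : ℕ} {f g : (X → ℕ) → ℚ} (hf : InV k f) (hg : InV k g) :
    InV k (fun w => f w + g w) :=
  ⟨fun w hw => by
    by_cases h : f w = 0
    · refine hg.cont w fun h2 => hw ?_
      simp only [h, h2, add_zero]
    · exact hf.cont w h, fun i w => by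
    have : R i (fun w => f w + g w) w = R i f w + R i g w := by
      unfold R
      rw [Finset.sum_add_distrib]
    rw [this, hf.hw, hg.hw, add_zero]⟩

theorem InVV.both_comp {k : ℕ} {F : (X → ℕ) → (X → ℕ) → ℚ} (hF : InVV k F) (g : Perm X) :
    InVV k (fun w₁ w₂ => F (w₁ ∘ g) (w₂ ∘ g)) :=
  ⟨fun w₂ => (hF.left (w₂ ∘ g)).both_comp g, fun w₁ => (hF.right (w₁ ∘ g)).both_comp g⟩

theorem InVV.both_sum {k : ℕ} {ι : Type} (s : Finset ι) {F : ι → (X → ℕ) → (X → ℕ) → ℚ}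
    (hF : ∀ a ∈ s, InVV k (F a)) : InVV k (fun w₁ w₂ => ∑ a ∈ s, F a w₁ w₂) :=
  ⟨fun w₂ => InV.both_sum s fun a ha => (hF a ha).left w₂,
   fun w₁ => InV.both_sum s fun a ha => (hF a ha).right w₁⟩

theorem InVV.both_smul {k : ℕ} {F : (X → ℕ) → (X → ℕ) → ℚ} (c : ℚ) (hF : InVV k F) :
    InVV k (fun w₁ w₂ => c * F w₁ w₂) :=
  ⟨fun w₂ => (hF.left w₂).both_smul c, fun w₁ => (hF.right w₁).both_smul c⟩

theorem InVV.both_add {k : ℕ} {F G : (X → ℕ) → (X → ℕ) → ℚ} (hF : InVV k F) (hG : InVV k G) :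
    InVV k (fun w₁ w₂ => F w₁ w₂ + G w₁ w₂) :=
  ⟨fun w₂ => (hF.left w₂).both_add (hG.left w₂), fun w₁ => (hF.right w₁).both_add (hG.right w₁)⟩

theorem InVV.both_swap {k : ℕ} {F : (X → ℕ) → (X → ℕ) → ℚ} (hF : InVV k F) :
    InVV k (fun w₁ w₂ => F w₂ w₁) :=
  ⟨fun w₂ => hF.right w₂, fun w₁ => hF.left w₁⟩

theorem InVV.both_YS {k : ℕ} {F : (X → ℕ) → (X → ℕ) → ℚ} (hF : InVV k F) (t : X → ℕ × ℕ) :
    InVV k (YS t F) := by
  unfold YS
  refine InVV.both_sum _ fun c _ => InVV.both_sum _ fun r _ => ?_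
  exact (hF.both_comp (c * r)).both_smul (sg c)

/-! ### the map `J` -/

theorem both_J_sum {ι : Type} (b : X → ℕ × ℕ) (s : Finset ι) (f : ι → (X → ℕ) → ℚ) (S : X → ℕ) :
    J b (fun w => ∑ a ∈ s, f a w) S = ∑ a ∈ s, J b (f a) S := by
  unfold J
  rw [Finset.sum_comm]
  refine Finset.sum_congr rfl fun σ _ => ?_
  rw [← Finset.mul_sum]
  split_ifs
  · rfl
  · simp

theorem both_J_smul (b : X → ℕ × ℕ) (c : ℚ) (f : (X → ℕ) → ℚ) (S : X → ℕ) :
    J b (fun w => c * f w) S = c * J b f S := by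
  unfold J
  rw [Finset.mul_sum]
  refine Finset.sum_congr rfl fun σ _ => ?_
  split_ifs
  · ring
  · simp

theorem both_J_zero (b : X → ℕ × ℕ) (S : X → ℕ) : J b (fun _ => 0) S = 0 := by
  unfold J
  simp

theorem both_J_of_alt {b : X → ℕ × ℕ} {Q : Finset X} {f : (X → ℕ) → ℚ} (hf : AltOn Q f) :
    InvOn Q (J b f) := by
  intro σ hσ S
  have h1 := J_act b f σ S
  have h2 : (fun w : X → ℕ => f (w ∘ σ)) = fun w => sg σ * f w := by
    funext w
    exact hf σ hσ w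
  rw [h2, both_J_smul] at h1
  exact (mul_left_cancel₀ (sg_ne_zero σ) h1).symm

/-- one Young symmetrizer term through `J`. -/
theorem both_J_comp (b : X → ℕ × ℕ) (F : (X → ℕ) → (X → ℕ) → ℚ) (g : Perm X) (w S : X → ℕ) :
    J b (fun w₂ => F (w ∘ g) (w₂ ∘ g)) S = sg g * J b (F (w ∘ g)) (S ∘ g) :=
  J_act b (F (w ∘ g)) g S

theorem InVV.both_J2 {k m : ℕ} {b : X → ℕ × ℕ} (hb : IsTab b (stair k))
    {F : (X → ℕ) → (X → ℕ) → ℚ} (hF : ∀ w₂, InV k (fun w₁ => F w₁ w₂)) (hm : m = k) :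
    InVV m (J2 b F) := by
  subst hm
  refine ⟨fun w₂ => ?_, fun w₁ => J_inV hb (F w₁)⟩
  unfold J2 J
  refine InV.both_sum _ fun σ _ => InV.both_smul _ ?_
  by_cases h : w₂ = fun x => (b (σ x)).2
  · simp only [h, if_true]
    exact hF _
  · simp only [h, if_false]
    exact ⟨fun w hw => absurd rfl hw, fun i w => by unfold R; simp⟩

/-! ### words of the right content -/

theorem both_exists_perm {k : ℕ} {b : X → ℕ × ℕ} (hb : IsTab b (stair k)) {w : X → ℕ}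
    (hw : Cont k w) : ∃ σ : Perm X, w = fun x => (b (σ x)).1 := by
  have hc : ∀ j, Fintype.card {x // w x = j} = Fintype.card {x // (b x).1 = j} := by
    intro j
    rw [Fintype.card_subtype, Fintype.card_subtype]
    have h1 := hw j
    unfold cnt at h1
    rw [h1]
    have h2 : (univ.filter fun x => (b x).1 = j).card = (range (k - j)).card := by
      refine Finset.card_bij (fun x _ => (b x).2) ?_ ?_ ?_
      · intro x hx
        have h3 : b x ∈ stair k := (hb.mem _).2 ⟨x, rfl⟩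
        rw [mem_stair] at h3
        simp only [Finset.mem_filter, Finset.mem_univ, true_and] at hx
        rw [Finset.mem_range]
        omega
      · intro x hx y hy h
        simp only [Finset.mem_filter, Finset.mem_univ, true_and] at hx hy
        exact hb.inj (Prod.ext (hx.trans hy.symm) h)
      · intro i hi
        rw [Finset.mem_range] at hi
        have h3 : (j, i) ∈ stair k := by
          rw [mem_stair]
          show j + i < k
          omega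
        obtain ⟨x, hx⟩ := (hb.mem _).1 h3
        exact ⟨x, by simp [hx], by simp [hx]⟩
    rw [h2, Finset.card_range]
  let e : ∀ j, {x // w x = j} ≃ {x // (b x).1 = j} := fun j => Fintype.equivOfCardEq (hc j)
  let σ : Perm X := (Equiv.sigmaFiberEquiv w).symm.trans
    ((Equiv.sigmaCongrRight e).trans (Equiv.sigmaFiberEquiv (fun x => (b x).1)))
  refine ⟨σ, ?_⟩
  funext x
  exact ((e (w x)) ⟨x, rfl⟩).2.symm

/-! ### the pairing -/

/-- pairing of functions of two words. -/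
def bpr (b : X → ℕ × ℕ) (A B : (X → ℕ) → (X → ℕ) → ℚ) : ℚ :=
  ∑ σ : Perm X, ∑ π : Perm X,
    A (fun x => (b (σ x)).1) (fun x => (b (π x)).1) *
      B (fun x => (b (σ x)).1) (fun x => (b (π x)).1)

theorem bpr_comm (b : X → ℕ × ℕ) (A B : (X → ℕ) → (X → ℕ) → ℚ) : bpr b A B = bpr b B A := by
  unfold bpr
  refine Finset.sum_congr rfl fun σ _ => Finset.sum_congr rfl fun π _ => mul_comm _ _

theorem bpr_inv2 (b : X → ℕ × ℕ) (A B : (X → ℕ) → (X → ℕ) → ℚ) (g h : Perm X) :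
    bpr b (fun w₁ w₂ => A (w₁ ∘ g) (w₂ ∘ h)) (fun w₁ w₂ => B (w₁ ∘ g) (w₂ ∘ h)) = bpr b A B := by
  unfold bpr
  refine Fintype.sum_equiv (Equiv.mulRight g) _ _ fun σ => ?_
  refine Fintype.sum_equiv (Equiv.mulRight h) _ _ fun π => ?_
  rfl

theorem bpr_sum_left {ι : Type} (b : X → ℕ × ℕ) (s : Finset ι)
    (A : ι → (X → ℕ) → (X → ℕ) → ℚ) (B : (X → ℕ) → (X → ℕ) → ℚ) :
    bpr b (fun w₁ w₂ => ∑ a ∈ s, A a w₁ w₂) B = ∑ a ∈ s, bpr b (A a) B := by
  unfold bpr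
  simp only [Finset.sum_mul]
  rw [Finset.sum_comm (s := s)]
  refine Finset.sum_congr rfl fun σ _ => ?_
  rw [Finset.sum_comm (s := s)]

theorem bpr_smul_left (b : X → ℕ × ℕ) (c : ℚ) (A B : (X → ℕ) → (X → ℕ) → ℚ) :
    bpr b (fun w₁ w₂ => c * A w₁ w₂) B = c * bpr b A B := by
  unfold bpr
  simp only [Finset.mul_sum, mul_assoc]

theorem bpr_add_left (b : X → ℕ × ℕ) (A A' B : (X → ℕ) → (X → ℕ) → ℚ) :
    bpr b (fun w₁ w₂ => A w₁ w₂ + A' w₁ w₂) B = bpr b A B + bpr b A' B := by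
  unfold bpr
  simp only [add_mul, Finset.sum_add_distrib]

theorem bpr_swap (b : X → ℕ × ℕ) (A B : (X → ℕ) → (X → ℕ) → ℚ) :
    bpr b (fun w₁ w₂ => A w₂ w₁) (fun w₁ w₂ => B w₂ w₁) = bpr b A B := by
  unfold bpr
  rw [Finset.sum_comm]

theorem bpr_pos {k : ℕ} {b : X → ℕ × ℕ} (hb : IsTab b (stair k)) {A : (X → ℕ) → (X → ℕ) → ℚ}
    {v₁ v₂ : X → ℕ} (h₁ : Cont k v₁) (h₂ : Cont k v₂) (hA : A v₁ v₂ ≠ 0) : 0 < bpr b A A := by
  obtain ⟨σ, hσ⟩ := both_exists_perm hb h₁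
  obtain ⟨π, hπ⟩ := both_exists_perm hb h₂
  unfold bpr
  refine Finset.sum_pos' (fun σ _ => Finset.sum_nonneg fun π _ => mul_self_nonneg _)
    ⟨σ, Finset.mem_univ _, ?_⟩
  refine Finset.sum_pos' (fun π _ => mul_self_nonneg _) ⟨π, Finset.mem_univ _, ?_⟩
  rw [← hσ, ← hπ]
  exact mul_self_pos.2 hA

/-- averaging operator. -/
def bop (a : Perm X → ℚ) (I : Finset (Perm X)) (F : (X → ℕ) → (X → ℕ) → ℚ) (w₁ w₂ : X → ℕ) : ℚ :=
  ∑ g ∈ I, a g * F (w₁ ∘ g) (w₂ ∘ g)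

theorem bpr_bop (b : X → ℕ × ℕ) (a : Perm X → ℚ) (I : Finset (Perm X))
    (ha : ∀ g, a g⁻¹ = a g) (hI : ∀ g ∈ I, g⁻¹ ∈ I) (F G : (X → ℕ) → (X → ℕ) → ℚ) :
    bpr b (bop a I F) G = bpr b F (bop a I G) := by
  have h1 : bpr b (bop a I F) G
      = ∑ g ∈ I, a g * bpr b (fun w₁ w₂ => F (w₁ ∘ g) (w₂ ∘ g)) G := by
    unfold bop
    rw [bpr_sum_left]
    refine Finset.sum_congr rfl fun g _ => ?_
    rw [bpr_smul_left]
  have h2 : bpr b F (bop a I G)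
      = ∑ g ∈ I, a g * bpr b F (fun w₁ w₂ => G (w₁ ∘ g) (w₂ ∘ g)) := by
    rw [bpr_comm]
    unfold bop
    rw [bpr_sum_left]
    refine Finset.sum_congr rfl fun g _ => ?_
    rw [bpr_smul_left, bpr_comm]
  rw [h1, h2]
  refine Finset.sum_bij' (fun g _ => g⁻¹) (fun g _ => g⁻¹) hI hI (fun g _ => inv_inv g)
    (fun g _ => inv_inv g) fun g _ => ?_
  rw [ha g]
  congr 1
  rw [← bpr_inv2 b F (fun w₁ w₂ => G (w₁ ∘ ⇑g⁻¹) (w₂ ∘ ⇑g⁻¹)) g g]
  congr 1
  funext w₁ w₂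
  have : ∀ w : X → ℕ, (w ∘ ⇑g) ∘ ⇑g⁻¹ = w := by
    intro w
    funext x
    simp
  simp only [this]

theorem bop_bop_one (I : Finset (Perm X)) (hI : ∀ g ∈ I, g⁻¹ ∈ I)
    (hm : ∀ g ∈ I, ∀ h ∈ I, g * h ∈ I) (F : (X → ℕ) → (X → ℕ) → ℚ) (w₁ w₂ : X → ℕ) :
    bop (fun _ => 1) I (bop (fun _ => 1) I F) w₁ w₂ = (I.card : ℚ) * bop (fun _ => 1) I F w₁ w₂ := by
  have h1 : ∀ g ∈ I, bop (fun _ => 1) I F (w₁ ∘ g) (w₂ ∘ g) = bop (fun _ => 1) I F w₁ w₂ := by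
    intro g hg
    unfold bop
    refine Finset.sum_bij' (fun h _ => g * h) (fun h _ => g⁻¹ * h) (fun h hh => hm g hg h hh)
      (fun h hh => hm _ (hI g hg) h hh) (fun h _ => by group) (fun h _ => by group) fun h _ => rfl
  have h2 : bop (fun _ => 1) I (bop (fun _ => 1) I F) w₁ w₂
      = ∑ g ∈ I, (1 : ℚ) * bop (fun _ => 1) I F (w₁ ∘ g) (w₂ ∘ g) := rfl
  rw [h2, Finset.sum_congr rfl fun g hg => by rw [h1 g hg], Finset.sum_const, nsmul_eq_mul, one_mul]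

theorem both_rowS_inv {t : X → ℕ × ℕ} : ∀ g ∈ rowS t, g⁻¹ ∈ rowS t := by
  intro g hg
  simp only [rowS, Finset.mem_filter, Finset.mem_univ, true_and] at hg ⊢
  intro x
  have := hg (g⁻¹ x)
  simpa using this.symm

theorem both_rowS_mul {t : X → ℕ × ℕ} : ∀ g ∈ rowS t, ∀ h ∈ rowS t, g * h ∈ rowS t := by
  intro g hg h hh
  simp only [rowS, Finset.mem_filter, Finset.mem_univ, true_and] at hg hh ⊢
  intro x
  rw [Perm.mul_apply, hg, hh]

theorem both_colS_inv {t : X → ℕ × ℕ} : ∀ g ∈ colS t, g⁻¹ ∈ colS t := by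
  intro g hg
  simp only [colS, Finset.mem_filter, Finset.mem_univ, true_and] at hg ⊢
  intro x
  have := hg (g⁻¹ x)
  simpa using this.symm

theorem both_YS_eq (t : X → ℕ × ℕ) (F : (X → ℕ) → (X → ℕ) → ℚ) :
    YS t F = bop sg (colS t) (bop (fun _ => 1) (rowS t) F) := by
  funext w₁ w₂
  unfold YS bop
  refine Finset.sum_congr rfl fun c _ => ?_
  rw [Finset.mul_sum]
  refine Finset.sum_congr rfl fun r _ => ?_
  rw [one_mul]
  rfl

/-- positivity: if `B' A' z` has nonzero norm, then `A' B' A' z` is not zero. -/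
theorem both_pos (b : X → ℕ × ℕ) (t : X → ℕ × ℕ) (z : (X → ℕ) → (X → ℕ) → ℚ)
    (h : bpr b (bop (fun _ => 1) (rowS t) (bop sg (colS t) z))
      (bop (fun _ => 1) (rowS t) (bop sg (colS t) z)) ≠ 0) :
    ∃ w₁ w₂, YS t (bop sg (colS t) z) w₁ w₂ ≠ 0 := by
  by_contra hne
  push Not at hne
  apply h
  set F := bop sg (colS t) z with hF
  have h1 : bpr b (YS t F) z = 0 := by
    unfold bpr
    simp [hne]
  rw [both_YS_eq, bpr_bop b sg (colS t) (fun g => sg_inv g) both_colS_inv, ← hF] at h1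
  rw [← bpr_bop b (fun _ => 1) (rowS t) (fun _ => rfl) both_rowS_inv]
  have h2 : bop (fun _ => 1) (rowS t) (bop (fun _ => 1) (rowS t) F)
      = fun w₁ w₂ => ((rowS t).card : ℚ) * bop (fun _ => 1) (rowS t) F w₁ w₂ := by
    funext w₁ w₂
    exact bop_bop_one (rowS t) both_rowS_inv both_rowS_mul F w₁ w₂
  rw [h2, bpr_smul_left, h1, mul_zero]

/-! ### the orthogonality lemma -/

theorem both_zero_set {m : ℕ} {Q : Finset X} (hQ : Q.card = m) {w : X → ℕ} (hw : Cont m w)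
    (h : ∀ x ∈ Q, w x = 0) (x : X) : w x = 0 ↔ x ∈ Q := by
  have h1 : Q ⊆ univ.filter (fun x => w x = 0) := by
    intro y hy
    simpa using h y hy
  have h2 : (univ.filter (fun x => w x = 0)).card ≤ Q.card := by
    have := hw 0
    unfold cnt at this
    omega
  have h3 := Finset.eq_of_subset_of_card_le h1 h2
  constructor
  · intro hx
    rw [h3]
    simpa using hx
  · exact h x

theorem both_ortho {m : ℕ} (b : X → ℕ × ℕ) {Q : Finset X} (hQ : Q.card = m)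
    {A B : (X → ℕ) → (X → ℕ) → ℚ} (hA₁ : ∀ w₂, InvOn Q (fun w₁ => A w₁ w₂))
    (hA₂ : ∀ w₁, InvOn Q (A w₁)) (hB : InVV m B) (hZ : Zfree B) : bpr b A B = 0 := by
  classical
  set I : Finset (Perm X) := univ.filter (fun σ : Perm X => ∀ x, x ∉ Q → σ x = x) with hI
  have hIm : ∀ σ, σ ∈ I ↔ ∀ x, x ∉ Q → σ x = x := by
    intro σ
    simp [hI]
  set Bb : (X → ℕ) → (X → ℕ) → ℚ := fun w₁ w₂ => ∑ ρ ∈ I, ∑ τ ∈ I, B (w₁ ∘ ρ) (w₂ ∘ τ) with hBb
  have hmul : ∀ g ∈ I, ∀ h ∈ I, g * h ∈ I := by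
    intro g hg h hh
    rw [hIm] at hg hh ⊢
    intro x hx
    rw [Perm.mul_apply, hh x hx, hg x hx]
  have hinv : ∀ g ∈ I, g⁻¹ ∈ I := by
    intro g hg
    rw [hIm] at hg ⊢
    intro x hx
    rw [Perm.inv_eq_iff_eq]
    exact (hg x hx).symm
  have hzero : ∀ w₁ w₂, (∀ x ∈ Q, w₁ x = 0) → (∀ x ∈ Q, w₂ x = 0) → Bb w₁ w₂ = 0 := by
    intro w₁ w₂ h₁ h₂
    refine Finset.sum_eq_zero fun ρ hρ => Finset.sum_eq_zero fun τ hτ => ?_
    by_contra hne
    have hmem : ∀ σ ∈ I, ∀ x ∈ Q, σ x ∈ Q := by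
      intro σ hσ x hx
      by_contra hnx
      have h3 := (hIm _).1 (hinv σ hσ) (σ x) hnx
      simp only [Perm.inv_def, Equiv.symm_apply_apply] at h3
      rw [← h3] at hnx
      exact hnx hx
    have c₁ : Cont m (w₁ ∘ ρ) := (hB.left (w₂ ∘ τ)).cont _ hne
    have c₂ : Cont m (w₂ ∘ τ) := (hB.right (w₁ ∘ ρ)).cont _ hne
    have z₁ := both_zero_set hQ c₁ (fun x hx => h₁ _ (hmem ρ hρ x hx))
    have z₂ := both_zero_set hQ c₂ (fun x hx => h₂ _ (hmem τ hτ x hx))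
    exact hne (hZ _ _ fun x => (z₁ x).trans (z₂ x).symm)
  have hBbl : ∀ w₂, ∀ i w, R i (fun w₁ => Bb w₁ w₂) w = 0 := by
    intro w₂ i w
    have : InV m (fun w₁ => Bb w₁ w₂) :=
      InV.both_sum _ fun ρ _ => InV.both_sum _ fun τ _ => (hB.left (w₂ ∘ τ)).both_comp ρ
    exact this.hw i w
  have hBbr : ∀ w₁, ∀ i w, R i (Bb w₁) w = 0 := by
    intro w₁ i w
    have : InV m (fun w₂ => Bb w₁ w₂) :=
      InV.both_sum _ fun ρ _ => InV.both_sum _ fun τ _ => (hB.right (w₁ ∘ ρ)).both_comp τ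
    exact this.hw i w
  have hIl : ∀ w₂, InvOn Q (fun w₁ => Bb w₁ w₂) := by
    intro w₂ σ hσ w₁
    have hσI : σ ∈ I := (hIm σ).2 hσ
    exact Finset.sum_bij' (fun h _ => σ * h) (fun h _ => σ⁻¹ * h) (fun h hh => hmul σ hσI h hh)
      (fun h hh => hmul _ (hinv σ hσI) h hh) (fun h _ => by group) (fun h _ => by group)
      fun h _ => rfl
  have hIr : ∀ w₁, InvOn Q (Bb w₁) := by
    intro w₁ σ hσ w₂
    have hσI : σ ∈ I := (hIm σ).2 hσ
    refine Finset.sum_congr rfl fun ρ _ => ?_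
    exact Finset.sum_bij' (fun h _ => σ * h) (fun h _ => σ⁻¹ * h) (fun h hh => hmul σ hσI h hh)
      (fun h hh => hmul _ (hinv σ hσI) h hh) (fun h _ => by group) (fun h _ => by group)
      fun h _ => rfl
  have hstep : ∀ w₂, (∀ x ∈ Q, w₂ x = 0) → ∀ w₁, Bb w₁ w₂ = 0 := by
    intro w₂ h₂
    exact inv0 (hBbl w₂) Q (hIl w₂) fun w₁ h₁ => hzero w₁ w₂ h₁ h₂
  have hall : ∀ w₁ w₂, Bb w₁ w₂ = 0 := by
    intro w₁
    exact inv0 (hBbr w₁) Q (hIr w₁) fun w₂ h₂ => hstep w₂ h₂ w₁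
  have h1 : bpr b Bb A = 0 := by
    unfold bpr
    simp [hall]
  have h2 : bpr b Bb A = ∑ ρ ∈ I, ∑ τ ∈ I, bpr b B A := by
    rw [hBb, bpr_sum_left]
    refine Finset.sum_congr rfl fun ρ hρ => ?_
    rw [bpr_sum_left]
    refine Finset.sum_congr rfl fun τ hτ => ?_
    rw [← bpr_inv2 b B A ρ τ]
    congr 1
    funext w₁ w₂
    rw [hA₂ (w₁ ∘ ρ) τ ((hIm τ).1 hτ) w₂]
    exact (hA₁ w₂ ρ ((hIm ρ).1 hρ) w₁).symm
  rw [h1, Finset.sum_const, Finset.sum_const, nsmul_eq_mul, nsmul_eq_mul] at h2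
  have hpos : (I.card : ℚ) ≠ 0 := by
    have : (1 : Perm X) ∈ I := by
      rw [hIm]
      intro x _
      rfl
    exact_mod_cast (Finset.card_pos.2 ⟨_, this⟩).ne'
  rw [bpr_comm]
  have h3 := h2.symm
  rcases mul_eq_zero.1 h3 with h | h
  · exact absurd h hpos
  · rcases mul_eq_zero.1 h with h | h
    · exact absurd h hpos
    · exact h

/-! ### alternation of `jss` on the added positions -/

theorem both_split {k : ℕ} (σ : Perm (Y ⊕ Fin k)) (hσ : ∀ y : Y, σ (Sum.inl y) = Sum.inl y) :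
    ∃ σ' : Perm (Fin k), σ = Perm.sumCongr 1 σ' := by
  have h1 : Set.MapsTo σ (Set.range (Sum.inl : Y → Y ⊕ Fin k)) (Set.range Sum.inl) := by
    rintro _ ⟨y, rfl⟩
    rw [hσ]
    exact ⟨y, rfl⟩
  obtain ⟨⟨σ₁, σ₂⟩, h2⟩ := Perm.mem_sumCongrHom_range_of_perm_mapsTo_inl h1
  refine ⟨σ₂, ?_⟩
  have h3 : σ₁ = 1 := by
    ext y
    have h4 := hσ y
    rw [← h2] at h4
    simpa using h4
  rw [← h2, h3]
  rfl

theorem both_sg_sumCongr {k : ℕ} (σ' : Perm (Fin k)) :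
    sg (Perm.sumCongr (1 : Perm Y) σ') = sg σ' := by
  unfold sg
  rw [Perm.sign_sumCongr, map_one, one_mul]

/-- the added positions. -/
def both_Q (Y : Type) [Fintype Y] [DecidableEq Y] (k : ℕ) : Finset (Y ⊕ Fin k) :=
  (univ : Finset (Fin k)).map ⟨Sum.inr, Sum.inr_injective⟩

theorem both_Q_card {k : ℕ} : (both_Q Y k).card = k := by
  unfold both_Q
  rw [Finset.card_map, Finset.card_univ, Fintype.card_fin]

theorem both_Q_inl {k : ℕ} (y : Y) : (Sum.inl y : Y ⊕ Fin k) ∉ both_Q Y k := by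
  unfold both_Q
  simp

theorem both_jss_left {k : ℕ} (F : (Y → ℕ) → (Y → ℕ) → ℚ) (w₂ : Y ⊕ Fin k → ℕ) :
    AltOn (both_Q Y k) (fun w₁ => jss F w₁ w₂) := by
  intro σ hσ w₁
  obtain ⟨σ', rfl⟩ := both_split σ fun y => hσ _ (both_Q_inl y)
  rw [both_sg_sumCongr]
  show jss F (w₁ ∘ _) w₂ = sg σ' * jss F w₁ w₂
  unfold jss
  have h1 : (w₁ ∘ ⇑(Perm.sumCongr (1 : Perm Y) σ')) ∘ Sum.inr = (w₁ ∘ Sum.inr) ∘ σ' := by
    funext i
    simp
  have h2 : (w₁ ∘ ⇑(Perm.sumCongr (1 : Perm Y) σ')) ∘ Sum.inl = w₁ ∘ Sum.inl := by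
    funext i
    simp
  rw [h1, h2, sgnw_comp]
  ring

theorem both_jss_right {k : ℕ} (F : (Y → ℕ) → (Y → ℕ) → ℚ) (w₁ : Y ⊕ Fin k → ℕ) :
    AltOn (both_Q Y k) (jss F w₁) := by
  intro σ hσ w₂
  obtain ⟨σ', rfl⟩ := both_split σ fun y => hσ _ (both_Q_inl y)
  rw [both_sg_sumCongr]
  unfold jss
  have h1 : (w₂ ∘ ⇑(Perm.sumCongr (1 : Perm Y) σ')) ∘ Sum.inr = (w₂ ∘ Sum.inr) ∘ σ' := by
    funext i
    simp
  have h2 : (w₂ ∘ ⇑(Perm.sumCongr (1 : Perm Y) σ')) ∘ Sum.inl = w₂ ∘ Sum.inl := by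
    funext i
    simp
  rw [h1, h2, sgnw_comp]
  ring

theorem both_zfree_jss {k : ℕ} {F : (Y → ℕ) → (Y → ℕ) → ℚ} (hF : Zfree F) :
    Zfree (jss (k := k) F) := by
  intro w₁ w₂ h
  unfold jss
  have h1 : F (w₁ ∘ Sum.inl) (w₂ ∘ Sum.inl) = 0 := hF _ _ fun y => h (Sum.inl y)
  rw [h1, mul_zero]

theorem both_zfree_YS {F : (X → ℕ) → (X → ℕ) → ℚ} (hF : Zfree F) (t : X → ℕ × ℕ) :
    Zfree (YS t F) := by
  intro w₁ w₂ h
  unfold YS
  refine Finset.sum_eq_zero fun c _ => Finset.sum_eq_zero fun r _ => ?_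
  have h1 : F (w₁ ∘ c ∘ r) (w₂ ∘ c ∘ r) = 0 := hF _ _ fun x => h (c (r x))
  rw [h1, mul_zero]

/-! ### transposed tableaux -/

theorem both_tab_swap {t : X → ℕ × ℕ} {mu : YoungDiagram} (ht : IsTab t mu) :
    IsTab (fun x => (t x).swap) mu.transpose := by
  refine ⟨fun x y h => ht.inj (Prod.swap_injective h), fun p => ?_⟩
  rw [YoungDiagram.mem_transpose, ht.mem]
  constructor
  · rintro ⟨x, hx⟩
    exact ⟨x, by rw [hx, Prod.swap_swap]⟩
  · rintro ⟨x, hx⟩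
    exact ⟨x, by rw [← hx, Prod.swap_swap]⟩

theorem both_rowS_swap (t : X → ℕ × ℕ) : rowS (fun x => (t x).swap) = colS t := rfl

theorem both_colS_swap (t : X → ℕ × ℕ) : colS (fun x => (t x).swap) = rowS t := rfl

/-! ### the main step -/

/-- the core: from the Young symmetrized `Zfree` function `YS t W`, with `W` alternating on a set
`Q` of `k` positions in each variable, get both signs. -/
theorem both_core {k : ℕ} {t b : X → ℕ × ℕ} (hb : IsTab b (stair k)) {Q : Finset X}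
    (hQ : Q.card = k) {W : (X → ℕ) → (X → ℕ) → ℚ} (hW : InVV k W) (hZ : Zfree W)
    (ha₁ : ∀ w₂, AltOn Q (fun w₁ => W w₁ w₂)) (ha₂ : ∀ w₁, AltOn Q (W w₁))
    (hne : ∃ w₁ w₂, YS t W w₁ w₂ ≠ 0) (s : ℚ) (hs : s * s = 1) :
    ∃ F : (X → ℕ) → (X → ℕ) → ℚ, InVV k F ∧ (∀ w₁ w₂, F w₂ w₁ = s * F w₁ w₂) ∧
      ∃ w₁ w₂, YS (fun x => (t x).swap) F w₁ w₂ ≠ 0 := by
  classical
  set t' : X → ℕ × ℕ := fun x => (t x).swap with ht'
  have hrow : rowS t' = colS t := rfl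
  have hcol : colS t' = rowS t := rfl
  set eta := YS t W with heta
  have hetaV : InVV k eta := hW.both_YS t
  have hetaZ : Zfree eta := both_zfree_YS hZ t
  set xi := J2 b eta with hxi
  set z0 := J2 b W with hz0
  have hxiV : InVV k xi := InVV.both_J2 hb hetaV.left rfl
  have hz0V : InVV k z0 := InVV.both_J2 hb hW.left rfl
  -- `xi` in terms of `z0`
  have hxi1 : ∀ w₁ w₂, xi w₁ w₂
      = ∑ c ∈ colS t, ∑ r ∈ rowS t, sg r * z0 (w₁ ∘ c ∘ r) (w₂ ∘ c ∘ r) := by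
    intro w₁ w₂
    have h1 : xi w₁ w₂ = J b (fun v => ∑ c ∈ colS t, ∑ r ∈ rowS t,
        sg c * W (w₁ ∘ c ∘ r) (v ∘ c ∘ r)) w₂ := rfl
    rw [h1, both_J_sum]
    refine Finset.sum_congr rfl fun c _ => ?_
    rw [both_J_sum]
    refine Finset.sum_congr rfl fun r _ => ?_
    rw [both_J_smul]
    have h2 := both_J_comp b W (c * r) w₁ w₂
    have h3 : J b (fun v => W (w₁ ∘ c ∘ r) (v ∘ c ∘ r)) w₂
        = sg (c * r) * z0 (w₁ ∘ c ∘ r) (w₂ ∘ c ∘ r) := h2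
    rw [h3, sg_mul]
    have h4 := sg_mul_self c
    linear_combination (sg r * z0 (w₁ ∘ c ∘ r) (w₂ ∘ c ∘ r)) * h4
  -- `J1 xi` in terms of `J1 z0`
  have hy1 : ∀ w₁ w₂, J1 b xi w₁ w₂
      = ∑ c ∈ colS t, ∑ r ∈ rowS t, sg c * J1 b z0 (w₁ ∘ c ∘ r) (w₂ ∘ c ∘ r) := by
    intro w₁ w₂
    have h1 : J1 b xi w₁ w₂ = J b (fun v => ∑ c ∈ colS t, ∑ r ∈ rowS t,
        sg r * z0 (v ∘ c ∘ r) (w₂ ∘ c ∘ r)) w₁ := by
      show J b (fun v => xi v w₂) w₁ = _
      simp only [hxi1]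
    rw [h1, both_J_sum]
    refine Finset.sum_congr rfl fun c _ => ?_
    rw [both_J_sum]
    refine Finset.sum_congr rfl fun r _ => ?_
    rw [both_J_smul]
    have h3 : J b (fun v => z0 (v ∘ c ∘ r) (w₂ ∘ c ∘ r)) w₁
        = sg (c * r) * J1 b z0 (w₁ ∘ c ∘ r) (w₂ ∘ c ∘ r) :=
      J_act b (fun v => z0 v (w₂ ∘ c ∘ r)) (c * r) w₁
    rw [h3, sg_mul]
    have h4 := sg_mul_self r
    linear_combination (sg c * J1 b z0 (w₁ ∘ c ∘ r) (w₂ ∘ c ∘ r)) * h4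
  -- invariance of `J1 z0` on `Q` in each variable
  have hz0₁ : ∀ w₂, AltOn Q (fun w₁ => z0 w₁ w₂) := by
    intro w₂ σ hσ w₁
    show J b (W (w₁ ∘ σ)) w₂ = sg σ * J b (W w₁) w₂
    rw [← both_J_smul]
    congr 1
    funext v
    exact ha₁ v σ hσ w₁
  have hz0₂ : ∀ w₁, InvOn Q (z0 w₁) := fun w₁ => both_J_of_alt (ha₂ w₁)
  have hy₁ : ∀ w₂, InvOn Q (fun w₁ => J1 b z0 w₁ w₂) := fun w₂ => both_J_of_alt (hz0₁ w₂)
  have hy₂ : ∀ w₁, InvOn Q (J1 b z0 w₁) := by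
    intro w₁ σ hσ w₂
    show J b (fun v => z0 v (w₂ ∘ σ)) w₁ = J b (fun v => z0 v w₂) w₁
    congr 1
    funext v
    exact hz0₂ v σ hσ w₂
  -- orthogonality
  have horth : bpr b xi (fun w₁ w₂ => xi w₂ w₁) = 0 := by
    obtain ⟨ε, hε, hadj⟩ := J_adj hb
    have h1 : bpr b xi (fun w₁ w₂ => xi w₂ w₁) = ε * bpr b (J1 b xi) (fun w₁ w₂ => eta w₂ w₁) := by
      unfold bpr
      rw [Finset.sum_comm]
      conv_rhs => rw [Finset.sum_comm]
      rw [Finset.mul_sum]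
      refine Finset.sum_congr rfl fun π _ => ?_
      have h2 := hadj (eta (fun x => (b (π x)).1)) (fun v => xi v (fun x => (b (π x)).1))
      calc _ = ∑ σ : Perm X, J b (eta (fun x => (b (π x)).1)) (fun x => (b (σ x)).1) *
              xi (fun x => (b (σ x)).1) (fun x => (b (π x)).1) :=
            Finset.sum_congr rfl fun σ _ => mul_comm _ _
        _ = _ := h2
        _ = _ := by
            congr 1
            exact Finset.sum_congr rfl fun σ _ => mul_comm _ _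
    rw [h1]
    have h3 : bpr b (J1 b xi) (fun w₁ w₂ => eta w₂ w₁) = 0 := by
      have h4 : J1 b xi = fun w₁ w₂ => ∑ c ∈ colS t, ∑ r ∈ rowS t,
          sg c * J1 b z0 (w₁ ∘ c ∘ r) (w₂ ∘ c ∘ r) := by
        funext w₁ w₂
        exact hy1 w₁ w₂
      rw [h4, bpr_sum_left]
      refine Finset.sum_eq_zero fun c _ => ?_
      rw [bpr_sum_left]
      refine Finset.sum_eq_zero fun r _ => ?_
      rw [bpr_smul_left]
      have h5 : bpr b (fun w₁ w₂ => J1 b z0 (w₁ ∘ c ∘ r) (w₂ ∘ c ∘ r))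
          (fun w₁ w₂ => eta w₂ w₁) = 0 := by
        set g : Perm X := c * r with hg
        have hQ' : (Q.map g.toEmbedding).card = k := by rw [Finset.card_map, hQ]
        have hconj : ∀ σ : Perm X, (∀ x, x ∉ Q.map g.toEmbedding → σ x = x) →
            ∀ x, x ∉ Q → (g⁻¹ * σ * g) x = x := by
          intro σ hσ x hx
          have h6 : g x ∉ Q.map g.toEmbedding := by
            simpa using hx
          have h7 := hσ _ h6
          show g⁻¹ (σ (g x)) = x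
          rw [h7]
          simp
        have hcomp : ∀ (σ : Perm X) (w : X → ℕ),
            (w ∘ σ) ∘ c ∘ r = (w ∘ c ∘ r) ∘ ⇑(g⁻¹ * σ * g) := by
          intro σ w
          funext x
          show w (σ (g x)) = w (g (g⁻¹ (σ (g x))))
          simp
        refine both_ortho b hQ' ?_ ?_ hetaV.both_swap ?_
        · intro w₂ σ hσ w₁
          show J1 b z0 ((w₁ ∘ σ) ∘ c ∘ r) (w₂ ∘ c ∘ r) = J1 b z0 (w₁ ∘ c ∘ r) (w₂ ∘ c ∘ r)
          rw [hcomp]
          exact hy₁ _ _ (hconj σ hσ) _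
        · intro w₁ σ hσ w₂
          show J1 b z0 (w₁ ∘ c ∘ r) ((w₂ ∘ σ) ∘ c ∘ r) = J1 b z0 (w₁ ∘ c ∘ r) (w₂ ∘ c ∘ r)
          rw [hcomp]
          exact hy₂ _ _ (hconj σ hσ) _
        · intro w₁ w₂ h
          exact hetaZ _ _ fun x => (h x).symm
      rw [h5, mul_zero]
    rw [h3, mul_zero]
  -- `xi` has positive norm
  have hxipos : 0 < bpr b xi xi := by
    obtain ⟨v₁, v₂, hv⟩ := hne
    have h1 : ∃ S, J b (eta v₁) S ≠ 0 := by
      by_contra hcon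
      push Not at hcon
      exact hv (J_inj hb (hetaV.right v₁) hcon v₂)
    obtain ⟨S, hS⟩ := h1
    have hS' : xi v₁ S ≠ 0 := hS
    exact bpr_pos hb ((hxiV.left S).cont v₁ hS') ((hxiV.right v₁).cont S hS') hS'
  -- the function `z`
  set z : (X → ℕ) → (X → ℕ) → ℚ := fun w₁ w₂ => z0 w₁ w₂ + s * z0 w₂ w₁ with hz
  have hzV : InVV k z := hz0V.both_add (hz0V.both_swap.both_smul s)
  have hzs : ∀ w₁ w₂, z w₂ w₁ = s * z w₁ w₂ := by
    intro w₁ w₂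
    show z0 w₂ w₁ + s * z0 w₁ w₂ = s * (z0 w₁ w₂ + s * z0 w₂ w₁)
    linear_combination (-z0 w₂ w₁) * hs
  have hzeta : bop (fun _ => 1) (rowS t') (bop sg (colS t') z)
      = fun w₁ w₂ => xi w₁ w₂ + s * xi w₂ w₁ := by
    funext w₁ w₂
    rw [hxi1, hxi1, Finset.mul_sum, ← Finset.sum_add_distrib]
    show ∑ c ∈ colS t, 1 * (∑ r ∈ rowS t, sg r * z ((w₁ ∘ c) ∘ r) ((w₂ ∘ c) ∘ r)) = _
    refine Finset.sum_congr rfl fun c _ => ?_
    rw [one_mul, Finset.mul_sum, ← Finset.sum_add_distrib]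
    refine Finset.sum_congr rfl fun r _ => ?_
    show sg r * (z0 (w₁ ∘ c ∘ r) (w₂ ∘ c ∘ r) + s * z0 (w₂ ∘ c ∘ r) (w₁ ∘ c ∘ r)) = _
    ring
  have hnorm : bpr b (fun w₁ w₂ => xi w₁ w₂ + s * xi w₂ w₁)
      (fun w₁ w₂ => xi w₁ w₂ + s * xi w₂ w₁) = 2 * bpr b xi xi := by
    rw [bpr_add_left, bpr_smul_left, bpr_comm b xi, bpr_comm b (fun w₁ w₂ => xi w₂ w₁),
      bpr_add_left, bpr_add_left, bpr_smul_left, bpr_smul_left,
      bpr_swap b xi xi, bpr_comm b (fun w₁ w₂ => xi w₂ w₁) xi, horth]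
    linear_combination (bpr b xi xi) * hs
  refine ⟨bop sg (colS t') z, ?_, ?_, ?_⟩
  · unfold bop
    exact InVV.both_sum _ fun g _ => (hzV.both_comp g).both_smul (sg g)
  · intro w₁ w₂
    unfold bop
    rw [Finset.mul_sum]
    refine Finset.sum_congr rfl fun g _ => ?_
    rw [hzs]
    ring
  · refine both_pos b t' z ?_
    rw [hzeta, hnorm]
    exact (mul_pos two_pos hxipos).ne'

theorem both {k : ℕ} {nu lam : YoungDiagram} (h : WW k nu) (hs : HStrip (k + 1) nu lam) :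
    SymW (k + 1) lam.transpose ∧ AltW (k + 1) lam.transpose := by
  obtain ⟨Y, _, _, t, u, ht, hu, hZ, hne⟩ := h
  obtain ⟨q, hT⟩ := strip_tab ht hs.le hs.card
  have hne' := ys_jss ht hT hs hu hne
  have hWV : InVV (k + 1) (jss (k := k + 1) u) := jss_inVV hu
  obtain ⟨v₁, v₂, hv⟩ := hne'
  have hcont : ∃ w : Y ⊕ Fin (k + 1) → ℕ, Cont (k + 1) w := by
    have h1 := (hWV.both_YS (Sum.elim t q)).left v₂
    exact ⟨v₁, h1.cont v₁ hv⟩
  obtain ⟨w, hw⟩ := hcont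
  obtain ⟨b, hb⟩ := exists_tab_stair hw
  have hcore := both_core hb both_Q_card hWV (both_zfree_jss hZ) (both_jss_left u)
    (both_jss_right u) ⟨v₁, v₂, hv⟩
  constructor
  · obtain ⟨F, hF, hs, hne⟩ := hcore 1 (by norm_num)
    exact ⟨_, inferInstance, inferInstance, _, F, both_tab_swap hT, hF,
      fun w₁ w₂ => by rw [hs, one_mul], hne⟩
  · obtain ⟨F, hF, hs, hne⟩ := hcore (-1) (by norm_num)
    exact ⟨_, inferInstance, inferInstance, _, F, both_tab_swap hT, hF,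
      fun w₁ w₂ => by rw [hs, neg_one_mul], hne⟩

end Sx
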