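import Mathlib
import Pool.Agent.Helper87.Saxl.Defs

/-!
# DOM: partitions dominating the staircase are in the family `Sym`
-/

namespace Sx

open Finset Equiv

lemma dom_card (μ : YoungDiagram) {N : ℕ} (hN : μ.colLen 0 ≤ N) :
    μ.card = ∑ i ∈ range N, μ.rowLen i := by
  have h1 : ∀ p ∈ μ.cells, p.1 ∈ range N := by
    rintro ⟨i, j⟩ hp
    rw [mem_range]
    have h2 : (i, 0) ∈ μ := μ.up_left_mem le_rfl (Nat.zero_le j) hp
    rw [YoungDiagram.mem_iff_lt_colLen] at h2
    exact h2.trans_le hN
  have h2 : μ.card = μ.cells.card := rfl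
  rw [h2, Finset.card_eq_sum_card_fiberwise h1]
  apply Finset.sum_congr rfl
  intro i _
  rw [YoungDiagram.rowLen_eq_card]
  rfl

lemma dom_rowLen_eq {μ : YoungDiagram} {i a : ℕ} (h : ∀ j, (i, j) ∈ μ ↔ j < a) :
    μ.rowLen i = a := by
  apply le_antisymm
  · by_contra hcon
    push Not at hcon
    rw [← YoungDiagram.mem_iff_lt_rowLen, h] at hcon
    exact lt_irrefl _ hcon
  · by_contra hcon
    push Not at hcon
    have h1 := (h _).2 hcon
    rw [YoungDiagram.mem_iff_lt_rowLen] at h1
    exact lt_irrefl _ h1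

lemma dom_stair_rowLen (k i : ℕ) : (stair k).rowLen i = k - i := by
  apply dom_rowLen_eq
  intro j
  rw [mem_stair]
  simp only
  omega

lemma dom_rowLen_zero (μ : YoungDiagram) {i : ℕ} (h : μ.colLen 0 ≤ i) : μ.rowLen i = 0 := by
  apply dom_rowLen_eq
  intro j
  constructor
  · intro hm
    have h2 : (i, 0) ∈ μ := μ.up_left_mem le_rfl (Nat.zero_le j) hm
    rw [YoungDiagram.mem_iff_lt_colLen] at h2
    omega
  · intro hj
    omega

/-- the subdiagram with given row lengths -/
def domSub (μ : YoungDiagram) (g : ℕ → ℕ) (hg : Antitone g) : YoungDiagram where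
  cells := μ.cells.filter fun p => p.2 < g p.1
  isLowerSet := by
    rintro ⟨a, b⟩ ⟨c, d⟩ h hab
    simp only [Finset.coe_filter, Set.mem_ofPred_eq] at hab ⊢
    obtain ⟨h1, h2⟩ := Prod.mk_le_mk.1 h
    refine ⟨μ.up_left_mem h1 h2 hab.1, ?_⟩
    exact h2.trans_lt (hab.2.trans_le (hg h1))

lemma dom_sub_rowLen {μ : YoungDiagram} {g : ℕ → ℕ} (hg : Antitone g)
    (hle : ∀ i, g i ≤ μ.rowLen i) (i : ℕ) : (domSub μ g hg).rowLen i = g i := by
  apply dom_rowLen_eq
  intro j
  have h : (i, j) ∈ domSub μ g hg ↔ (i, j) ∈ μ.cells ∧ j < g i := by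
    show (i, j) ∈ (domSub μ g hg).cells ↔ _
    simp only [domSub, Finset.mem_filter]
  rw [h]
  constructor
  · exact fun h => h.2
  · intro hj
    refine ⟨?_, hj⟩
    show (i, j) ∈ μ
    rw [YoungDiagram.mem_iff_lt_rowLen]
    exact hj.trans_le (hle i)

lemma dom_hstrip {nu lam : YoungDiagram} {m : ℕ} (h1 : ∀ i, nu.rowLen i ≤ lam.rowLen i)
    (h2 : ∀ i, lam.rowLen (i + 1) ≤ nu.rowLen i) (hc : lam.card = nu.card + m) :
    HStrip m nu lam := by
  refine ⟨?_, hc, ?_⟩
  · intro p hp
    obtain ⟨i, j⟩ := p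
    have hp' : (i, j) ∈ nu := hp
    show (i, j) ∈ lam
    rw [YoungDiagram.mem_iff_lt_rowLen] at hp' ⊢
    exact hp'.trans_le (h1 i)
  · intro j
    by_contra hcon
    push Not at hcon
    rw [← YoungDiagram.mem_iff_lt_colLen, YoungDiagram.mem_iff_lt_rowLen] at hcon
    have h3 := hcon.trans_le (h2 _)
    rw [← YoungDiagram.mem_iff_lt_rowLen, YoungDiagram.mem_iff_lt_colLen] at h3
    exact lt_irrefl _ h3

lemma dom_step {k : ℕ} {lam : YoungDiagram} (hc : lam.card = (stair (k + 1)).card)
    (hd : ∀ m, ∑ i ∈ range m, (stair (k + 1)).rowLen i ≤ ∑ i ∈ range m, lam.rowLen i) :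
    ∃ nu : YoungDiagram, HStrip (k + 1) nu lam ∧ nu.card = (stair k).card ∧
      ∀ m, ∑ i ∈ range m, (stair k).rowLen i ≤ ∑ i ∈ range m, nu.rowLen i := by
  classical
  -- the row
  have h0 : k + 1 ≤ lam.rowLen 0 := by
    have := hd 1
    simpa [dom_stair_rowLen] using this
  have hex : ∃ r, lam.rowLen r < k + 1 := ⟨lam.colLen 0, by rw [dom_rowLen_zero _ le_rfl]; omega⟩
  obtain ⟨i, hi1, hi2⟩ : ∃ i, k + 1 ≤ lam.rowLen i ∧ lam.rowLen (i + 1) < k + 1 := by
    obtain ⟨r, hr1, hr2⟩ : ∃ r, lam.rowLen r < k + 1 ∧ ∀ r' < r, ¬ lam.rowLen r' < k + 1 :=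
      ⟨Nat.find hex, Nat.find_spec hex, fun r' h => Nat.find_min hex h⟩
    rcases r with _ | r
    · omega
    · exact ⟨r, by have := hr2 r (Nat.lt_succ_self r); omega, hr1⟩
  have hanti : Antitone lam.rowLen := fun a b h => lam.rowLen_anti a b h
  set g : ℕ → ℕ := fun r => if r < i then lam.rowLen r else
    if r = i then lam.rowLen i - (k + 1 - lam.rowLen (i + 1)) else lam.rowLen (r + 1) with hg
  have hgi : g i = lam.rowLen i - (k + 1 - lam.rowLen (i + 1)) := by simp [hg]
  have hglt : ∀ r, r < i → g r = lam.rowLen r := by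
    intro r hr
    simp [hg, hr]
  have hggt : ∀ r, i < r → g r = lam.rowLen (r + 1) := by
    intro r hr
    have h1 : ¬ r < i := by omega
    have h2 : ¬ r = i := by omega
    simp [hg, h1, h2]
  have hle : ∀ r, g r ≤ lam.rowLen r := by
    intro r
    rcases lt_trichotomy r i with h | h | h
    · rw [hglt r h]
    · subst h; rw [hgi]; omega
    · rw [hggt r h]
      exact hanti (Nat.le_succ r)
  have hge : ∀ r, lam.rowLen (r + 1) ≤ g r := by
    intro r
    rcases lt_trichotomy r i with h | h | h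
    · rw [hglt r h]
      exact hanti (Nat.le_succ r)
    · subst h
      rw [hgi]
      have := hanti (Nat.le_succ r)
      omega
    · rw [hggt r h]
  have hgan : Antitone g := by
    apply antitone_nat_of_succ_le
    intro r
    exact (hle (r + 1)).trans (hge r)
  have hrl := dom_sub_rowLen (μ := lam) hgan hle
  -- partial sums
  have hlow : ∀ m ≤ i, ∑ r ∈ range m, g r = ∑ r ∈ range m, lam.rowLen r := by
    intro m hm
    apply Finset.sum_congr rfl
    intro r hr
    rw [mem_range] at hr
    exact hglt r (by omega)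
  have hhigh : ∀ m, i < m → ∑ r ∈ range m, g r + (k + 1) = ∑ r ∈ range (m + 1), lam.rowLen r := by
    intro m hm
    induction m, hm using Nat.le_induction with
    | base =>
      rw [Nat.succ_eq_add_one, Finset.sum_range_succ, hlow i le_rfl, hgi, Finset.sum_range_succ,
        Finset.sum_range_succ]
      omega
    | succ m hm ih =>
      rw [Finset.sum_range_succ, Finset.sum_range_succ _ (m + 1), ← ih, hggt m (by omega)]
      ring
  -- the cards
  have hcard : lam.card = (domSub lam g hgan).card + (k + 1) := by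
    have h1 := dom_card lam (N := max (max (lam.colLen 0) ((domSub lam g hgan).colLen 0)) (i + 1) + 1)
      (by omega)
    have h2 := dom_card (domSub lam g hgan)
      (N := max (max (lam.colLen 0) ((domSub lam g hgan).colLen 0)) (i + 1)) (by omega)
    rw [h1, h2, Finset.sum_congr rfl (fun r _ => hrl r)]
    exact (hhigh _ (by omega)).symm
  have hstair : ∀ m, ∑ r ∈ range (m + 1), (stair (k + 1)).rowLen r =
      ∑ r ∈ range m, (stair k).rowLen r + (k + 1) := by
    intro m
    rw [Finset.sum_range_succ']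
    congr 1
    · apply Finset.sum_congr rfl
      intro r _
      rw [dom_stair_rowLen, dom_stair_rowLen]
      omega
    · rw [dom_stair_rowLen]
      omega
  have hstairc : (stair (k + 1)).card = (stair k).card + (k + 1) := by
    have h1 := dom_card (stair (k + 1))
      (N := max ((stair (k + 1)).colLen 0) ((stair k).colLen 0) + 1) (by omega)
    have h2 := dom_card (stair k)
      (N := max ((stair (k + 1)).colLen 0) ((stair k).colLen 0)) (by omega)
    rw [h1, h2, hstair]
  refine ⟨domSub lam g hgan, dom_hstrip ?_ ?_ hcard, by omega, ?_⟩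
  · intro r
    rw [hrl]
    exact hle r
  · intro r
    rw [hrl]
    exact hge r
  · intro m
    rw [Finset.sum_congr rfl (fun r _ => hrl r)]
    by_cases hm : m ≤ i
    · rw [hlow m hm]
      refine le_trans ?_ (hd m)
      apply Finset.sum_le_sum
      intro r _
      rw [dom_stair_rowLen, dom_stair_rowLen]
      omega
    · push Not at hm
      have h1 := hhigh m hm
      have h2 := hd (m + 1)
      rw [hstair] at h2
      have h3 : ∑ r ∈ range m, (stair k).rowLen r ≤ ∑ r ∈ range m, g r := by omega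
      exact h3

theorem sym_of_dominates {k : ℕ} (hk : 0 < k) {lam : YoungDiagram} (hc : lam.card = (stair k).card)
    (hd : ∀ m, ∑ i ∈ range m, (stair k).rowLen i ≤ ∑ i ∈ range m, lam.rowLen i) :
    Sym k lam := by
  induction k, hk using Nat.le_induction generalizing lam with
  | base =>
    apply Sym.base
    rw [hc]
    decide
  | succ k hk ih =>
    obtain ⟨nu, h1, h2, h3⟩ := dom_step hc hd
    exact Sym.horiz k nu lam (ih h2 h3) h1

end Sx
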