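import Mathlib
import Pool.Agent.Helper87.Saxl.Defs
import Pool.Agent.Helper87.Saxl.DirG
import Pool.Agent.Helper87.Saxl.Js
import Pool.Agent.Helper87.Saxl.Block
import Pool.Agent.Helper87.Saxl.Strip
import Pool.Agent.Helper87.Saxl.Inv
import Pool.Agent.Helper87.Saxl.Jmap
import Pool.Agent.Helper87.Saxl.Jinj

/-!
The vertical strip step for the `Zfree` witnesses (module VSTEP).
-/

namespace Sx

open Finset Equiv

namespace VStepAux

variable {X Y : Type} [Fintype X] [DecidableEq X] [Fintype Y] [DecidableEq Y]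

/-! ### closure properties of `InV` -/

lemma R_sum {ι : Type} (s : Finset ι) (i : ℕ) (f : ι → (X → ℕ) → ℚ) (w : X → ℕ) :
    R i (fun w => ∑ j ∈ s, f j w) w = ∑ j ∈ s, R i (f j) w := by
  unfold R
  rw [Finset.sum_comm]

lemma R_smul (i : ℕ) (c : ℚ) (f : (X → ℕ) → ℚ) (w : X → ℕ) :
    R i (fun w => c * f w) w = c * R i f w := by
  unfold R
  rw [Finset.mul_sum]

lemma inV_smul {k : ℕ} {f : (X → ℕ) → ℚ} (hf : InV k f) (c : ℚ) : InV k (fun w => c * f w) where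
  cont w h := hf.cont w (fun h0 => h (by simp [h0]))
  hw i w := by rw [R_smul, hf.hw, mul_zero]

lemma inV_sum {ι : Type} {k : ℕ} (s : Finset ι) {f : ι → (X → ℕ) → ℚ}
    (hf : ∀ j ∈ s, InV k (f j)) : InV k (fun w => ∑ j ∈ s, f j w) where
  cont w h := by
    obtain ⟨j, hj, hne⟩ := Finset.exists_ne_zero_of_sum_ne_zero h
    exact (hf j hj).cont w hne
  hw i w := by
    rw [R_sum]
    exact Finset.sum_eq_zero fun j hj => (hf j hj).hw i w

omit [DecidableEq X] in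
lemma cnt_comp (w : X → ℕ) (g : Perm X) (j : ℕ) : cnt (w ∘ g) j = cnt w j := by
  unfold cnt
  refine Finset.card_bij (fun x _ => g x) ?_ ?_ ?_
  · intro x hx
    simpa using hx
  · intro a _ b _ h
    exact g.injective h
  · intro y hy
    refine ⟨g.symm y, ?_, by simp⟩
    simpa using hy

lemma inV_comp {k : ℕ} {f : (X → ℕ) → ℚ} (hf : InV k f) (g : Perm X) :
    InV k (fun w => f (w ∘ g)) where
  cont w h j := by
    have := hf.cont _ h j
    rwa [cnt_comp] at this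
  hw i w := by
    rw [← hf.hw i (w ∘ g)]
    unfold R
    refine Finset.sum_bij (fun x _ => g.symm x) ?_ ?_ ?_ ?_
    · intro x hx
      simpa using hx
    · intro a _ b _ h
      exact g.symm.injective h
    · intro y hy
      refine ⟨g y, ?_, by simp⟩
      simpa using hy
    · intro x _
      show f (Function.update w x (i + 1) ∘ g) = _
      rw [Function.update_comp_equiv]

/-! ### linearity of `J` -/

lemma J_eq (b : X → ℕ × ℕ) (f : (X → ℕ) → ℚ) (S : X → ℕ) :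
    J b f S = ∑ σ : Perm X, (sg σ * (if S = (fun x => (b (σ x)).2) then 1 else 0)) *
      f (fun x => (b (σ x)).1) := by
  unfold J
  refine Finset.sum_congr rfl fun σ _ => ?_
  split_ifs <;> simp

lemma J_sum {ι : Type} (b : X → ℕ × ℕ) (s : Finset ι) (f : ι → (X → ℕ) → ℚ) (S : X → ℕ) :
    J b (fun w => ∑ j ∈ s, f j w) S = ∑ j ∈ s, J b (f j) S := by
  simp only [J_eq, Finset.mul_sum]
  rw [Finset.sum_comm]

lemma J_smul (b : X → ℕ × ℕ) (c : ℚ) (f : (X → ℕ) → ℚ) (S : X → ℕ) :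
    J b (fun w => c * f w) S = c * J b f S := by
  simp only [J_eq, Finset.mul_sum]
  refine Finset.sum_congr rfl fun σ _ => ?_
  ring

lemma J_act' (b : X → ℕ × ℕ) (f : (X → ℕ) → ℚ) (g : Perm X) (S : X → ℕ) :
    J b f (S ∘ g) = sg g * J b (fun w => f (w ∘ g)) S := by
  rw [J_act, ← mul_assoc, sg_mul_self, one_mul]

lemma J2_inVV {k : ℕ} {b : X → ℕ × ℕ} (hb : IsTab b (stair k))
    {F : (X → ℕ) → (X → ℕ) → ℚ} (hF : ∀ w₂, InV k (fun w₁ => F w₁ w₂)) : InVV k (J2 b F) where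
  left w₂ := by
    have h : (fun w₁ => J2 b F w₁ w₂) = fun w₁ => ∑ σ ∈ (univ : Finset (Perm X)),
        (sg σ * (if w₂ = (fun x => (b (σ x)).2) then 1 else 0)) *
          F w₁ (fun x => (b (σ x)).1) := by
      funext w₁
      exact J_eq b (F w₁) w₂
    rw [h]
    exact inV_sum _ fun σ _ => inV_smul (hF _) _
  right w₁ := J_inV hb (F w₁)

/-! ### the map `jt` -/

/-- the composition `J ∘ j^s ∘ J`. -/
def jt {k : ℕ} (bX : Y ⊕ Fin (k + 1) → ℕ × ℕ) (bY : Y → ℕ × ℕ) (f : (Y → ℕ) → ℚ) :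
    (Y ⊕ Fin (k + 1) → ℕ) → ℚ := J bX (js (k := k + 1) (J bY f))

section jt

variable {k : ℕ} (bX : Y ⊕ Fin (k + 1) → ℕ × ℕ) (bY : Y → ℕ × ℕ)

lemma v_eq (u : (Y → ℕ) → (Y → ℕ) → ℚ) (w₁ w₂ : Y ⊕ Fin (k + 1) → ℕ) :
    J2 bX (jss (k := k + 1) (J2 bY u)) w₁ w₂ =
      sgnw (w₁ ∘ Sum.inr) * jt bX bY (u (w₁ ∘ Sum.inl)) w₂ := by
  unfold jt
  rw [← J_smul]
  unfold J2 jss js
  congr 1
  funext S
  ring

lemma jt_sum {ι : Type} (s : Finset ι) (f : ι → (Y → ℕ) → ℚ) (w : Y ⊕ Fin (k + 1) → ℕ) :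
    jt bX bY (fun w => ∑ j ∈ s, f j w) w = ∑ j ∈ s, jt bX bY (f j) w := by
  unfold jt
  rw [← J_sum]
  congr 1
  funext S
  unfold js
  rw [J_sum, Finset.mul_sum]

lemma jt_smul (c : ℚ) (f : (Y → ℕ) → ℚ) (w : Y ⊕ Fin (k + 1) → ℕ) :
    jt bX bY (fun w => c * f w) w = c * jt bX bY f w := by
  unfold jt
  rw [← J_smul]
  congr 1
  funext S
  unfold js
  rw [J_smul]
  ring

omit [Fintype Y] [DecidableEq Y] in
lemma comp_inl {Z : Type} (w : Y ⊕ Z → ℕ) (g : Perm Y) (c : Perm Z) :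
    (w ∘ (Perm.sumCongr g c)) ∘ Sum.inl = (w ∘ Sum.inl) ∘ g := by
  funext y
  simp

omit [Fintype Y] [DecidableEq Y] in
lemma comp_inr {Z : Type} (w : Y ⊕ Z → ℕ) (g : Perm Y) (c : Perm Z) :
    (w ∘ (Perm.sumCongr g c)) ∘ Sum.inr = (w ∘ Sum.inr) ∘ c := by
  funext y
  simp

lemma sg_sumCongr {Z : Type} [Fintype Z] [DecidableEq Z] (g : Perm Y) (c : Perm Z) :
    sg (Perm.sumCongr g c) = sg g * sg c := by
  unfold sg
  rw [Perm.sign_sumCongr]
  simp

lemma jt_inl (f : (Y → ℕ) → ℚ) (g : Perm Y) (w : Y ⊕ Fin (k + 1) → ℕ) :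
    jt bX bY f (w ∘ (Perm.sumCongr g (1 : Perm (Fin (k + 1))))) =
      jt bX bY (fun w => f (w ∘ g)) w := by
  unfold jt
  rw [J_act', sg_sumCongr, sg_one, mul_one]
  have h : (fun w' : Y ⊕ Fin (k + 1) → ℕ => js (k := k + 1) (J bY f)
      (w' ∘ (Perm.sumCongr g (1 : Perm (Fin (k + 1)))))) =
      fun w' => sg g * js (k := k + 1) (J bY (fun w => f (w ∘ g))) w' := by
    funext w'
    unfold js
    rw [comp_inl, comp_inr, J_act']
    simp only [Perm.coe_one, Function.comp_id]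
    ring
  rw [h, J_smul, ← mul_assoc, sg_mul_self, one_mul]

lemma jt_inr (f : (Y → ℕ) → ℚ) (c : Perm (Fin (k + 1))) (w : Y ⊕ Fin (k + 1) → ℕ) :
    jt bX bY f (w ∘ (Perm.sumCongr (1 : Perm Y) c)) = jt bX bY f w := by
  unfold jt
  rw [J_act', sg_sumCongr, sg_one, one_mul]
  have h : (fun w' : Y ⊕ Fin (k + 1) → ℕ => js (k := k + 1) (J bY f)
      (w' ∘ (Perm.sumCongr (1 : Perm Y) c))) =
      fun w' => sg c * js (k := k + 1) (J bY f) w' := by
    funext w'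
    unfold js
    rw [comp_inl, comp_inr, sgnw_comp]
    simp only [Perm.coe_one, Function.comp_id]
    ring
  rw [h, J_smul, ← mul_assoc, sg_mul_self, one_mul]

end jt

omit [DecidableEq Y] in
/-- a permutation fixing the left summand comes from the right one. -/
lemma exists_of_fix {Z : Type} [Fintype Z] [DecidableEq Z] (σ : Perm (Y ⊕ Z))
    (h : ∀ y, σ (Sum.inl y) = Sum.inl y) : ∃ c : Perm Z, σ = Perm.sumCongr 1 c := by
  have h1 : Set.MapsTo σ (Set.range (Sum.inl : Y → Y ⊕ Z)) (Set.range Sum.inl) := by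
    rintro _ ⟨y, rfl⟩
    exact ⟨y, (h y).symm⟩
  obtain ⟨⟨a, c⟩, hac⟩ := Perm.mem_sumCongrHom_range_of_perm_mapsTo_inl h1
  have ha : a = 1 := by
    ext y
    have := h y
    rw [← hac] at this
    simpa using this
  subst ha
  exact ⟨c, hac.symm⟩

/-! ### part (b): `Zfree` -/

lemma zfree_v {k : ℕ} (bX : Y ⊕ Fin (k + 1) → ℕ × ℕ) (bY : Y → ℕ × ℕ)
    {u : (Y → ℕ) → (Y → ℕ) → ℚ} (hu : InVV k u) (hz : Zfree u) :
    Zfree (J2 bX (jss (k := k + 1) (J2 bY u))) := by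
  classical
  intro w₁ w₂ hw
  rw [v_eq]
  by_cases hne : ∀ y, u (w₁ ∘ Sum.inl) y = 0
  · have h0 : u (w₁ ∘ Sum.inl) = fun w => (0 : ℚ) * 0 := by
      funext w
      rw [hne w]
      simp
    rw [h0, jt_smul bX bY 0 (fun _ => 0)]
    simp
  push Not at hne
  obtain ⟨y₀, hy₀⟩ := hne
  have hcont : Cont k (w₁ ∘ Sum.inl) := (hu.left y₀).cont _ hy₀
  set f := u (w₁ ∘ Sum.inl) with hf
  have hfV : InV k f := hu.right _
  set Z : Finset Y := univ.filter (fun y => (w₁ ∘ Sum.inl) y = 0) with hZ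
  have hZc : Z.card = k := by
    have := hcont 0
    rw [Nat.sub_zero] at this
    exact this
  set P : Finset (Perm Y) := univ.filter (fun π => ∀ x, x ∉ Z → π x = x) with hP
  have hmem : ∀ π ∈ P, ∀ x, π x ∈ Z ↔ x ∈ Z := by
    intro π hπ x
    rw [hP, Finset.mem_filter] at hπ
    constructor
    · intro hx
      by_contra hnx
      rw [hπ.2 x hnx] at hx
      exact hnx hx
    · intro hx
      by_contra hnx
      have h1 := hπ.2 (π x) hnx
      have h2 : π x = x := π.injective h1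
      rw [h2] at hnx
      exact hnx hx
  -- the averaged function
  have hbar : ∀ w, (∑ π ∈ P, f (w ∘ π)) = 0 := by
    refine inv0 (f := fun w => ∑ π ∈ P, f (w ∘ π))
      (fun i w => (inV_sum P fun π _ => inV_comp hfV π).hw i w) Z ?_ ?_
    · intro σ hσ w
      refine Finset.sum_bij (fun π _ => σ * π) ?_ ?_ ?_ ?_
      · intro π hπ
        rw [hP, Finset.mem_filter] at hπ ⊢
        refine ⟨Finset.mem_univ _, fun x hx => ?_⟩
        rw [Perm.mul_apply, hπ.2 x hx, hσ x hx]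
      · intro a _ b _ h
        exact mul_left_cancel h
      · intro π hπ
        refine ⟨σ⁻¹ * π, ?_, by simp⟩
        rw [hP, Finset.mem_filter] at hπ ⊢
        refine ⟨Finset.mem_univ _, fun x hx => ?_⟩
        rw [Perm.mul_apply, hπ.2 x hx, Perm.inv_eq_iff_eq, hσ x hx]
      · intro π _
        rfl
    · intro w hw0
      refine Finset.sum_eq_zero fun π hπ => ?_
      by_contra hne
      have hc := hfV.cont _ hne
      have hc0 : (univ.filter (fun x => (w ∘ π) x = 0)).card = k := by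
        have := hc 0
        simpa [cnt] using this
      have hsub : Z ⊆ univ.filter (fun x => (w ∘ π) x = 0) := by
        intro x hx
        rw [Finset.mem_filter]
        exact ⟨Finset.mem_univ _, hw0 _ ((hmem π hπ x).2 hx)⟩
      have heq : Z = univ.filter (fun x => (w ∘ π) x = 0) :=
        Finset.eq_of_subset_of_card_le hsub (by rw [hc0, hZc])
      apply hne
      rw [hf]
      apply hz
      intro x
      have h1 : x ∈ Z ↔ x ∈ univ.filter (fun x => (w ∘ π) x = 0) := by rw [← heq]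
      rw [hZ, Finset.mem_filter, Finset.mem_filter] at h1
      simpa using h1
  have hsum : ∑ π ∈ P, jt bX bY f (w₂ ∘ (Perm.sumCongr π (1 : Perm (Fin (k + 1))))) = 0 := by
    simp only [jt_inl]
    rw [← jt_sum]
    have h0 : (fun w => ∑ π ∈ P, f (w ∘ π)) = fun _ => (0 : ℚ) * 0 := by
      funext w
      rw [hbar w]
      simp
    rw [h0, jt_smul bX bY 0 (fun _ => 0)]
    simp
  have hconst : ∀ π ∈ P, jt bX bY f (w₂ ∘ (Perm.sumCongr π (1 : Perm (Fin (k + 1))))) =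
      jt bX bY f w₂ := by
    intro π hπ
    congr 1
    funext x
    rcases x with y | i
    · simp only [Function.comp_apply, Perm.sumCongr_apply, Sum.map_inl]
      by_cases hy : y ∈ Z
      · have h1 : π y ∈ Z := (hmem π hπ y).2 hy
        have e : ∀ y ∈ Z, w₂ (Sum.inl y) = 0 := by
          intro y hy
          rw [hZ, Finset.mem_filter] at hy
          exact (hw _).1 hy.2
        rw [e _ h1, e _ hy]
      · rw [hP, Finset.mem_filter] at hπ
        rw [hπ.2 y hy]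
    · simp
  rw [Finset.sum_congr rfl hconst, Finset.sum_const, nsmul_eq_mul] at hsum
  have hPc : (P.card : ℚ) ≠ 0 := by
    have : (1 : Perm Y) ∈ P := by
      rw [hP, Finset.mem_filter]
      exact ⟨Finset.mem_univ _, fun _ _ => rfl⟩
    exact_mod_cast (Finset.card_pos.2 ⟨_, this⟩).ne'
  rcases mul_eq_zero.1 hsum with h | h
  · exact absurd h hPc
  · rw [h, mul_zero]

/-! ### part (a): the Young symmetrizer -/

lemma ys_v {k : ℕ} {t : Y → ℕ × ℕ} {q : Fin (k + 1) → ℕ × ℕ} {nu lam : YoungDiagram}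
    (ht : IsTab t nu) (hl : IsTab (Sum.elim t q) lam) (hs : VStrip (k + 1) nu lam)
    {bX : Y ⊕ Fin (k + 1) → ℕ × ℕ} {bY : Y → ℕ × ℕ} (hbX : IsTab bX (stair (k + 1)))
    (hbY : IsTab bY (stair k)) {u : (Y → ℕ) → (Y → ℕ) → ℚ} (hu : InVV k u)
    (hv : InVV (k + 1) (J2 bX (jss (k := k + 1) (J2 bY u))))
    (h0 : ∀ w₁ w₂, YS (Sum.elim t q) (J2 bX (jss (k := k + 1) (J2 bY u))) w₁ w₂ = 0) :
    ∀ w₁ w₂, YS t u w₁ w₂ = 0 := by
  classical
  set T : Y ⊕ Fin (k + 1) → ℕ × ℕ := Sum.elim t q with hT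
  set v := J2 bX (jss (k := k + 1) (J2 bY u)) with hvdef
  have hveq : ∀ w₁ w₂, v w₁ w₂ = sgnw (w₁ ∘ Sum.inr) * jt bX bY (u (w₁ ∘ Sum.inl)) w₂ :=
    fun w₁ w₂ => v_eq bX bY u w₁ w₂
  have hv1 : ∀ (c : Perm (Fin (k + 1))) w₁ w₂,
      v (w₁ ∘ (Perm.sumCongr (1 : Perm Y) c)) w₂ = sg c * v w₁ w₂ := by
    intro c w₁ w₂
    rw [hveq, hveq, comp_inl, comp_inr, sgnw_comp]
    simp only [Perm.coe_one, Function.comp_id]
    ring
  have hv2 : ∀ (c : Perm (Fin (k + 1))) w₁ w₂,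
      v w₁ (w₂ ∘ (Perm.sumCongr (1 : Perm Y) c)) = v w₁ w₂ := by
    intro c w₁ w₂
    rw [hveq, hveq, jt_inr]
  set Q : Finset (Y ⊕ Fin (k + 1)) := univ.map ⟨Sum.inr, Sum.inr_injective⟩ with hQ
  have hQmem : ∀ x, x ∈ Q ↔ ∃ i : Fin (k + 1), x = Sum.inr i := by
    intro x
    rw [hQ, Finset.mem_map]
    simp [eq_comm]
  have hQc : Q.card = k + 1 := by
    rw [hQ, Finset.card_map]
    simp
  have hfix : ∀ σ : Perm (Y ⊕ Fin (k + 1)), (∀ x, x ∉ Q → σ x = x) →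
      ∃ c : Perm (Fin (k + 1)), σ = Perm.sumCongr 1 c := by
    intro σ hσ
    apply exists_of_fix
    intro y
    apply hσ
    rw [hQmem]
    simp
  set F := J2 bX v with hF
  have hFV : InVV (k + 1) F := J2_inVV hbX hv.left
  have hcont : ∀ S₁ S₂, F S₁ S₂ ≠ 0 → Cont (k + 1) S₁ ∧ Cont (k + 1) S₂ :=
    fun S₁ S₂ h => ⟨(hFV.left S₂).cont S₁ h, (hFV.right S₁).cont S₂ h⟩
  have halt1 : ∀ S₂, AltOn Q (fun S₁ => F S₁ S₂) := by
    intro S₂ σ hσ w
    obtain ⟨c, rfl⟩ := hfix σ hσ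
    show J bX (v (w ∘ _)) S₂ = _ * J bX (v w) S₂
    rw [sg_sumCongr, sg_one, one_mul, ← J_smul]
    congr 1
    funext S
    rw [hv1]
  have halt2 : ∀ S₁, AltOn Q (F S₁) := by
    intro S₁ σ hσ w
    obtain ⟨c, rfl⟩ := hfix σ hσ
    show J bX (v S₁) (w ∘ _) = _ * J bX (v S₁) w
    rw [J_act']
    simp only [hv2]
  have hrel : ∀ S₁ S₂, ∑ i ∈ colS T ×ˢ rowS T, (sg i.1 * sg (i.1 * i.2)) *
      F (S₁ ∘ (i.1 * i.2 : Perm (Y ⊕ Fin (k + 1)))) (S₂ ∘ (i.1 * i.2 : Perm _)) = 0 := by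
    intro S₁ S₂
    have h1 : J bX (fun w => ∑ i ∈ colS T ×ˢ rowS T,
        sg i.1 * v (S₁ ∘ (i.1 * i.2 : Perm (Y ⊕ Fin (k + 1)))) (w ∘ (i.1 * i.2 : Perm _))) S₂
        = 0 := by
      have h2 : (fun w => ∑ i ∈ colS T ×ˢ rowS T,
          sg i.1 * v (S₁ ∘ (i.1 * i.2 : Perm (Y ⊕ Fin (k + 1)))) (w ∘ (i.1 * i.2 : Perm _)))
          = fun w => (0 : ℚ) * 0 := by
        funext w
        rw [mul_zero, ← h0 S₁ w, Finset.sum_product]
        rfl
      rw [h2, J_smul bX 0 (fun _ => 0)]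
      simp
    rw [J_sum] at h1
    rw [← h1]
    refine Finset.sum_congr rfl fun i _ => ?_
    rw [J_smul, J_act bX (v (S₁ ∘ (i.1 * i.2 : Perm (Y ⊕ Fin (k + 1)))))]
    show _ * J bX _ _ = _
    ring
  have hdir := dirG (k + 1) Q hQc F hcont halt1 halt2 (colS T ×ˢ rowS T)
    (fun i => sg i.1 * sg (i.1 * i.2)) (fun i => i.1 * i.2) hrel
  set A := (colS T ×ˢ rowS T).filter (fun i => ∀ x, x ∈ Q → (i.1 * i.2) x ∈ Q) with hA
  -- the function `h`
  have hh : ∀ S₁ S₂, ∑ i ∈ A, sg i.1 *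
      v (S₁ ∘ (i.1 * i.2 : Perm (Y ⊕ Fin (k + 1)))) (S₂ ∘ (i.1 * i.2 : Perm _)) = 0 := by
    intro S₁
    refine J_inj hbX (f := fun S₂ => ∑ i ∈ A, sg i.1 *
      v (S₁ ∘ (i.1 * i.2 : Perm (Y ⊕ Fin (k + 1)))) (S₂ ∘ (i.1 * i.2 : Perm _)))
      (inV_sum A fun i _ => inV_smul (inV_comp (hv.right _) _) _) ?_
    intro S₂
    rw [J_sum, ← hdir S₁ S₂]
    refine Finset.sum_congr rfl fun i _ => ?_
    rw [J_smul, J_act bX (v (S₁ ∘ (i.1 * i.2 : Perm (Y ⊕ Fin (k + 1)))))]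
    show _ = _ * J bX _ _
    ring
  have hblock : ∀ S₁ S₂ : Y ⊕ Fin (k + 1) → ℕ, ∑ c₁ ∈ colS t, ∑ _c₂ ∈ colS q, ∑ r₁ ∈ rowS t,
      sg c₁ * (sgnw (S₁ ∘ Sum.inr) * jt bX bY
        (fun w => u ((S₁ ∘ Sum.inl) ∘ (c₁ * r₁ : Perm Y)) (w ∘ (c₁ * r₁ : Perm Y))) S₂) = 0 := by
    intro S₁ S₂
    have hb := block ht hl (fun c r => sg c *
      v (S₁ ∘ (c * r : Perm (Y ⊕ Fin (k + 1)))) (S₂ ∘ (c * r : Perm _)))
    rw [rowS_vstrip ht hl hs] at hb
    simp only [Finset.sum_singleton] at hb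
    have h3 : ∀ c₁ ∈ colS t, ∀ c₂ ∈ colS q, ∀ r₁ ∈ rowS t,
        sg (Perm.sumCongr c₁ c₂) * v (S₁ ∘ (Perm.sumCongr c₁ c₂ * Perm.sumCongr r₁ 1 : Perm _))
          (S₂ ∘ (Perm.sumCongr c₁ c₂ * Perm.sumCongr r₁ 1 : Perm _)) =
        sg c₁ * (sgnw (S₁ ∘ Sum.inr) * jt bX bY
        (fun w => u ((S₁ ∘ Sum.inl) ∘ (c₁ * r₁ : Perm Y)) (w ∘ (c₁ * r₁ : Perm Y))) S₂) := by
      intro c₁ _ c₂ _ r₁ _
      have e : (Perm.sumCongr c₁ c₂ * Perm.sumCongr r₁ 1 : Perm (Y ⊕ Fin (k + 1))) =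
          Perm.sumCongr (c₁ * r₁) 1 * Perm.sumCongr 1 c₂ := by
        rw [Perm.sumCongr_mul, Perm.sumCongr_mul]
        simp
      have e1 : ∀ S : Y ⊕ Fin (k + 1) → ℕ,
          S ∘ (Perm.sumCongr c₁ c₂ * Perm.sumCongr r₁ 1 : Perm (Y ⊕ Fin (k + 1))) =
          (S ∘ (Perm.sumCongr (c₁ * r₁) 1 : Perm (Y ⊕ Fin (k + 1)))) ∘
            (Perm.sumCongr 1 c₂ : Perm (Y ⊕ Fin (k + 1))) := by
        intro S
        rw [e, Perm.coe_mul, Function.comp_assoc]
      rw [e1, e1, hv1, hv2, hveq, comp_inl, comp_inr, jt_inl, sg_sumCongr]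
      simp only [Perm.coe_one, Function.comp_id]
      have h5 := sg_mul_self c₂
      calc sg c₁ * sg c₂ * (sg c₂ * (sgnw (S₁ ∘ Sum.inr) * jt bX bY
            (fun w => u ((S₁ ∘ Sum.inl) ∘ (c₁ * r₁ : Perm Y)) (w ∘ (c₁ * r₁ : Perm Y))) S₂))
          = (sg c₂ * sg c₂) * (sg c₁ * (sgnw (S₁ ∘ Sum.inr) * jt bX bY
            (fun w => u ((S₁ ∘ Sum.inl) ∘ (c₁ * r₁ : Perm Y)) (w ∘ (c₁ * r₁ : Perm Y))) S₂)) := by
            ring
        _ = _ := by rw [h5, one_mul]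
    have h4 := Finset.sum_congr rfl fun c₁ hc₁ => Finset.sum_congr rfl fun c₂ hc₂ =>
      Finset.sum_congr rfl fun r₁ hr₁ => h3 c₁ hc₁ c₂ hc₂ r₁ hr₁
    have h5 := hh S₁ S₂
    rw [hA, Finset.sum_filter, Finset.sum_product] at h5
    rw [← h4, ← hb]
    refine Eq.trans ?_ h5
    refine Finset.sum_congr rfl fun c _ => Finset.sum_congr rfl fun r _ => ?_
    have hiff : (∀ i : Fin (k + 1), ∃ i' : Fin (k + 1), c (r (Sum.inr i)) = Sum.inr i') ↔
        ∀ x, x ∈ Q → (c * r) x ∈ Q := by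
      constructor
      · intro h x hx
        obtain ⟨i, rfl⟩ := (hQmem x).1 hx
        exact (hQmem _).2 (h i)
      · intro h i
        exact (hQmem _).1 (h (Sum.inr i) ((hQmem _).2 ⟨i, rfl⟩))
    simp only [hiff]
  -- evaluate
  intro w₁
  have hVt : InV k (YS t u w₁) := by
    unfold YS
    exact inV_sum _ fun c _ => inV_sum _ fun r _ => inV_smul (inV_comp (hu.right _) (c * r)) _
  refine J_inj hbY hVt ?_
  intro S
  have hjs : ∀ S', js (k := k + 1) (J bY (YS t u w₁)) S' = 0 := by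
    refine J_inj hbX (js_inV (J_inV hbY _)) ?_
    intro S₂
    have h6 := hblock (Sum.elim w₁ (fun i : Fin (k + 1) => (i : ℕ))) S₂
    have e1 : (Sum.elim w₁ (fun i : Fin (k + 1) => (i : ℕ))) ∘ Sum.inr =
        fun i : Fin (k + 1) => (i : ℕ) := by
      funext i
      rfl
    have e2 : (Sum.elim w₁ (fun i : Fin (k + 1) => (i : ℕ))) ∘ Sum.inl = w₁ := by
      funext i
      rfl
    rw [e1, e2, sgnw_id] at h6
    simp only [one_mul, Finset.sum_const] at h6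
    rw [← Finset.smul_sum] at h6
    have hne : (colS q).card ≠ 0 := by
      have : (1 : Perm (Fin (k + 1))) ∈ colS q := by simp [colS]
      exact (Finset.card_pos.2 ⟨_, this⟩).ne'
    have h7 := (smul_eq_zero.1 h6).resolve_left hne
    show jt bX bY (YS t u w₁) S₂ = 0
    rw [← h7]
    unfold YS
    rw [jt_sum]
    refine Finset.sum_congr rfl fun c _ => ?_
    rw [jt_sum]
    refine Finset.sum_congr rfl fun r _ => ?_
    rw [jt_smul]
    rfl
  have h8 := hjs (Sum.elim S (fun i : Fin (k + 1) => (i : ℕ)))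
  unfold js at h8
  have e1 : (Sum.elim S (fun i : Fin (k + 1) => (i : ℕ))) ∘ Sum.inr =
      fun i : Fin (k + 1) => (i : ℕ) := by
    funext i
    rfl
  have e2 : (Sum.elim S (fun i : Fin (k + 1) => (i : ℕ))) ∘ Sum.inl = S := by
    funext i
    rfl
  rw [e1, e2, sgnw_id, one_mul] at h8
  exact h8

end VStepAux

open VStepAux in
theorem wW_v {k : ℕ} {nu lam : YoungDiagram} (h : WW k nu) (hs : VStrip (k + 1) nu lam) :
    WW (k + 1) lam := by
  obtain ⟨Y, i1, i2, t, u, ht, hu, hz, w₁, w₂, hne⟩ := h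
  obtain ⟨q, hl⟩ := strip_tab ht hs.le hs.card
  -- a word of content `k` on `Y`
  have hex : ∃ w : Y → ℕ, Cont k w := by
    unfold YS at hne
    obtain ⟨c, _, hc⟩ := Finset.exists_ne_zero_of_sum_ne_zero hne
    obtain ⟨r, _, hr⟩ := Finset.exists_ne_zero_of_sum_ne_zero hc
    exact ⟨_, (hu.right _).cont _ (right_ne_zero_of_mul hr)⟩
  obtain ⟨w, hw⟩ := hex
  obtain ⟨bY, hbY⟩ := exists_tab_stair hw
  have hw' : Cont (k + 1) (Sum.elim w (fun i : Fin (k + 1) => (i : ℕ))) := by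
    intro j
    have e : cnt (Sum.elim w (fun i : Fin (k + 1) => (i : ℕ))) j =
        cnt w j + cnt (fun i : Fin (k + 1) => (i : ℕ)) j := by
      unfold cnt
      rw [← Finset.card_disjSum]
      refine congrArg Finset.card ?_
      ext x
      rcases x with y | i <;> simp
    rw [e, hw j, sgnw_cnt (k := k + 1) (fun i : Fin (k + 1) => (i : ℕ)) (by rw [sgnw_id]; simp) j]
    split_ifs <;> omega
  obtain ⟨bX, hbX⟩ := exists_tab_stair hw'
  have hJ : InVV k (J2 bY u) := J2_inVV hbY hu.left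
  have hv : InVV (k + 1) (J2 bX (jss (k := k + 1) (J2 bY u))) :=
    J2_inVV hbX (jss_inVV hJ).left
  refine ⟨Y ⊕ Fin (k + 1), inferInstance, inferInstance, Sum.elim t q,
    J2 bX (jss (k := k + 1) (J2 bY u)), hl, hv, zfree_v bX bY hu hz, ?_⟩
  by_contra hcon
  push Not at hcon
  exact hne (ys_v ht hl hs hbX hbY hu hv hcon w₁ w₂)

end Sx
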