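import Mathlib
import Pool.Agent.Helper87.Saxl.Defs
import Pool.Agent.Helper87.Saxl.Strip
import Pool.Agent.Helper87.Saxl.HStep
import Pool.Agent.Helper87.Saxl.VStep
import Pool.Agent.Helper87.Saxl.Both

namespace Sx

open Finset Equiv

/-! ### the one-cell base -/

lemma fam_tab_one {lam : YoungDiagram} (hc : lam.card = 1) :
    IsTab (fun _ : Fin 1 => ((0, 0) : ℕ × ℕ)) lam := by
  obtain ⟨p, hp⟩ := Finset.card_eq_one.1 hc
  have hpm : p ∈ lam := by
    rw [← YoungDiagram.mem_cells, hp]
    exact Finset.mem_singleton_self p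
  have h0 : ((0, 0) : ℕ × ℕ) ∈ lam := by
    have h := lam.up_left_mem (Nat.zero_le p.1) (Nat.zero_le p.2) (by simpa using hpm)
    exact h
  have hp0 : p = (0, 0) := by
    have : ((0, 0) : ℕ × ℕ) ∈ lam.cells := (YoungDiagram.mem_cells _).2 h0
    rw [hp, Finset.mem_singleton] at this
    exact this.symm
  refine ⟨fun x y _ => Subsingleton.elim x y, fun q => ?_⟩
  constructor
  · intro hq
    rw [← YoungDiagram.mem_cells, hp, Finset.mem_singleton, hp0] at hq
    exact ⟨0, hq.symm⟩
  · rintro ⟨_, h⟩
    rw [← h]
    exact h0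

/-- the witness on one position. -/
def famOne (w₁ w₂ : Fin 1 → ℕ) : ℚ := if w₁ 0 = 0 ∧ w₂ 0 = 0 then 1 else 0

lemma famOne_comm (w₁ w₂ : Fin 1 → ℕ) : famOne w₂ w₁ = famOne w₁ w₂ := by
  unfold famOne
  simp only [and_comm]

lemma famOne_inV (w₂ : Fin 1 → ℕ) : InV 1 (fun w₁ => famOne w₁ w₂) := by
  constructor
  · intro w hw j
    have h0 : w 0 = 0 := by
      by_contra h
      apply hw
      show famOne w w₂ = 0
      unfold famOne
      rw [if_neg (fun h' => h h'.1)]
    unfold cnt
    rw [Finset.univ_unique, Finset.filter_singleton]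
    have hd : w default = 0 := h0
    rw [hd]
    rcases Nat.eq_zero_or_pos j with rfl | hj
    · simp
    · rw [if_neg (by omega)]
      simp
      omega
  · intro i w
    unfold R
    refine Finset.sum_eq_zero fun x _ => ?_
    have hx : x = 0 := Subsingleton.elim _ _
    subst hx
    show famOne (Function.update w 0 (i + 1)) w₂ = 0
    unfold famOne
    rw [if_neg]
    rintro ⟨h, _⟩
    rw [Function.update_self] at h
    omega

lemma fam_symW_one {lam : YoungDiagram} (hc : lam.card = 1) : SymW 1 lam := by
  refine ⟨Fin 1, inferInstance, inferInstance, fun _ => (0, 0), famOne, fam_tab_one hc,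
    ⟨famOne_inV, fun w₁ => ?_⟩, famOne_comm, fun _ => 0, fun _ => 0, ?_⟩
  · have h : famOne w₁ = fun w => famOne w w₁ := by
      funext w
      exact famOne_comm w w₁
    rw [h]
    exact famOne_inV w₁
  · have hF : ∀ g : Perm (Fin 1), ∀ g' : Perm (Fin 1),
        famOne ((fun _ => 0) ∘ g ∘ g') ((fun _ => 0) ∘ g ∘ g') = 1 := by
      intro g g'
      unfold famOne
      simp
    unfold YS
    have h1 : ∀ s : Finset (Perm (Fin 1)), s.Nonempty → s = {1} := by
      intro s hs
      obtain ⟨a, ha⟩ := hs
      ext b
      constructor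
      · intro _
        exact Finset.mem_singleton.2 (Subsingleton.elim _ _)
      · intro _
        rw [Subsingleton.elim b a]
        exact ha
    rw [h1 (colS fun _ : Fin 1 => ((0, 0) : ℕ × ℕ)) ⟨1, by simp [colS]⟩,
      h1 (rowS fun _ : Fin 1 => ((0, 0) : ℕ × ℕ)) ⟨1, by simp [rowS]⟩]
    rw [Finset.sum_singleton, Finset.sum_singleton, hF]
    simp

/-! ### the three-cell column -/

lemma fam_tab_three {lam : YoungDiagram} (hc : lam.card = 3) (h3 : lam.colLen 0 = 3) :
    IsTab (fun x : Fin 3 => (((x : ℕ), 0) : ℕ × ℕ)) lam := by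
  have hm : ∀ i : ℕ, i < 3 → ((i, 0) : ℕ × ℕ) ∈ lam := by
    intro i hi
    rw [YoungDiagram.mem_iff_lt_colLen, h3]
    exact hi
  refine ⟨fun x y h => ?_, fun q => ?_⟩
  · have := congrArg Prod.fst h
    exact Fin.ext this
  · constructor
    · intro hq
      have hsub : (Finset.univ.image fun x : Fin 3 => (((x : ℕ), 0) : ℕ × ℕ)) ⊆ lam.cells := by
        intro p hp
        obtain ⟨x, _, rfl⟩ := Finset.mem_image.1 hp
        exact (YoungDiagram.mem_cells _).2 (hm x x.2)
      have hcard : (Finset.univ.image fun x : Fin 3 => (((x : ℕ), 0) : ℕ × ℕ)).card = 3 := by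
        rw [Finset.card_image_of_injective]
        · simp
        · intro x y h
          exact Fin.ext (congrArg Prod.fst h)
      have heq := Finset.eq_of_subset_of_card_le hsub (by
        rw [hcard]
        exact le_of_eq hc)
      have hq' : q ∈ lam.cells := (YoungDiagram.mem_cells _).2 hq
      rw [← heq] at hq'
      obtain ⟨x, _, hx⟩ := Finset.mem_image.1 hq'
      exact ⟨x, hx⟩
    · rintro ⟨x, rfl⟩
      exact hm x x.2

/-- the word with letter `1` at position `x`. -/
def famE (x : Fin 3) : Fin 3 → ℕ := fun y => if y = x then 1 else 0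

/-- the alternating coefficient. -/
def famA (x y : Fin 3) : ℚ := if y = x + 1 then 1 else if x = y + 1 then -1 else 0

/-- the witness on three positions. -/
def famT (w₁ w₂ : Fin 3 → ℕ) : ℚ :=
  ∑ x, ∑ y, famA x y * (if w₁ = famE x then 1 else 0) * (if w₂ = famE y then 1 else 0)

lemma famA_comm (x y : Fin 3) : famA y x = -famA x y := by
  revert x y
  decide +kernel

lemma famA_perm (c : Perm (Fin 3)) (x y : Fin 3) : famA (c x) (c y) = sg c * famA x y := by
  revert c x y
  decide +kernel

lemma famT_comm (w₁ w₂ : Fin 3 → ℕ) : famT w₂ w₁ = -famT w₁ w₂ := by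
  unfold famT
  rw [Finset.sum_comm, ← Finset.sum_neg_distrib]
  refine Finset.sum_congr rfl fun x _ => ?_
  rw [← Finset.sum_neg_distrib]
  refine Finset.sum_congr rfl fun y _ => ?_
  rw [famA_comm x y]
  ring

lemma famE_inj : Function.Injective famE := by
  intro x y h
  by_contra hne
  have := congrFun h x
  simp [famE, hne] at this

lemma famE_cont (x : Fin 3) : Cont 2 (famE x) := by
  intro j
  unfold cnt
  rcases j with _ | _ | j
  · revert x
    decide +kernel
  · revert x
    decide +kernel
  · have : (Finset.univ.filter fun y => famE x y = j + 1 + 1) = ∅ := by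
      refine Finset.filter_eq_empty_iff.2 fun y _ h => ?_
      unfold famE at h
      split_ifs at h
      omega
    rw [this]
    simp

lemma famT_ne {w₁ w₂ : Fin 3 → ℕ} (h : famT w₁ w₂ ≠ 0) :
    ∃ x y, w₁ = famE x ∧ w₂ = famE y ∧ famA x y ≠ 0 := by
  unfold famT at h
  obtain ⟨x, _, hx⟩ := Finset.exists_ne_zero_of_sum_ne_zero h
  obtain ⟨y, _, hy⟩ := Finset.exists_ne_zero_of_sum_ne_zero hx
  refine ⟨x, y, ?_, ?_, ?_⟩
  · by_contra hne
    exact hy (by rw [if_neg hne]; ring)
  · by_contra hne
    exact hy (by rw [if_neg hne]; ring)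
  · intro h0
    exact hy (by rw [h0]; ring)

lemma famT_val (x y : Fin 3) : famT (famE x) (famE y) = famA x y := by
  unfold famT
  rw [Finset.sum_eq_single x, Finset.sum_eq_single y]
  · simp
  · intro z _ hz
    rw [if_neg (fun h => hz (famE_inj h).symm : ¬ famE y = famE z)]
    ring
  · simp
  · intro z _ hz
    refine Finset.sum_eq_zero fun u _ => ?_
    rw [if_neg (fun h => hz (famE_inj h).symm : ¬ famE x = famE z)]
    ring
  · simp

lemma famT_inV (w₂ : Fin 3 → ℕ) : InV 2 (fun w₁ => famT w₁ w₂) := by
  constructor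
  · intro w hw
    obtain ⟨x, _, rfl, _, _⟩ := famT_ne hw
    exact famE_cont x
  · intro i w
    unfold R
    by_cases h0 : i = 0 ∧ w = fun _ => 0
    · obtain ⟨rfl, rfl⟩ := h0
      have hup : ∀ x : Fin 3, Function.update (fun _ => 0 : Fin 3 → ℕ) x (0 + 1) = famE x := by
        intro x
        funext y
        unfold famE
        by_cases hxy : y = x
        · subst hxy
          simp
        · rw [Function.update_of_ne hxy, if_neg hxy]
      have hfil : (Finset.univ.filter fun x : Fin 3 => (fun _ => 0 : Fin 3 → ℕ) x = 0)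
          = Finset.univ := by simp
      rw [hfil]
      simp only [hup]
      by_cases hw2 : ∃ y, w₂ = famE y
      · obtain ⟨y, rfl⟩ := hw2
        simp only [famT_val]
        revert y
        decide +kernel
      · refine Finset.sum_eq_zero fun x _ => ?_
        by_contra hne
        obtain ⟨_, y, _, hy, _⟩ := famT_ne hne
        exact hw2 ⟨y, hy⟩
    · refine Finset.sum_eq_zero fun x hx => ?_
      have hwx : w x = i := by simpa using hx
      by_contra hne
      obtain ⟨z, _, hz, _, _⟩ := famT_ne hne
      apply h0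
      have h1 := congrFun hz x
      rw [Function.update_self] at h1
      unfold famE at h1
      split_ifs at h1 with hxz
      · have hi : i = 0 := by omega
        refine ⟨hi, ?_⟩
        funext y
        by_cases hyx : y = x
        · rw [hyx, hwx, hi]
        · have h2 := congrFun hz y
          rw [Function.update_of_ne hyx] at h2
          unfold famE at h2
          rw [if_neg (fun h => hyx (h.trans hxz.symm))] at h2
          exact h2

lemma famT_inVV : InVV 2 famT := by
  refine ⟨famT_inV, fun w₁ => ?_⟩
  have h := famT_inV w₁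
  have heq : famT w₁ = fun w => -famT w w₁ := by
    funext w
    exact famT_comm w w₁
  rw [heq]
  constructor
  · intro w hw
    exact h.cont w (fun h' => hw (by show -famT w w₁ = 0; rw [show famT w w₁ = 0 from h']; ring))
  · intro i w
    have := h.hw i w
    unfold R at this ⊢
    rw [Finset.sum_neg_distrib, this, neg_zero]

lemma famT_zfree : Zfree famT := by
  intro w₁ w₂ h
  by_contra hne
  obtain ⟨x, y, rfl, rfl, ha⟩ := famT_ne hne
  have hxy : x = y := by
    by_contra hn
    have h1 := (h x).2
    have h2 : famE y x = 0 := by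
      unfold famE
      rw [if_neg hn]
    have h3 := h1 h2
    unfold famE at h3
    rw [if_pos rfl] at h3
    omega
  subst hxy
  have h4 := famA_comm x x
  apply ha
  linarith

lemma famT_YS : ∃ w₁ w₂, YS (fun x : Fin 3 => (((x : ℕ), 0) : ℕ × ℕ)) famT w₁ w₂ ≠ 0 := by
  refine ⟨famE 0, famE 1, ?_⟩
  have hrow : rowS (fun x : Fin 3 => (((x : ℕ), 0) : ℕ × ℕ)) = {1} := by
    ext r
    rw [Finset.mem_singleton]
    unfold rowS
    simp only [Finset.mem_filter, Finset.mem_univ, true_and]
    constructor
    · intro h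
      ext x
      simpa using h x
    · rintro rfl x
      rfl
  have hcol : colS (fun x : Fin 3 => (((x : ℕ), 0) : ℕ × ℕ)) = Finset.univ := by
    unfold colS
    simp
  unfold YS
  rw [hrow, hcol]
  simp only [Finset.sum_singleton]
  have hE : ∀ (x : Fin 3) (c : Perm (Fin 3)), famE x ∘ c ∘ ((1 : Perm (Fin 3)) : Fin 3 → Fin 3)
      = famE (c⁻¹ x) := by
    intro x c
    funext y
    unfold famE
    simp only [Function.comp_apply, Perm.coe_one, id]
    by_cases h : c y = x
    · rw [if_pos h, if_pos (by rw [← h]; simp)]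
    · rw [if_neg h, if_neg (fun h' => h (by rw [h']; simp))]
  have hterm : ∀ c : Perm (Fin 3), sg c * famT (famE 0 ∘ c ∘ ((1 : Perm (Fin 3)) : Fin 3 → Fin 3))
      (famE 1 ∘ c ∘ ((1 : Perm (Fin 3)) : Fin 3 → Fin 3)) = 1 := by
    intro c
    rw [hE, hE, famT_val, famA_perm c⁻¹ 0 1, sg_inv, ← mul_assoc, sg_mul_self]
    decide +kernel
  rw [Finset.sum_congr rfl fun c _ => hterm c]
  simp [Fintype.card_perm, Nat.factorial]

lemma fam_altW_three {lam : YoungDiagram} (hc : lam.card = 3) (h3 : lam.colLen 0 = 3) :
    AltW 2 lam :=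
  ⟨Fin 3, inferInstance, inferInstance, _, famT, fam_tab_three hc h3, famT_inVV, famT_comm,
    famT_YS⟩

lemma fam_wW_three {lam : YoungDiagram} (hc : lam.card = 3) (h3 : lam.colLen 0 = 3) :
    WW 2 lam :=
  ⟨Fin 3, inferInstance, inferInstance, _, famT, fam_tab_three hc h3, famT_inVV, famT_zfree,
    famT_YS⟩

lemma fam_card_transpose (lam : YoungDiagram) : lam.transpose.card = lam.card := by
  show (lam.transpose.cells).card = lam.cells.card
  unfold YoungDiagram.transpose
  simp

theorem wW_of_orth {k : ℕ} {lam : YoungDiagram} (h : Orth k lam) : WW k lam.transpose := by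
  induction h with
  | base lam hc hr =>
    refine fam_wW_three ?_ ?_
    · rw [fam_card_transpose, hc]
    · rw [YoungDiagram.colLen_transpose, hr]
  | horiz k nu lam _ hs ih => exact wW_v ih hs.transpose
  | vert k nu lam _ hs ih => exact wW_h ih hs.transpose

theorem symW_of_sym {k : ℕ} {lam : YoungDiagram} (h : Sym k lam) : SymW k lam := by
  induction h with
  | base lam hc => exact fam_symW_one hc
  | horiz k nu lam _ hs ih => exact symW_h ih hs
  | vert k nu lam ho hs =>
    have := (both (wW_of_orth ho) hs.transpose).1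
    rwa [YoungDiagram.transpose_transpose] at this

theorem altW_of_alt {k : ℕ} {lam : YoungDiagram} (h : Alt k lam) : AltW k lam := by
  induction h with
  | base lam hc h3 => exact fam_altW_three hc h3
  | horiz k nu lam _ hs ih => exact altW_h ih hs
  | vert k nu lam ho hs =>
    have := (both (wW_of_orth ho) hs.transpose).2
    rwa [YoungDiagram.transpose_transpose] at this

end Sx
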