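import Mathlib
import Pool.Agent.Helper87.Saxl.FinDefs

/-!
# IRR: James' submodule argument for the Specht module over `ℂ`
-/

namespace Sx

open Finset Equiv TensorProduct

lemma irr_set_sum_lt {A : Finset ℕ} (h : A ≠ range A.card) :
    ∑ i ∈ range A.card, i < ∑ a ∈ A, a := by
  classical
  have hne : (A \ range A.card).Nonempty := by
    rw [Finset.nonempty_iff_ne_empty]
    intro he
    rw [Finset.sdiff_eq_empty_iff_subset] at he
    exact h (Finset.eq_of_subset_of_card_le he (by simp))
  have hcard : (A \ range A.card).card = (range A.card \ A).card := by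
    have h1 := Finset.card_sdiff_add_card_inter A (range A.card)
    have h2 := Finset.card_sdiff_add_card_inter (range A.card) A
    rw [Finset.inter_comm] at h2
    rw [Finset.card_range] at h2
    omega
  have hne' : (range A.card \ A).Nonempty := by
    rw [← Finset.card_pos, ← hcard, Finset.card_pos]
    exact hne
  have h3 : ∑ i ∈ range A.card \ A, i < (range A.card \ A).card * A.card := by
    rw [← smul_eq_mul, ← Finset.sum_const]
    apply Finset.sum_lt_sum_of_nonempty hne'
    intro i hi
    rw [Finset.mem_sdiff, Finset.mem_range] at hi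
    exact hi.1
  have h4 : (A \ range A.card).card * A.card ≤ ∑ a ∈ A \ range A.card, a := by
    rw [← smul_eq_mul, ← Finset.sum_const]
    apply Finset.sum_le_sum
    intro i hi
    rw [Finset.mem_sdiff, Finset.mem_range] at hi
    omega
  have h5 : ∑ a ∈ A, a = ∑ a ∈ A \ range A.card, a + ∑ a ∈ A ∩ range A.card, a := by
    rw [← Finset.sum_union (Finset.disjoint_sdiff_inter _ _), Finset.sdiff_union_inter]
  have h6 : ∑ a ∈ range A.card, a = ∑ a ∈ range A.card \ A, a + ∑ a ∈ A ∩ range A.card, a := by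
    rw [Finset.inter_comm, ← Finset.sum_union (Finset.disjoint_sdiff_inter _ _),
      Finset.sdiff_union_inter]
  rw [hcard] at h4
  omega

lemma irr_set_sum_le (A : Finset ℕ) : ∑ i ∈ range A.card, i ≤ ∑ a ∈ A, a := by
  by_cases h : A = range A.card
  · rw [← h]
  · exact (irr_set_sum_lt h).le

section comb
variable {n : ℕ} {lam : YoungDiagram}

lemma irr_tab_perm {t t' : Fin n → ℕ × ℕ} (ht : IsTab t lam) (ht' : IsTab t' lam) :
    ∃ τ : Perm (Fin n), ∀ x, t' x = t (τ x) := by
  have h : ∀ x, ∃ y, t y = t' x := fun x => (ht.mem _).1 ((ht'.mem _).2 ⟨x, rfl⟩)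
  choose τ hτ using h
  have hi : Function.Injective τ := by
    intro x y hxy
    apply ht'.inj
    rw [← hτ x, ← hτ y, hxy]
  exact ⟨Equiv.ofBijective τ (Finite.injective_iff_bijective.1 hi), fun x => (hτ x).symm⟩

lemma irr_comb {t' : Fin n → ℕ × ℕ} (ht' : IsTab t' lam) {w : Fin n → ℕ} {σ : Perm (Fin n)}
    (hw : w = fun x => (t' (σ x)).1)
    (hinj : ∀ x y, (t' x).2 = (t' y).2 → w x = w y → x = y) :
    ∃ c ∈ colS t', w = fun x => (t' (c x)).1 := by
  classical
  set Cj : ℕ → Finset (Fin n) := fun j => univ.filter fun x => (t' x).2 = j with hCj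
  -- the rows of a column
  have hrow : ∀ j, (Cj j).image (fun x => (t' x).1) = range (lam.colLen j) := by
    intro j
    ext i
    simp only [hCj, mem_image, mem_filter, mem_univ, true_and, mem_range]
    rw [← YoungDiagram.mem_iff_lt_colLen, ht'.mem]
    constructor
    · rintro ⟨x, h1, h2⟩
      exact ⟨x, Prod.ext h2 h1⟩
    · rintro ⟨x, hx⟩
      exact ⟨x, by rw [hx], by rw [hx]⟩
  have hrinj : ∀ j, Set.InjOn (fun x => (t' x).1) (Cj j : Set (Fin n)) := by
    intro j x hx y hy hxy
    simp only [hCj, coe_filter, mem_univ, true_and, Set.mem_ofPred_eq] at hx hy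
    exact ht'.inj (Prod.ext hxy (hx.trans hy.symm))
  have hcard : ∀ j, (Cj j).card = lam.colLen j := by
    intro j
    rw [← Finset.card_image_of_injOn (hrinj j), hrow, card_range]
  have hwinj : ∀ j, Set.InjOn w (Cj j : Set (Fin n)) := by
    intro j x hx y hy hxy
    simp only [hCj, coe_filter, mem_univ, true_and, Set.mem_ofPred_eq] at hx hy
    exact hinj x y (hx.trans hy.symm) hxy
  have hAc : ∀ j, ((Cj j).image w).card = lam.colLen j := by
    intro j
    rw [Finset.card_image_of_injOn (hwinj j), hcard]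
  -- sums
  have hsum : ∀ g : Fin n → ℕ, ∑ x, g x = ∑ j ∈ univ.image (fun x => (t' x).2), ∑ x ∈ Cj j, g x := by
    intro g
    rw [Finset.sum_fiberwise_of_maps_to]
    intro x _
    exact mem_image_of_mem _ (mem_univ _)
  have hle : ∀ j ∈ univ.image (fun x => (t' x).2), ∑ x ∈ Cj j, (t' x).1 ≤ ∑ x ∈ Cj j, w x := by
    intro j _
    have h1 : ∑ x ∈ Cj j, w x = ∑ a ∈ (Cj j).image w, a := by
      rw [Finset.sum_image (hwinj j)]
    have h2 : ∑ x ∈ Cj j, (t' x).1 = ∑ a ∈ (Cj j).image (fun x => (t' x).1), a := by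
      rw [Finset.sum_image (hrinj j)]
    rw [h1, h2, hrow, ← hAc j]
    exact irr_set_sum_le _
  have heq : ∑ x, (t' x).1 = ∑ x, w x := by
    rw [hw]
    exact (Equiv.sum_comp σ (fun x => (t' x).1)).symm
  rw [hsum, hsum w] at heq
  have heach := (Finset.sum_eq_sum_iff_of_le hle).1 heq
  have hlt : ∀ x, (w x, (t' x).2) ∈ lam := by
    intro x
    rw [YoungDiagram.mem_iff_lt_colLen]
    have h1 := heach (t' x).2 (mem_image_of_mem _ (mem_univ _))
    have h2 : ∑ y ∈ Cj (t' x).2, w y = ∑ a ∈ (Cj (t' x).2).image w, a := by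
      rw [Finset.sum_image (hwinj _)]
    have h3 : ∑ y ∈ Cj (t' x).2, (t' y).1 =
        ∑ a ∈ (Cj (t' x).2).image (fun x => (t' x).1), a := by
      rw [Finset.sum_image (hrinj _)]
    rw [h2, h3, hrow, ← hAc (t' x).2] at h1
    have h4 : (Cj (t' x).2).image w = range ((Cj (t' x).2).image w).card := by
      by_contra hcon
      exact absurd h1 (irr_set_sum_lt hcon).ne
    rw [hAc] at h4
    rw [← Finset.mem_range, ← h4]
    apply mem_image_of_mem
    simp [hCj]
  have hex : ∀ x, ∃ y, t' y = (w x, (t' x).2) := fun x => (ht'.mem _).1 (hlt x)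
  choose c hc using hex
  have hci : Function.Injective c := by
    intro x y hxy
    have h1 : (w x, (t' x).2) = (w y, (t' y).2) := by rw [← hc x, ← hc y, hxy]
    rw [Prod.mk.injEq] at h1
    exact hinj x y h1.2 h1.1
  refine ⟨Equiv.ofBijective c (Finite.injective_iff_bijective.1 hci), ?_, ?_⟩
  · simp only [colS, mem_filter, mem_univ, true_and, Equiv.ofBijective_apply]
    intro x
    rw [hc x]
  · funext x
    simp only [Equiv.ofBijective_apply]
    rw [hc x]

end comb

section main
variable {n : ℕ} {lam : YoungDiagram}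

/-- sign as a complex number -/
noncomputable def irrSg (c : Perm (Fin n)) : ℂ := ((Perm.sign c : ℤ) : ℂ)

lemma irrSg_mul (a b : Perm (Fin n)) : irrSg (a * b) = irrSg a * irrSg b := by simp [irrSg]

lemma irrSg_sq (a : Perm (Fin n)) : irrSg a * irrSg a = 1 := by
  unfold irrSg
  rcases Int.units_eq_one_or (Perm.sign a) with h | h <;> simp [h]

lemma irrSg_swap {x y : Fin n} (h : x ≠ y) : irrSg (swap x y) = -1 := by
  simp [irrSg, Perm.sign_swap h]

lemma irr_mem_colS {t : Fin n → ℕ × ℕ} {c : Perm (Fin n)} :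
    c ∈ colS t ↔ ∀ x, (t (c x)).2 = (t x).2 := by
  simp [colS]

lemma irr_colS_mul {t : Fin n → ℕ × ℕ} {c d : Perm (Fin n)} (hc : c ∈ colS t) (hd : d ∈ colS t) :
    c * d ∈ colS t := by
  rw [irr_mem_colS] at *
  intro x
  rw [Perm.mul_apply, hc, hd]

lemma irr_colS_inv {t : Fin n → ℕ × ℕ} {c : Perm (Fin n)} (hc : c ∈ colS t) :
    c⁻¹ ∈ colS t := by
  rw [irr_mem_colS] at *
  intro x
  have h1 := hc (c⁻¹ x)
  have h2 : c (c⁻¹ x) = x := Equiv.apply_symm_apply c x
  rw [h2] at h1
  exact h1.symm

lemma irr_row_inj {t : Fin n → ℕ × ℕ} (ht : IsTab t lam) {c d : Perm (Fin n)} (hc : c ∈ colS t)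
    (hd : d ∈ colS t) (h : (fun x => (t (c x)).1) = fun x => (t (d x)).1) : c = d := by
  rw [irr_mem_colS] at hc hd
  ext x
  congr 1
  apply ht.inj
  apply Prod.ext
  · exact congrFun h x
  · rw [hc, hd]

lemma irr_polytabloid_apply {t : Fin n → ℕ × ℕ} (ht : IsTab t lam) {c : Perm (Fin n)}
    (hc : c ∈ colS t) : polytabloid t (fun x => (t (c x)).1) = irrSg c := by
  unfold polytabloid
  rw [Finset.sum_eq_single c]
  · simp [irrSg]
  · intro d hd hne
    rw [if_neg, mul_zero]
    intro h
    exact hne (irr_row_inj ht hc hd h).symm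
  · intro h
    exact absurd hc h

lemma irr_polytabloid_zero {t : Fin n → ℕ × ℕ} {w : Fin n → ℕ}
    (h : ∀ c ∈ colS t, w ≠ fun x => (t (c x)).1) : polytabloid t w = 0 := by
  unfold polytabloid
  apply Finset.sum_eq_zero
  intro c hc
  rw [if_neg (h c hc), mul_zero]

/-- Specht functions are supported on the row words of tableaux -/
lemma irr_support {f : (Fin n → ℕ) → ℂ} (hf : f ∈ Specht n lam) {t : Fin n → ℕ × ℕ}
    (ht : IsTab t lam) (w : Fin n → ℕ) (hw : f w ≠ 0) :
    ∃ σ : Perm (Fin n), w = fun x => (t (σ x)).1 := by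
  by_contra hcon
  push Not at hcon
  apply hw
  refine Submodule.span_induction (p := fun f _ => f w = 0) ?_ rfl ?_ ?_ hf
  · rintro e ⟨t', ht', rfl⟩
    apply irr_polytabloid_zero
    intro c _ h
    obtain ⟨τ, hτ⟩ := irr_tab_perm ht ht'
    apply hcon (τ * c)
    rw [h]
    funext x
    rw [hτ, Perm.mul_apply]
  · intro a b _ _ ha hb
    rw [Pi.add_apply, ha, hb, add_zero]
  · intro a b _ hb
    rw [Pi.smul_apply, hb, smul_zero]

/-- the column antisymmetriser -/
noncomputable def irrKap (t : Fin n → ℕ × ℕ) (f : (Fin n → ℕ) → ℂ) : (Fin n → ℕ) → ℂ :=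
  ∑ c ∈ colS t, irrSg c • permAct c f

lemma irrKap_apply (t : Fin n → ℕ × ℕ) (f : (Fin n → ℕ) → ℂ) (w : Fin n → ℕ) :
    irrKap t f w = ∑ c ∈ colS t, irrSg c * f (w ∘ c) := by
  unfold irrKap
  rw [Finset.sum_apply]
  rfl

lemma irrKap_eq {f : (Fin n → ℕ) → ℂ} (hf : f ∈ Specht n lam) {t : Fin n → ℕ × ℕ}
    (ht : IsTab t lam) :
    irrKap t f = (∑ c ∈ colS t, irrSg c * f (fun x => (t (c x)).1)) • polytabloid t := by
  funext w
  rw [irrKap_apply, Pi.smul_apply, smul_eq_mul]
  by_cases h : ∃ c ∈ colS t, w = fun x => (t (c x)).1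
  · obtain ⟨c₀, hc₀, rfl⟩ := h
    rw [irr_polytabloid_apply ht hc₀, Finset.sum_mul]
    refine Finset.sum_bij (fun c _ => c₀ * c) (fun c hc => irr_colS_mul hc₀ hc) ?_ ?_ ?_
    · intro a _ b _ hab
      exact mul_left_cancel hab
    · intro c hc
      exact ⟨c₀⁻¹ * c, irr_colS_mul (irr_colS_inv hc₀) hc, by group⟩
    · intro c _
      rw [irrSg_mul]
      have e : (fun x => (t (c₀ x)).1) ∘ c = fun x => (t ((c₀ * c) x)).1 := rfl
      rw [e]
      calc irrSg c * f (fun x => (t ((c₀ * c) x)).1)
          = (irrSg c₀ * irrSg c₀) * (irrSg c * f (fun x => (t ((c₀ * c) x)).1)) := by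
            rw [irrSg_sq, one_mul]
        _ = _ := by ring
  · push Not at h
    rw [irr_polytabloid_zero h, mul_zero]
    by_cases hex : ∃ x y, x ≠ y ∧ (t x).2 = (t y).2 ∧ w x = w y
    · obtain ⟨x, y, hxy, hcol, hwxy⟩ := hex
      have hs : swap x y ∈ colS t := by
        rw [irr_mem_colS]
        intro z
        rcases eq_or_ne z x with rfl | hzx
        · rw [swap_apply_left, hcol]
        · rcases eq_or_ne z y with rfl | hzy
          · rw [swap_apply_right, hcol]
          · rw [swap_apply_of_ne_of_ne hzx hzy]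
      apply Finset.sum_involution (fun c _ => swap x y * c)
      · intro c _
        rw [irrSg_mul, irrSg_swap hxy]
        have e : w ∘ (swap x y * c : Perm (Fin n)) = w ∘ c := by
          funext z
          simp only [Function.comp_apply, Perm.mul_apply]
          rcases eq_or_ne (c z) x with h1 | hzx
          · rw [h1, swap_apply_left, hwxy]
          · rcases eq_or_ne (c z) y with h1 | hzy
            · rw [h1, swap_apply_right, hwxy]
            · rw [swap_apply_of_ne_of_ne hzx hzy]
        rw [e]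
        ring
      · intro c _ _ he
        have h1 : swap x y * c = 1 * c := by rw [he, one_mul]
        have h2 := mul_right_cancel h1
        have h3 := Perm.ext_iff.1 h2 x
        rw [swap_apply_left, Perm.one_apply] at h3
        exact hxy h3.symm
      · intro c hc
        exact irr_colS_mul hs hc
      · intro c _
        rw [← mul_assoc, swap_mul_self, one_mul]
    · push Not at hex
      apply Finset.sum_eq_zero
      intro c _
      by_cases hfc : f (w ∘ c) = 0
      · rw [hfc, mul_zero]
      · exfalso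
        obtain ⟨σ, hσ⟩ := irr_support hf ht _ hfc
        have hw : w = fun x => (t ((σ * c⁻¹) x)).1 := by
          funext x
          have h1 := congrFun hσ (c⁻¹ x)
          have h2 : c (c⁻¹ x) = x := Equiv.apply_symm_apply c x
          simp only [Function.comp_apply] at h1
          rw [h2] at h1
          rw [h1, Perm.mul_apply]
        obtain ⟨c₁, hc₁, h1⟩ := irr_comb ht hw (fun x y h1 h2 => by
          by_contra hne
          exact hex x y hne h1 h2)
        exact h c₁ hc₁ h1

/-- the Hermitian form argument -/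
lemma irr_pos {f : (Fin n → ℕ) → ℂ} (hf : f ∈ Specht n lam) {t : Fin n → ℕ × ℕ}
    (ht : IsTab t lam)
    (h0 : ∀ t' : Fin n → ℕ × ℕ, IsTab t' lam →
      ∑ c ∈ colS t', irrSg c * f (fun x => (t' (c x)).1) = 0) : f = 0 := by
  classical
  set W : Finset (Fin n → ℕ) := univ.image fun σ : Perm (Fin n) => fun x => (t (σ x)).1 with hW
  have hsupp : ∀ w, w ∉ W → f w = 0 := by
    intro w hw
    by_contra hne
    obtain ⟨σ, hσ⟩ := irr_support hf ht w hne
    exact hw (by rw [hW, hσ]; exact mem_image_of_mem _ (mem_univ σ))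
  have hall : ∀ g ∈ Specht n lam, ∑ w ∈ W, f w * (starRingEnd ℂ) (g w) = 0 := by
    intro g hg
    refine Submodule.span_induction
      (p := fun g _ => ∑ w ∈ W, f w * (starRingEnd ℂ) (g w) = 0) ?_ ?_ ?_ ?_ hg
    · rintro e ⟨t', ht', rfl⟩
      rw [← h0 t' ht']
      have e1 : ∀ w, f w * (starRingEnd ℂ) (polytabloid t' w) =
          ∑ c ∈ colS t', (if w = (fun x => (t' (c x)).1) then irrSg c * f w else 0) := by
        intro w
        unfold polytabloid
        rw [map_sum, Finset.mul_sum]
        apply Finset.sum_congr rfl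
        intro c _
        rw [map_mul]
        have e2 : (starRingEnd ℂ) (((Perm.sign c : ℤ) : ℂ)) = irrSg c := by
          unfold irrSg
          exact map_intCast (starRingEnd ℂ) _
        rw [e2]
        split_ifs <;> simp [mul_comm]
      rw [Finset.sum_congr rfl (fun w _ => e1 w), Finset.sum_comm]
      apply Finset.sum_congr rfl
      intro c _
      rw [Finset.sum_ite_eq' W (fun x => (t' (c x)).1) (fun w => irrSg c * f w), if_pos]
      obtain ⟨τ, hτ⟩ := irr_tab_perm ht ht'
      rw [hW]
      refine mem_image.2 ⟨τ * c, mem_univ _, ?_⟩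
      funext x
      rw [hτ, Perm.mul_apply]
    · simp
    · intro a b _ _ ha hb
      simp only [Pi.add_apply, map_add, mul_add, Finset.sum_add_distrib, ha, hb, add_zero]
    · intro a b _ hb
      simp only [Pi.smul_apply, smul_eq_mul, map_mul]
      have : ∀ w, f w * ((starRingEnd ℂ) a * (starRingEnd ℂ) (b w)) =
          (starRingEnd ℂ) a * (f w * (starRingEnd ℂ) (b w)) := fun w => by ring
      simp only [this, ← Finset.mul_sum, hb, mul_zero]
  have h1 := hall f hf
  have h2 : ∑ w ∈ W, Complex.normSq (f w) = 0 := by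
    have h3 : ((∑ w ∈ W, Complex.normSq (f w) : ℝ) : ℂ) = 0 := by
      rw [Complex.ofReal_sum, ← h1]
      apply Finset.sum_congr rfl
      intro w _
      rw [Complex.mul_conj]
    exact_mod_cast h3
  rw [Finset.sum_eq_zero_iff_of_nonneg (fun w _ => Complex.normSq_nonneg _)] at h2
  funext w
  by_cases hw : w ∈ W
  · exact Complex.normSq_eq_zero.1 (h2 w hw)
  · exact hsupp w hw

end main

/-- James: a linear map from the Specht module commuting with permutations (in the weak sense that
its kernel is stable) which does not kill the polytabloid of one tableau is injective. -/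
theorem irr {n : ℕ} {lam : YoungDiagram} (K : Submodule ℂ ((Fin n → ℕ) → ℂ))
    (hK : K ≤ Specht n lam) (hg : ∀ (g : Perm (Fin n)), ∀ f ∈ K, permAct g f ∈ K)
    {t : Fin n → ℕ × ℕ} (ht : IsTab t lam) (hn : polytabloid t ∉ K) : K = ⊥ := by
  rw [Submodule.eq_bot_iff]
  intro f hf
  by_contra hne
  have hex : ∃ t' : Fin n → ℕ × ℕ, IsTab t' lam ∧
      ∑ c ∈ colS t', irrSg c * f (fun x => (t' (c x)).1) ≠ 0 := by
    by_contra hcon
    push Not at hcon
    exact hne (irr_pos (hK hf) ht hcon)
  obtain ⟨t', ht', hm⟩ := hex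
  have h1 : irrKap t' f ∈ K := by
    unfold irrKap
    apply Submodule.sum_mem
    intro c _
    exact Submodule.smul_mem _ _ (hg c f hf)
  rw [irrKap_eq (hK hf) ht'] at h1
  have h2 : polytabloid t' ∈ K := by
    have := Submodule.smul_mem K
      (∑ c ∈ colS t', irrSg c * f (fun x => (t' (c x)).1))⁻¹ h1
    rwa [smul_smul, inv_mul_cancel₀ hm, one_smul] at this
  obtain ⟨τ, hτ⟩ := irr_tab_perm ht' ht
  have h3 := hg τ.symm _ h2
  rw [permAct_polytabloid] at h3
  apply hn
  have e : t' ∘ (Equiv.symm τ.symm) = t := by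
    funext x
    rw [Equiv.symm_symm, Function.comp_apply, hτ]
  rwa [e] at h3

end Sx
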