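import Mathlib
import Pool.Agent.Helper87.Saxl.Defs
import Pool.Agent.Helper87.Saxl.Strip
import Pool.Agent.Helper87.Saxl.Jinj

/-!
VSPAN: the space `V` is spanned by the polytabloids, `VV` by their products.
-/

namespace Sx

open Finset Equiv

variable {X Y : Type} [Fintype X] [DecidableEq X] [Fintype Y] [DecidableEq Y]

/-- orthogonal projection to a finite-dimensional subspace on which the form is anisotropic -/
lemma vspan_proj {M : Type} [AddCommGroup M] [Module ℚ M] (B : M →ₗ[ℚ] M →ₗ[ℚ] ℚ)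
    (P : Submodule ℚ M) [FiniteDimensional ℚ P] (hP : ∀ p ∈ P, B p p = 0 → p = 0) (f : M) :
    ∃ s ∈ P, ∀ p ∈ P, B (f - s) p = 0 := by
  let T : P →ₗ[ℚ] Module.Dual ℚ P := B.domRestrict₁₂ P P
  have hT : ∀ s p : P, T s p = B (s : M) (p : M) := fun s p => rfl
  have hinj : Function.Injective T := by
    rw [injective_iff_map_eq_zero]
    intro s hs
    have h1 : T s s = 0 := by rw [hs]; rfl
    rw [hT] at h1
    exact Subtype.ext (hP s s.2 h1)
  have hsurj : Function.Surjective T :=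
    (LinearMap.injective_iff_surjective_of_finrank_eq_finrank
      (Subspace.dual_finrank_eq (K := ℚ) (V := P)).symm).1 hinj
  obtain ⟨s, hs⟩ := hsurj ((B f).domRestrict P)
  refine ⟨s, s.2, fun p hp => ?_⟩
  have h2 : T s ⟨p, hp⟩ = B f p := by rw [hs]; rfl
  rw [hT] at h2
  rw [map_sub, LinearMap.sub_apply, ← h2]
  exact sub_self _

/-- the words with letters `≤ k` -/
def vspanW (X : Type) [Fintype X] [DecidableEq X] (k : ℕ) : Finset (X → ℕ) :=
  Fintype.piFinset (fun _ => range (k + 1))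

lemma vspan_mem {k : ℕ} {w : X → ℕ} (h : Cont k w) : w ∈ vspanW X k := by
  unfold vspanW
  rw [Fintype.mem_piFinset]
  intro x
  rw [mem_range]
  by_contra hx
  have h1 := h (w x)
  have h2 : k - w x = 0 := by omega
  rw [h2] at h1
  unfold cnt at h1
  rw [Finset.card_eq_zero] at h1
  have : x ∈ (univ.filter fun y => w y = w x) := by simp
  rw [h1] at this
  exact absurd this (Finset.notMem_empty x)

/-- the bilinear form on functions -/
def vspanB (X : Type) [Fintype X] [DecidableEq X] (k : ℕ) :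
    ((X → ℕ) → ℚ) →ₗ[ℚ] ((X → ℕ) → ℚ) →ₗ[ℚ] ℚ :=
  LinearMap.mk₂ ℚ (fun f g => ∑ w ∈ vspanW X k, f w * g w)
    (fun f f' g => by
      simp only [Pi.add_apply, add_mul, Finset.sum_add_distrib])
    (fun c f g => by
      simp only [Pi.smul_apply, smul_eq_mul, Finset.mul_sum, mul_assoc])
    (fun f g g' => by
      simp only [Pi.add_apply, mul_add, Finset.sum_add_distrib])
    (fun c f g => by
      simp only [Pi.smul_apply, smul_eq_mul, Finset.mul_sum]
      exact Finset.sum_congr rfl (fun w _ => by ring))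

lemma vspanB_apply (k : ℕ) (f g : (X → ℕ) → ℚ) :
    vspanB X k f g = ∑ w ∈ vspanW X k, f w * g w := rfl

/-- the bilinear form on functions of two words -/
def vspanB2 (X : Type) [Fintype X] [DecidableEq X] (k : ℕ) :
    ((X → ℕ) → (X → ℕ) → ℚ) →ₗ[ℚ] ((X → ℕ) → (X → ℕ) → ℚ) →ₗ[ℚ] ℚ :=
  LinearMap.mk₂ ℚ (fun f g => ∑ w ∈ vspanW X k, ∑ v ∈ vspanW X k, f w v * g w v)
    (fun f f' g => by
      simp only [Pi.add_apply, add_mul, Finset.sum_add_distrib])
    (fun c f g => by
      simp only [Pi.smul_apply, smul_eq_mul, Finset.mul_sum, mul_assoc])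
    (fun f g g' => by
      simp only [Pi.add_apply, mul_add, Finset.sum_add_distrib])
    (fun c f g => by
      simp only [Pi.smul_apply, smul_eq_mul, Finset.mul_sum]
      exact Finset.sum_congr rfl (fun w _ => Finset.sum_congr rfl (fun v _ => by ring)))

lemma vspanB2_apply (k : ℕ) (f g : (X → ℕ) → (X → ℕ) → ℚ) :
    vspanB2 X k f g = ∑ w ∈ vspanW X k, ∑ v ∈ vspanW X k, f w v * g w v := rfl

/-- `V` as a submodule -/
def vspanV (X : Type) [Fintype X] [DecidableEq X] (k : ℕ) : Submodule ℚ ((X → ℕ) → ℚ) where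
  carrier := {f | InV k f}
  zero_mem' := by
    refine ⟨fun w h => absurd rfl h, fun i w => ?_⟩
    unfold R
    simp
  add_mem' := by
    intro f g hf hg
    refine ⟨fun w h => ?_, fun i w => ?_⟩
    · by_cases h1 : f w = 0
      · by_cases h2 : g w = 0
        · exact absurd (by rw [Pi.add_apply, h1, h2, add_zero]) h
        · exact hg.cont w h2
      · exact hf.cont w h1
    · have h1 := hf.hw i w
      have h2 := hg.hw i w
      unfold R at h1 h2 ⊢
      simp only [Pi.add_apply, Finset.sum_add_distrib]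
      rw [h1, h2, add_zero]
  smul_mem' := by
    intro c f hf
    refine ⟨fun w h => ?_, fun i w => ?_⟩
    · by_cases h1 : f w = 0
      · exact absurd (by rw [Pi.smul_apply, h1, smul_zero]) h
      · exact hf.cont w h1
    · have h1 := hf.hw i w
      unfold R at h1 ⊢
      simp only [Pi.smul_apply, smul_eq_mul, ← Finset.mul_sum]
      rw [h1, mul_zero]

lemma mem_vspanV {k : ℕ} {f : (X → ℕ) → ℚ} : f ∈ vspanV X k ↔ InV k f := Iff.rfl

lemma vspan_isTab_comp {b : X → ℕ × ℕ} {lam : YoungDiagram} (hb : IsTab b lam) (g : Perm X) :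
    IsTab (b ∘ g) lam :=
  ⟨hb.inj.comp g.injective, fun p => by
    rw [hb.mem p]
    constructor
    · rintro ⟨x, hx⟩
      exact ⟨g.symm x, by simpa using hx⟩
    · rintro ⟨x, hx⟩
      exact ⟨g x, hx⟩⟩

/-- pairing with a polytabloid -/
lemma vspan_pair {k : ℕ} {b : X → ℕ × ℕ} {f : (X → ℕ) → ℚ} (hf : InV k f) :
    ∑ w ∈ vspanW X k, f w * pt b w = ∑ c ∈ colS b, sg c * f (fun x => (b (c x)).1) := by
  unfold pt
  simp only [Finset.mul_sum]
  rw [Finset.sum_comm]
  refine Finset.sum_congr rfl (fun c _ => ?_)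
  by_cases h : f (fun x => (b (c x)).1) = 0
  · rw [h, mul_zero]
    refine Finset.sum_eq_zero (fun w _ => ?_)
    by_cases hw : w = (fun x => (b (c x)).1)
    · rw [hw, h, zero_mul]
    · rw [if_neg hw, mul_zero, mul_zero]
  · have hm := vspan_mem (hf.cont _ h)
    rw [Finset.sum_eq_single_of_mem _ hm]
    · rw [if_pos rfl, mul_one, mul_comm]
    · intro w _ hw
      rw [if_neg hw, mul_zero, mul_zero]

lemma vspan_J {k : ℕ} {b : X → ℕ × ℕ} {f : (X → ℕ) → ℚ} (hf : InV k f) (σ₀ : Perm X) :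
    J b f (fun x => (b (σ₀ x)).2) = sg σ₀ * ∑ w ∈ vspanW X k, f w * pt (b ∘ σ₀) w := by
  rw [vspan_pair hf]
  unfold J
  rw [Finset.mul_sum]
  have h1 : ∑ σ : Perm X, sg σ * (if (fun x => (b (σ₀ x)).2) = (fun x => (b (σ x)).2)
        then f (fun x => (b (σ x)).1) else 0) =
      ∑ σ ∈ univ.filter (fun σ : Perm X => (fun x => (b (σ₀ x)).2) = (fun x => (b (σ x)).2)),
        sg σ * f (fun x => (b (σ x)).1) := by
    rw [Finset.sum_filter]
    refine Finset.sum_congr rfl (fun σ _ => ?_)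
    split_ifs <;> simp
  rw [h1]
  refine Finset.sum_bij (fun σ _ => σ₀⁻¹ * σ) ?_ ?_ ?_ ?_
  · intro σ hσ
    simp only [mem_filter, mem_univ, true_and] at hσ
    simp only [colS, mem_filter, mem_univ, true_and, Function.comp_apply, Perm.mul_apply]
    intro x
    have h2 := (congrFun hσ x).symm
    have h3 : σ₀ (σ₀⁻¹ (σ x)) = σ x := by simp
    rw [h3]
    exact h2
  · intro σ _ τ _ h
    exact mul_left_cancel h
  · intro c hc
    simp only [colS, mem_filter, mem_univ, true_and, Function.comp_apply] at hc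
    refine ⟨σ₀ * c, ?_, by group⟩
    simp only [mem_filter, mem_univ, true_and, Perm.mul_apply]
    funext x
    exact (hc x).symm
  · intro σ _
    have h3 : ∀ x, σ₀ (σ₀⁻¹ (σ x)) = σ x := fun x => by simp
    simp only [Function.comp_apply, Perm.mul_apply, sg_mul, sg_inv, h3]
    rw [← mul_assoc, ← mul_assoc, sg_mul_self, one_mul]

/-- an element of `V` orthogonal to all polytabloids vanishes -/
lemma vspan_ortho {k : ℕ} {f : (X → ℕ) → ℚ} (hf : InV k f)
    (h : ∀ b : X → ℕ × ℕ, IsTab b (stair k) → ∑ w ∈ vspanW X k, f w * pt b w = 0) :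
    ∀ w, f w = 0 := by
  by_contra hcon
  push Not at hcon
  obtain ⟨w, hw⟩ := hcon
  obtain ⟨b, hb⟩ := exists_tab_stair (hf.cont w hw)
  refine hw (J_inj hb hf (fun S => ?_) w)
  by_cases hS : ∃ σ₀ : Perm X, S = fun x => (b (σ₀ x)).2
  · obtain ⟨σ₀, rfl⟩ := hS
    rw [vspan_J hf σ₀, h _ (vspan_isTab_comp hb σ₀), mul_zero]
  · unfold J
    refine Finset.sum_eq_zero (fun σ _ => ?_)
    rw [if_neg (fun h' => hS ⟨σ, h'⟩), mul_zero]

lemma vspan_tab_finite (k : ℕ) : {b : X → ℕ × ℕ | IsTab b (stair k)}.Finite := by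
  refine Set.Finite.subset (Fintype.piFinset (fun _ : X => (stair k).cells)).finite_toSet ?_
  intro b hb
  rw [Finset.mem_coe, Fintype.mem_piFinset]
  intro x
  exact (hb.mem (b x)).2 ⟨x, rfl⟩

theorem v_span {k : ℕ} {f : (X → ℕ) → ℚ} (hf : InV k f) :
    f ∈ Submodule.span ℚ {e : (X → ℕ) → ℚ | ∃ b : X → ℕ × ℕ, IsTab b (stair k) ∧ e = pt b} := by
  set E := {e : (X → ℕ) → ℚ | ∃ b : X → ℕ × ℕ, IsTab b (stair k) ∧ e = pt b} with hE
  have hfin : E.Finite := by
    refine Set.Finite.subset ((vspan_tab_finite (X := X) k).image pt) ?_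
    rintro e ⟨b, hb, rfl⟩
    exact ⟨b, hb, rfl⟩
  have : FiniteDimensional ℚ (Submodule.span ℚ E) := FiniteDimensional.span_of_finite ℚ hfin
  have hle : Submodule.span ℚ E ≤ vspanV X k := by
    rw [Submodule.span_le]
    rintro e ⟨b, hb, rfl⟩
    exact pt_inV hb
  have hdef : ∀ p ∈ Submodule.span ℚ E, vspanB X k p p = 0 → p = 0 := by
    intro p hp h
    have hpV : InV k p := hle hp
    rw [vspanB_apply, Finset.sum_eq_zero_iff_of_nonneg (fun w _ => mul_self_nonneg _)] at h
    funext w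
    by_contra hw
    exact hw (mul_self_eq_zero.1 (h w (vspan_mem (hpV.cont w hw))))
  obtain ⟨s, hs, hp⟩ := vspan_proj (vspanB X k) (Submodule.span ℚ E) hdef f
  have hfs : InV k (f - s) := (vspanV X k).sub_mem hf (hle hs)
  have h0 : f - s = 0 := by
    funext w
    refine vspan_ortho hfs (fun b hb => ?_) w
    have := hp (pt b) (Submodule.subset_span ⟨b, hb, rfl⟩)
    rwa [vspanB_apply] at this
  rw [sub_eq_zero] at h0
  rw [h0]
  exact hs

lemma vspan_vv_ortho {k : ℕ} {F : (X → ℕ) → (X → ℕ) → ℚ} (hF : InVV k F)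
    (h : ∀ b b' : X → ℕ × ℕ, IsTab b (stair k) → IsTab b' (stair k) →
      ∑ w ∈ vspanW X k, ∑ v ∈ vspanW X k, F w v * (pt b w * pt b' v) = 0) :
    ∀ w v, F w v = 0 := by
  intro w
  refine vspan_ortho (hF.right w) (fun b' hb' => ?_)
  have hg : InV k (fun w => ∑ v ∈ vspanW X k, F w v * pt b' v) := by
    have : (fun w => ∑ v ∈ vspanW X k, F w v * pt b' v) =
        ∑ v ∈ vspanW X k, pt b' v • (fun w => F w v) := by
      funext w
      rw [Finset.sum_apply]
      refine Finset.sum_congr rfl (fun v _ => ?_)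
      rw [Pi.smul_apply, smul_eq_mul, mul_comm]
    rw [this]
    exact Submodule.sum_mem (vspanV X k)
      (fun v _ => Submodule.smul_mem _ _ (hF.left v))
  refine vspan_ortho hg (fun b hb => ?_) w
  rw [← h b b' hb hb']
  refine Finset.sum_congr rfl (fun w _ => ?_)
  rw [Finset.sum_mul]
  exact Finset.sum_congr rfl (fun v _ => by ring)

theorem vv_span {k : ℕ} {F : (X → ℕ) → (X → ℕ) → ℚ} (hF : InVV k F) :
    F ∈ Submodule.span ℚ {E : (X → ℕ) → (X → ℕ) → ℚ | ∃ b b' : X → ℕ × ℕ, IsTab b (stair k) ∧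
      IsTab b' (stair k) ∧ E = fun w₁ w₂ => pt b w₁ * pt b' w₂} := by
  set E := {E : (X → ℕ) → (X → ℕ) → ℚ | ∃ b b' : X → ℕ × ℕ, IsTab b (stair k) ∧
      IsTab b' (stair k) ∧ E = fun w₁ w₂ => pt b w₁ * pt b' w₂} with hE
  have hfin : E.Finite := by
    refine Set.Finite.subset (Set.Finite.image2
      (fun (b b' : X → ℕ × ℕ) => fun w₁ w₂ => pt b w₁ * pt b' w₂)
      (vspan_tab_finite (X := X) k) (vspan_tab_finite (X := X) k)) ?_
    rintro e ⟨b, b', hb, hb', rfl⟩
    exact ⟨b, hb, b', hb', rfl⟩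
  have : FiniteDimensional ℚ (Submodule.span ℚ E) := FiniteDimensional.span_of_finite ℚ hfin
  have hVV : ∀ p ∈ Submodule.span ℚ E, InVV k p := by
    intro p hp
    refine Submodule.span_induction (p := fun p _ => InVV k p) ?_ ?_ ?_ ?_ hp
    · rintro e ⟨b, b', hb, hb', rfl⟩
      refine ⟨fun w₂ => ?_, fun w₁ => ?_⟩
      · have := (vspanV X k).smul_mem (pt b' w₂) (pt_inV hb)
        have e1 : (fun w₁ => pt b w₁ * pt b' w₂) = pt b' w₂ • pt b := by
          funext w₁
          rw [Pi.smul_apply, smul_eq_mul, mul_comm]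
        rw [e1]
        exact this
      · exact (vspanV X k).smul_mem (pt b w₁) (pt_inV hb')
    · exact ⟨fun _ => (vspanV X k).zero_mem, fun _ => (vspanV X k).zero_mem⟩
    · intro F G _ _ hF hG
      exact ⟨fun w₂ => (vspanV X k).add_mem (hF.left w₂) (hG.left w₂),
        fun w₁ => (vspanV X k).add_mem (hF.right w₁) (hG.right w₁)⟩
    · intro c F _ hF
      exact ⟨fun w₂ => (vspanV X k).smul_mem c (hF.left w₂),
        fun w₁ => (vspanV X k).smul_mem c (hF.right w₁)⟩
  have hdef : ∀ p ∈ Submodule.span ℚ E, vspanB2 X k p p = 0 → p = 0 := by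
    intro p hp h
    have hpV : InVV k p := hVV p hp
    rw [vspanB2_apply, Finset.sum_eq_zero_iff_of_nonneg
      (fun w _ => Finset.sum_nonneg (fun v _ => mul_self_nonneg _))] at h
    funext w v
    by_contra hw
    have h1 := h w (vspan_mem ((hpV.left v).cont w hw))
    rw [Finset.sum_eq_zero_iff_of_nonneg (fun v _ => mul_self_nonneg _)] at h1
    exact hw (mul_self_eq_zero.1 (h1 v (vspan_mem ((hpV.right w).cont v hw))))
  obtain ⟨s, hs, hp⟩ := vspan_proj (vspanB2 X k) (Submodule.span ℚ E) hdef F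
  have hsV := hVV s hs
  have hfs : InVV k (F - s) :=
    ⟨fun w₂ => (vspanV X k).sub_mem (hF.left w₂) (hsV.left w₂),
      fun w₁ => (vspanV X k).sub_mem (hF.right w₁) (hsV.right w₁)⟩
  have h0 : F - s = 0 := by
    funext w v
    refine vspan_vv_ortho hfs (fun b b' hb hb' => ?_) w v
    have := hp (fun w₁ w₂ => pt b w₁ * pt b' w₂) (Submodule.subset_span ⟨b, b', hb, hb', rfl⟩)
    rwa [vspanB2_apply] at this
  rw [sub_eq_zero] at h0
  rw [h0]
  exact hs

end Sx
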