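import Mathlib
import Pool.Agent.Helper87.Saxl.FinDefs
import Pool.Agent.Helper87.Saxl.VSpan
import Pool.Agent.Helper87.Saxl.Irr

/-!
From the combinatorial witnesses `SymW`, `AltW` (over `ℚ`) to embeddings of Specht modules
over `ℂ`.
-/

namespace Sx

open Finset Equiv TensorProduct

/-! ### cardinality -/

theorem fwd_sum (k : ℕ) : (∑ j ∈ range k, (k - j)) * 2 = k * (k + 1) := by
  induction k with
  | zero => simp
  | succ k ih =>
    rw [Finset.sum_range_succ']
    have h : ∑ i ∈ range k, (k + 1 - (i + 1)) = ∑ j ∈ range k, (k - j) :=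
      Finset.sum_congr rfl fun i _ => by omega
    rw [h]
    simp only [Nat.sub_zero]
    nlinarith

theorem fwd_card {X : Type} [Fintype X] [DecidableEq X] {k : ℕ} {w : X → ℕ} (h : Cont k w) :
    Fintype.card X = k * (k + 1) / 2 := by
  have h1 : ∀ x : X, x ∈ (univ : Finset X) → w x ∈ range k := by
    intro x _
    rw [Finset.mem_range]
    by_contra hx
    have h2 := h (w x)
    have h3 : 0 < cnt w (w x) := Finset.card_pos.mpr ⟨x, by simp⟩
    omega
  have h2 := Finset.card_eq_sum_card_fiberwise h1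
  have h3 : ∑ j ∈ range k, (univ.filter fun x => w x = j).card = ∑ j ∈ range k, (k - j) :=
    Finset.sum_congr rfl fun j _ => h j
  rw [h3] at h2
  have h4 := fwd_sum k
  rw [Finset.card_univ] at h2
  omega

/-! ### transport -/

section transport

variable {X Y : Type} [Fintype X] [DecidableEq X] [Fintype Y] [DecidableEq Y]

/-- transport of a function of two words along an equivalence. -/
def fwdT (e : Y ≃ X) (F : (X → ℕ) → (X → ℕ) → ℚ) : (Y → ℕ) → (Y → ℕ) → ℚ :=
  fun w₁ w₂ => F (w₁ ∘ e.symm) (w₂ ∘ e.symm)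

omit [DecidableEq X] [DecidableEq Y] in
theorem fwd_cnt (e : Y ≃ X) (w : Y → ℕ) (j : ℕ) : cnt (w ∘ e.symm) j = cnt w j := by
  unfold cnt
  refine Finset.card_bij (fun x _ => e.symm x) ?_ ?_ ?_
  · intro x hx
    simpa using hx
  · intro a _ b _ h
    exact e.symm.injective h
  · intro y hy
    exact ⟨e y, by simpa using hy, by simp⟩

theorem fwd_inV (e : Y ≃ X) {k : ℕ} {f : (X → ℕ) → ℚ} (hf : InV k f) :
    InV k (fun w : Y → ℕ => f (w ∘ e.symm)) := by
  refine ⟨fun w hw j => ?_, fun i w => ?_⟩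
  · rw [← fwd_cnt e w j]
    exact hf.cont _ hw j
  · rw [← hf.hw i (w ∘ e.symm)]
    unfold R
    refine Finset.sum_bij (fun y _ => e y) ?_ ?_ ?_ ?_
    · intro y hy
      simpa using hy
    · intro a _ b _ h
      exact e.injective h
    · intro x hx
      exact ⟨e.symm x, by simpa using hx, by simp⟩
    · intro y _
      show f (Function.update w y (i + 1) ∘ e.symm) = f (Function.update (w ∘ e.symm) (e y) (i + 1))
      congr 1
      funext x
      by_cases hx : x = e y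
      · subst hx
        simp
      · have h1 : e.symm x ≠ y := fun h => hx (by rw [← h]; simp)
        simp [Function.update_of_ne hx, Function.update_of_ne h1]

theorem fwd_inVV (e : Y ≃ X) {k : ℕ} {F : (X → ℕ) → (X → ℕ) → ℚ} (hF : InVV k F) :
    InVV k (fwdT e F) :=
  ⟨fun w₂ => fwd_inV e (hF.left (w₂ ∘ e.symm)), fun w₁ => fwd_inV e (hF.right (w₁ ∘ e.symm))⟩

omit [Fintype X] [DecidableEq X] [Fintype Y] [DecidableEq Y] in
theorem fwd_isTab (e : Y ≃ X) {t : X → ℕ × ℕ} {lam : YoungDiagram} (ht : IsTab t lam) :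
    IsTab (t ∘ e) lam :=
  ⟨ht.inj.comp e.injective, fun p => by
    rw [ht.mem p]
    constructor
    · rintro ⟨x, hx⟩
      exact ⟨e.symm x, by simpa using hx⟩
    · rintro ⟨x, hx⟩
      exact ⟨e x, hx⟩⟩

theorem fwd_YS (e : Y ≃ X) (t : X → ℕ × ℕ) (F : (X → ℕ) → (X → ℕ) → ℚ) (w₁ w₂ : X → ℕ) :
    YS (t ∘ e) (fwdT e F) (w₁ ∘ e) (w₂ ∘ e) = YS t F w₁ w₂ := by
  unfold YS
  refine Finset.sum_bij (fun c _ => e.permCongr c) ?_ ?_ ?_ ?_
  · intro c hc
    simp only [colS, Finset.mem_filter, Finset.mem_univ, true_and] at hc ⊢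
    intro x
    simpa [Equiv.permCongr_apply] using hc (e.symm x)
  · intro a _ b _ h
    exact e.permCongr.injective h
  · intro c hc
    refine ⟨e.symm.permCongr c, ?_, ?_⟩
    · simp only [colS, Finset.mem_filter, Finset.mem_univ, true_and] at hc ⊢
      intro y
      simpa [Equiv.permCongr_apply] using hc (e y)
    · ext x
      simp [Equiv.permCongr_apply]
  · intro c _
    refine Finset.sum_bij (fun r _ => e.permCongr r) ?_ ?_ ?_ ?_
    · intro r hr
      simp only [rowS, Finset.mem_filter, Finset.mem_univ, true_and] at hr ⊢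
      intro x
      simpa [Equiv.permCongr_apply] using hr (e.symm x)
    · intro a _ b _ h
      exact e.permCongr.injective h
    · intro r hr
      refine ⟨e.symm.permCongr r, ?_, ?_⟩
      · simp only [rowS, Finset.mem_filter, Finset.mem_univ, true_and] at hr ⊢
        intro y
        simpa [Equiv.permCongr_apply] using hr (e y)
      · ext x
        simp [Equiv.permCongr_apply]
    · intro r _
      have h1 : sg (e.permCongr c) = sg c := by
        unfold sg
        rw [Equiv.Perm.sign_permCongr]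
      rw [h1]
      have h2 : ∀ w : X → ℕ, (w ∘ e) ∘ c ∘ r ∘ e.symm = w ∘ (e.permCongr c) ∘ (e.permCongr r) := by
        intro w
        funext x
        simp [Equiv.permCongr_apply]
      have h3 : ∀ w : X → ℕ, ((w ∘ e) ∘ c ∘ r) ∘ e.symm = w ∘ (e.permCongr c) ∘ (e.permCongr r) := by
        intro w
        rw [← h2]
        rfl
      show sg c * F (((w₁ ∘ e) ∘ c ∘ r) ∘ e.symm) (((w₂ ∘ e) ∘ c ∘ r) ∘ e.symm) = _
      rw [h3, h3]

end transport

/-! ### the tensor square as functions of two words -/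

/-- a tensor as a function of two words. -/
noncomputable def fwdPhi (n : ℕ) (mu : YoungDiagram) :
    (Specht n mu ⊗[ℂ] Specht n mu) →ₗ[ℂ] ((Fin n → ℕ) → (Fin n → ℕ) → ℂ) :=
  TensorProduct.lift (LinearMap.mk₂ ℂ
    (fun f g => fun w₁ w₂ => (f : (Fin n → ℕ) → ℂ) w₁ * (g : (Fin n → ℕ) → ℂ) w₂)
    (fun a b c => by funext w₁ w₂; simp [add_mul])
    (fun r a b => by funext w₁ w₂; simp [mul_assoc])
    (fun a b c => by funext w₁ w₂; simp [mul_add])
    (fun r a b => by funext w₁ w₂; simp; ring))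

theorem fwdPhi_tmul {n : ℕ} {mu : YoungDiagram} (f g : Specht n mu) (w₁ w₂ : Fin n → ℕ) :
    fwdPhi n mu (f ⊗ₜ g) w₁ w₂ = (f : (Fin n → ℕ) → ℂ) w₁ * (g : (Fin n → ℕ) → ℂ) w₂ := rfl

/-- the diagonal action on the tensor square. -/
noncomputable def fwdAct {n : ℕ} (mu : YoungDiagram) (g : Perm (Fin n)) :
    (Specht n mu ⊗[ℂ] Specht n mu) →ₗ[ℂ] (Specht n mu ⊗[ℂ] Specht n mu) :=
  TensorProduct.map (spechtAct mu g) (spechtAct mu g)

theorem fwd_spechtAct_apply {n : ℕ} {mu : YoungDiagram} (g : Perm (Fin n)) (f : Specht n mu)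
    (w : Fin n → ℕ) :
    ((spechtAct mu g f : Specht n mu) : (Fin n → ℕ) → ℂ) w = (f : (Fin n → ℕ) → ℂ) (w ∘ g) := rfl

theorem fwdPhi_act {n : ℕ} {mu : YoungDiagram} (g : Perm (Fin n))
    (z : Specht n mu ⊗[ℂ] Specht n mu) (w₁ w₂ : Fin n → ℕ) :
    fwdPhi n mu (fwdAct mu g z) w₁ w₂ = fwdPhi n mu z (w₁ ∘ g) (w₂ ∘ g) := by
  induction z using TensorProduct.induction_on with
  | zero => simp
  | tmul f h =>
    unfold fwdAct
    rw [TensorProduct.map_tmul, fwdPhi_tmul, fwdPhi_tmul, fwd_spechtAct_apply,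
      fwd_spechtAct_apply]
  | add a b ha hb =>
    rw [map_add, map_add, map_add, Pi.add_apply, Pi.add_apply, ha, hb]
    rfl

theorem fwdAct_mul {n : ℕ} {mu : YoungDiagram} (g h : Perm (Fin n))
    (z : Specht n mu ⊗[ℂ] Specht n mu) :
    fwdAct mu g (fwdAct mu h z) = fwdAct mu (g * h) z := by
  induction z using TensorProduct.induction_on with
  | zero => simp
  | tmul a b =>
    unfold fwdAct
    rw [TensorProduct.map_tmul, TensorProduct.map_tmul, TensorProduct.map_tmul]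
    rfl
  | add a b ha hb => rw [map_add, map_add, map_add, ha, hb]

theorem fwd_comm_act {n : ℕ} {mu : YoungDiagram} (g : Perm (Fin n))
    (z : Specht n mu ⊗[ℂ] Specht n mu) :
    TensorProduct.comm ℂ (Specht n mu) (Specht n mu) (fwdAct mu g z)
      = fwdAct mu g (TensorProduct.comm ℂ (Specht n mu) (Specht n mu) z) := by
  induction z using TensorProduct.induction_on with
  | zero => simp
  | tmul a b =>
    unfold fwdAct
    rw [TensorProduct.map_tmul, TensorProduct.comm_tmul, TensorProduct.comm_tmul,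
      TensorProduct.map_tmul]
  | add a b ha hb => rw [map_add, map_add, map_add, map_add, ha, hb]

theorem fwdPhi_comm {n : ℕ} {mu : YoungDiagram}
    (z : Specht n mu ⊗[ℂ] Specht n mu) (w₁ w₂ : Fin n → ℕ) :
    fwdPhi n mu (TensorProduct.comm ℂ (Specht n mu) (Specht n mu) z) w₁ w₂
      = fwdPhi n mu z w₂ w₁ := by
  induction z using TensorProduct.induction_on with
  | zero => simp
  | tmul a b =>
    rw [TensorProduct.comm_tmul, fwdPhi_tmul, fwdPhi_tmul, mul_comm]
  | add a b ha hb =>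
    rw [map_add, map_add, map_add, Pi.add_apply, Pi.add_apply, ha, hb]
    rfl

theorem fwd_neg {n : ℕ} {mu : YoungDiagram} (y : Specht n mu ⊗[ℂ] Specht n mu) :
    (-1 : ℂ) • y = -y := neg_one_smul ℂ y

theorem fwd_smul_sub {n : ℕ} {mu : YoungDiagram} (x y : Specht n mu ⊗[ℂ] Specht n mu) :
    (2⁻¹ : ℂ) • (y - x) = (-1 : ℂ) • ((2⁻¹ : ℂ) • (x - y)) := by
  rw [smul_comm, fwd_neg]
  congr 1
  exact (neg_sub x y).symm

theorem fwd_comm_comm {n : ℕ} {mu : YoungDiagram} (y : Specht n mu ⊗[ℂ] Specht n mu) :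
    TensorProduct.comm ℂ (Specht n mu) (Specht n mu)
      (TensorProduct.comm ℂ (Specht n mu) (Specht n mu) y) = y := by
  induction y using TensorProduct.induction_on with
  | zero => simp
  | tmul a b => rw [TensorProduct.comm_tmul, TensorProduct.comm_tmul]
  | add a b ha hb => rw [map_add, map_add, ha, hb]

theorem fwd_pt {n : ℕ} (b : Fin n → ℕ × ℕ) (w : Fin n → ℕ) :
    polytabloid b w = ((pt b w : ℚ) : ℂ) := by
  unfold polytabloid pt sg
  push_cast
  refine Finset.sum_congr rfl fun c _ => ?_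
  split_ifs <;> simp

/-- lifting of rational combinations of polytabloids to the tensor square. -/
theorem fwd_lift {n k : ℕ} {F : (Fin n → ℕ) → (Fin n → ℕ) → ℚ} (hF : InVV k F) :
    ∃ z : Specht n (stair k) ⊗[ℂ] Specht n (stair k),
      ∀ w₁ w₂, fwdPhi n (stair k) z w₁ w₂ = ((F w₁ w₂ : ℚ) : ℂ) := by
  refine Submodule.span_induction
    (p := fun F _ => ∃ z : Specht n (stair k) ⊗[ℂ] Specht n (stair k),
      ∀ w₁ w₂, fwdPhi n (stair k) z w₁ w₂ = ((F w₁ w₂ : ℚ) : ℂ)) ?_ ?_ ?_ ?_ (vv_span hF)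
  · rintro E ⟨b, b', hb, hb', rfl⟩
    refine ⟨(⟨polytabloid b, Submodule.subset_span ⟨b, hb, rfl⟩⟩ : Specht n (stair k)) ⊗ₜ
      (⟨polytabloid b', Submodule.subset_span ⟨b', hb', rfl⟩⟩ : Specht n (stair k)), ?_⟩
    intro w₁ w₂
    rw [fwdPhi_tmul]
    show polytabloid b w₁ * polytabloid b' w₂ = _
    rw [fwd_pt, fwd_pt]
    push_cast
    rfl
  · exact ⟨0, fun w₁ w₂ => by simp⟩
  · rintro A B _ _ ⟨zA, hA⟩ ⟨zB, hB⟩
    refine ⟨zA + zB, fun w₁ w₂ => ?_⟩
    rw [map_add, Pi.add_apply, Pi.add_apply, hA, hB]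
    simp
  · rintro a B _ ⟨zB, hB⟩
    refine ⟨(a : ℂ) • zB, fun w₁ w₂ => ?_⟩
    rw [map_smul, Pi.smul_apply, Pi.smul_apply, hB]
    simp

/-! ### the main construction -/

/-- the equivariant map attached to a tensor `z`. -/
noncomputable def fwdMap {n : ℕ} (mu : YoungDiagram) (t : Fin n → ℕ × ℕ)
    (z : Specht n mu ⊗[ℂ] Specht n mu) :
    ((Fin n → ℕ) → ℂ) →ₗ[ℂ] (Specht n mu ⊗[ℂ] Specht n mu) :=
  ∑ σ : Perm (Fin n), (LinearMap.proj (R := ℂ) (φ := fun _ : Fin n → ℕ => ℂ)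
    (fun x => (t (σ x)).1)).smulRight (fwdAct mu σ⁻¹ z)

theorem fwdMap_apply {n : ℕ} (mu : YoungDiagram) (t : Fin n → ℕ × ℕ)
    (z : Specht n mu ⊗[ℂ] Specht n mu) (f : (Fin n → ℕ) → ℂ) :
    fwdMap mu t z f = ∑ σ : Perm (Fin n), f (fun x => (t (σ x)).1) • fwdAct mu σ⁻¹ z := by
  unfold fwdMap
  rw [LinearMap.sum_apply]
  rfl

theorem fwdMap_act {n : ℕ} (mu : YoungDiagram) (t : Fin n → ℕ × ℕ)
    (z : Specht n mu ⊗[ℂ] Specht n mu) (g : Perm (Fin n)) (f : (Fin n → ℕ) → ℂ) :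
    fwdMap mu t z (permAct g f) = fwdAct mu g (fwdMap mu t z f) := by
  rw [fwdMap_apply, fwdMap_apply, map_sum]
  refine Fintype.sum_equiv (Equiv.mulRight g) _ _ fun σ => ?_
  rw [map_smul, fwdAct_mul]
  show f ((fun x => (t (σ x)).1) ∘ g) • fwdAct mu σ⁻¹ z
    = f (fun x => (t ((σ * g) x)).1) • fwdAct mu (g * (σ * g)⁻¹) z
  have h1 : g * (σ * g)⁻¹ = σ⁻¹ := by group
  rw [h1]
  rfl

theorem fwdMap_comm {n : ℕ} (mu : YoungDiagram) (t : Fin n → ℕ × ℕ)
    (z : Specht n mu ⊗[ℂ] Specht n mu) (ε : ℂ)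
    (hz : TensorProduct.comm ℂ (Specht n mu) (Specht n mu) z = ε • z) (f : (Fin n → ℕ) → ℂ) :
    TensorProduct.comm ℂ (Specht n mu) (Specht n mu) (fwdMap mu t z f)
      = ε • fwdMap mu t z f := by
  rw [fwdMap_apply, map_sum, Finset.smul_sum]
  refine Finset.sum_congr rfl fun σ _ => ?_
  rw [map_smul, fwd_comm_act, hz, map_smul, smul_comm]

theorem fwd_mem_rowS_inv {n : ℕ} {t : Fin n → ℕ × ℕ} {r : Perm (Fin n)} (h : r ∈ rowS t) :
    r⁻¹ ∈ rowS t := by
  simp only [rowS, Finset.mem_filter, Finset.mem_univ, true_and] at h ⊢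
  intro x
  have := h (r⁻¹ x)
  simpa using this.symm

theorem fwd_mem_rowS_mul {n : ℕ} {t : Fin n → ℕ × ℕ} {r s : Perm (Fin n)} (h : r ∈ rowS t)
    (h' : s ∈ rowS t) : r * s ∈ rowS t := by
  simp only [rowS, Finset.mem_filter, Finset.mem_univ, true_and] at h h' ⊢
  intro x
  rw [Perm.mul_apply, h, h']

theorem fwd_mem_colS_inv {n : ℕ} {t : Fin n → ℕ × ℕ} {r : Perm (Fin n)} (h : r ∈ colS t) :
    r⁻¹ ∈ colS t := by
  simp only [colS, Finset.mem_filter, Finset.mem_univ, true_and] at h ⊢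
  intro x
  have := h (r⁻¹ x)
  simpa using this.symm

/-- value of the map on the polytabloid of `t`. -/
theorem fwdMap_polytabloid {n : ℕ} (mu : YoungDiagram) (t : Fin n → ℕ × ℕ)
    (z : Specht n mu ⊗[ℂ] Specht n mu) (hz : ∀ r ∈ rowS t, fwdAct mu r z = z) :
    fwdMap mu t z (polytabloid t)
      = ((rowS t).card : ℂ) • ∑ c ∈ colS t, ((Perm.sign c : ℤ) : ℂ) • fwdAct mu c z := by
  rw [fwdMap_apply]
  have h1 : ∀ σ : Perm (Fin n), polytabloid t (fun x => (t (σ x)).1) • fwdAct mu σ⁻¹ z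
      = ∑ c ∈ colS t, (if σ * c⁻¹ ∈ rowS t then
          ((Perm.sign c : ℤ) : ℂ) • fwdAct mu c⁻¹ z else 0) := by
    intro σ
    unfold polytabloid
    rw [Finset.sum_smul]
    refine Finset.sum_congr rfl fun c _ => ?_
    have h2 : ((fun x => (t (σ x)).1) = (fun x => (t (c x)).1)) ↔ σ * c⁻¹ ∈ rowS t := by
      simp only [rowS, Finset.mem_filter, Finset.mem_univ, true_and]
      constructor
      · intro h x
        have := congrFun h (c⁻¹ x)
        simpa using this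
      · intro h
        funext x
        have := h (c x)
        simpa using this
    by_cases h3 : σ * c⁻¹ ∈ rowS t
    · rw [if_pos (h2.mpr h3), if_pos h3, mul_one]
      congr 1
      have h4 := hz _ (fwd_mem_rowS_inv h3)
      calc fwdAct mu σ⁻¹ z = fwdAct mu (c⁻¹ * (σ * c⁻¹)⁻¹) z := by
            congr 2
            group
        _ = fwdAct mu c⁻¹ (fwdAct mu (σ * c⁻¹)⁻¹ z) := (fwdAct_mul _ _ _).symm
        _ = fwdAct mu c⁻¹ z := by rw [h4]
    · rw [if_neg (fun h => h3 (h2.mp h)), if_neg h3, mul_zero, zero_smul]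
  rw [Finset.sum_congr rfl fun σ _ => h1 σ, Finset.sum_comm]
  have h5 : ∀ c ∈ colS t, ∑ σ : Perm (Fin n), (if σ * c⁻¹ ∈ rowS t then
      ((Perm.sign c : ℤ) : ℂ) • fwdAct mu c⁻¹ z else 0)
      = ((rowS t).card : ℂ) • (((Perm.sign c : ℤ) : ℂ) • fwdAct mu c⁻¹ z) := by
    intro c _
    rw [← Finset.sum_filter, Finset.sum_const]
    have h6 : (univ.filter fun σ : Perm (Fin n) => σ * c⁻¹ ∈ rowS t).card = (rowS t).card := by
      refine Finset.card_bij (fun σ _ => σ * c⁻¹) ?_ ?_ ?_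
      · intro σ hσ
        simpa using hσ
      · intro a _ b _ h
        exact mul_right_cancel h
      · intro r hr
        exact ⟨r * c, by simpa using hr, by group⟩
    rw [h6, Nat.cast_smul_eq_nsmul]
  rw [Finset.sum_congr rfl h5, ← Finset.smul_sum]
  congr 1
  refine Finset.sum_bij (fun c _ => c⁻¹) ?_ ?_ ?_ ?_
  · intro c hc
    exact fwd_mem_colS_inv hc
  · intro a _ b _ h
    exact inv_injective h
  · intro c hc
    exact ⟨c⁻¹, fwd_mem_colS_inv hc, inv_inv c⟩
  · intro c _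
    rw [Perm.sign_inv]

theorem fwd_main {n : ℕ} {lam mu : YoungDiagram} {t : Fin n → ℕ × ℕ} (ht : IsTab t lam)
    {F : (Fin n → ℕ) → (Fin n → ℕ) → ℚ} {w₁ w₂ : Fin n → ℕ} (hY : YS t F w₁ w₂ ≠ 0)
    (z : Specht n mu ⊗[ℂ] Specht n mu) (ε : ℂ)
    (hz : TensorProduct.comm ℂ (Specht n mu) (Specht n mu) z = ε • z)
    (hF : ∀ v₁ v₂, fwdPhi n mu z v₁ v₂ = ((F v₁ v₂ : ℚ) : ℂ)) :
    ∃ φ : Specht n lam →ₗ[ℂ] (Specht n mu ⊗[ℂ] Specht n mu),
      Function.Injective φ ∧
      (∀ v, TensorProduct.comm ℂ (Specht n mu) (Specht n mu) (φ v) = ε • φ v) ∧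
      ∀ (g : Perm (Fin n)) (v : Specht n lam),
        φ (spechtAct lam g v) = TensorProduct.map (spechtAct mu g) (spechtAct mu g) (φ v) := by
  set z0 : Specht n mu ⊗[ℂ] Specht n mu := ∑ r ∈ rowS t, fwdAct mu r z with hz0
  have hz0c : TensorProduct.comm ℂ (Specht n mu) (Specht n mu) z0 = ε • z0 := by
    rw [hz0, map_sum, Finset.smul_sum]
    refine Finset.sum_congr rfl fun r _ => ?_
    rw [fwd_comm_act, hz, map_smul]
  have hz0r : ∀ s ∈ rowS t, fwdAct mu s z0 = z0 := by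
    intro s hs
    rw [hz0, map_sum]
    refine Finset.sum_bij (fun r _ => s * r) ?_ ?_ ?_ ?_
    · intro r hr
      exact fwd_mem_rowS_mul hs hr
    · intro a _ b _ h
      exact mul_left_cancel h
    · intro r hr
      exact ⟨s⁻¹ * r, fwd_mem_rowS_mul (fwd_mem_rowS_inv hs) hr, by group⟩
    · intro r _
      rw [fwdAct_mul]
  refine ⟨(fwdMap mu t z0).comp (Specht n lam).subtype, ?_, ?_, ?_⟩
  · set K : Submodule ℂ ((Fin n → ℕ) → ℂ) := LinearMap.ker (fwdMap mu t z0) ⊓ Specht n lam with hK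
    have hKbot : K = ⊥ := by
      refine irr K inf_le_right ?_ ht ?_
      · intro g f hf
        refine ⟨?_, permAct_mem lam g f hf.2⟩
        have h1 : fwdMap mu t z0 f = 0 := hf.1
        show fwdMap mu t z0 (permAct g f) = 0
        rw [fwdMap_act, h1, map_zero]
      · intro hm
        have h1 : fwdMap mu t z0 (polytabloid t) = 0 := hm.1
        rw [fwdMap_polytabloid mu t z0 hz0r] at h1
        have h2 : ((rowS t).card : ℂ) ≠ 0 := by
          have : (1 : Perm (Fin n)) ∈ rowS t := by simp [rowS]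
          exact_mod_cast (Finset.card_pos.mpr ⟨_, this⟩).ne'
        have h3 := (smul_eq_zero.mp h1).resolve_left h2
        have h4 : fwdPhi n mu (∑ c ∈ colS t, ((Perm.sign c : ℤ) : ℂ) • fwdAct mu c z0) w₁ w₂
            = ((YS t F w₁ w₂ : ℚ) : ℂ) := by
          rw [map_sum, Finset.sum_apply, Finset.sum_apply]
          unfold YS
          push_cast
          refine Finset.sum_congr rfl fun c _ => ?_
          rw [map_smul, Pi.smul_apply, Pi.smul_apply, hz0, map_sum, map_sum, Finset.sum_apply,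
            Finset.sum_apply, Finset.smul_sum]
          refine Finset.sum_congr rfl fun r _ => ?_
          rw [fwdPhi_act, fwdPhi_act, hF, smul_eq_mul]
          unfold sg
          push_cast
          rfl
        rw [h3] at h4
        apply hY
        have h5 : ((YS t F w₁ w₂ : ℚ) : ℂ) = 0 := by
          rw [← h4]
          simp
        exact_mod_cast h5
    intro a b hab
    have hab' : fwdMap mu t z0 (a : (Fin n → ℕ) → ℂ) = fwdMap mu t z0 (b : (Fin n → ℕ) → ℂ) := hab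
    have h1 : (a : (Fin n → ℕ) → ℂ) - (b : (Fin n → ℕ) → ℂ) ∈ K := by
      refine ⟨?_, Submodule.sub_mem _ a.2 b.2⟩
      show fwdMap mu t z0 ((a : (Fin n → ℕ) → ℂ) - (b : (Fin n → ℕ) → ℂ)) = 0
      rw [map_sub, hab', sub_self]
    rw [hKbot, Submodule.mem_bot] at h1
    exact Subtype.ext (sub_eq_zero.mp h1)
  · intro v
    exact fwdMap_comm mu t z0 ε hz0c v
  · intro g v
    exact fwdMap_act mu t z0 g v

/-- reduction to words on `Fin n`. -/
theorem fwd_reduce {k : ℕ} {lam : YoungDiagram} {X : Type} [Fintype X] [DecidableEq X]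
    {t : X → ℕ × ℕ} {F : (X → ℕ) → (X → ℕ) → ℚ} (ht : IsTab t lam) (hF : InVV k F)
    {w₁ w₂ : X → ℕ} (hY : YS t F w₁ w₂ ≠ 0) :
    ∃ (e : Fin (k * (k + 1) / 2) ≃ X), IsTab (t ∘ e) lam ∧ InVV k (fwdT e F) ∧
      YS (t ∘ e) (fwdT e F) (w₁ ∘ e) (w₂ ∘ e) ≠ 0 := by
  have h1 : ∃ v₁ v₂, F v₁ v₂ ≠ 0 := by
    by_contra h
    push Not at h
    apply hY
    unfold YS
    exact Finset.sum_eq_zero fun c _ => Finset.sum_eq_zero fun r _ => by rw [h, mul_zero]
  obtain ⟨v₁, v₂, hv⟩ := h1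
  have hcard := fwd_card ((hF.left v₂).cont v₁ hv)
  have e : Fin (k * (k + 1) / 2) ≃ X := (Fintype.equivFinOfCardEq hcard).symm
  exact ⟨e, fwd_isTab e ht, fwd_inVV e hF, by rw [fwd_YS]; exact hY⟩

theorem constSym_of_symW {k : ℕ} {lam : YoungDiagram} (h : SymW k lam) :
    ConstSym (k * (k + 1) / 2) lam (stair k) := by
  obtain ⟨X, _, _, t, F, ht, hF, hs, w₁, w₂, hY⟩ := h
  obtain ⟨e, ht', hF', hY'⟩ := fwd_reduce ht hF hY
  obtain ⟨z, hz⟩ := fwd_lift hF'
  set z' := (2⁻¹ : ℂ) • (z + TensorProduct.comm ℂ _ _ z) with hz'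
  obtain ⟨φ, h1, h2, h3⟩ := fwd_main (mu := stair k) ht' hY' z' 1
    (by
      rw [hz', map_smul, map_add, one_smul, fwd_comm_comm, add_comm z])
    (fun v₁ v₂ => by
      rw [hz', map_smul, map_add, Pi.smul_apply, Pi.smul_apply, Pi.add_apply, Pi.add_apply,
        fwdPhi_comm, hz, hz]
      have h4 : fwdT e F v₂ v₁ = fwdT e F v₁ v₂ := hs _ _
      rw [h4, smul_eq_mul]
      ring)
  exact ⟨φ, h1, fun v => by rw [h2, one_smul], h3⟩

theorem constAlt_of_altW {k : ℕ} {lam : YoungDiagram} (h : AltW k lam) :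
    ConstAlt (k * (k + 1) / 2) lam (stair k) := by
  obtain ⟨X, _, _, t, F, ht, hF, hs, w₁, w₂, hY⟩ := h
  obtain ⟨e, ht', hF', hY'⟩ := fwd_reduce ht hF hY
  obtain ⟨z, hz⟩ := fwd_lift hF'
  set z' := (2⁻¹ : ℂ) • (z - TensorProduct.comm ℂ _ _ z) with hz'
  obtain ⟨φ, h1, h2, h3⟩ := fwd_main (mu := stair k) ht' hY' z' (-1)
    (by
      rw [hz', map_smul, map_sub, fwd_comm_comm, fwd_smul_sub])
    (fun v₁ v₂ => by
      rw [hz', map_smul, map_sub, Pi.smul_apply, Pi.smul_apply, Pi.sub_apply, Pi.sub_apply,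
        fwdPhi_comm, hz, hz]
      have h4 : fwdT e F v₂ v₁ = -fwdT e F v₁ v₂ := hs _ _
      rw [h4, smul_eq_mul]
      push_cast
      ring)
  exact ⟨φ, h1, fun v => by rw [h2, fwd_neg], h3⟩

end Sx
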