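import Mathlib
import Pool.Agent.Helper87.Saxl.Defs

/-! Module INJD: the SL2 lemma (positivity on finite words). -/

namespace Sx

open Finset Equiv

variable {X Y : Type} [Fintype X] [DecidableEq X] [Fintype Y] [DecidableEq Y]

private theorem injD_adj {L : Type} [Fintype L] [DecidableEq L] (y z : L)
    (A B : (X → L) → ℚ) :
    ∑ W, A W * ∑ x, (if W x = z then B (Function.update W x y) else 0)
      = ∑ W, (∑ x, (if W x = y then A (Function.update W x z) else 0)) * B W := by
  simp_rw [Finset.mul_sum, Finset.sum_mul, mul_ite, ite_mul, mul_zero, zero_mul]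
  rw [Finset.sum_comm]
  conv_rhs => rw [Finset.sum_comm]
  refine Finset.sum_congr rfl fun x _ => ?_
  rw [← Finset.sum_filter, ← Finset.sum_filter]
  refine Finset.sum_nbij' (fun W => Function.update W x y) (fun W => Function.update W x z)
    ?_ ?_ ?_ ?_ ?_
  · intro W hW
    simp
  · intro W hW
    simp
  · intro W hW
    have h : W x = z := by simpa using hW
    simp [← h]
  · intro W hW
    have h : W x = y := by simpa using hW
    simp [← h]
  · intro W hW
    have h : W x = z := by simpa using hW
    simp [← h]

private theorem injD_comp {L : Type} [Fintype L] [DecidableEq L] (y z : L) (hyz : y ≠ z)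
    (G : (X → L) → ℚ) (W : X → L) :
    (∑ x', if W x' = y then
        (∑ x, if (Function.update W x' z) x = z then
          G (Function.update (Function.update W x' z) x y) else 0) else 0)
      = (cnt W y : ℚ) * G W + ∑ x', ∑ x, if (W x' = y ∧ W x = z) then
          G (Function.update (Function.update W x' z) x y) else 0 := by
  have h1 : (cnt W y : ℚ) * G W = ∑ x', if W x' = y then G W else 0 := by
    rw [← Finset.sum_filter, Finset.sum_const, nsmul_eq_mul]
    rfl
  rw [h1, ← Finset.sum_add_distrib]
  refine Finset.sum_congr rfl fun x' _ => ?_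
  by_cases hx' : W x' = y
  · rw [if_pos hx', if_pos hx']
    have h2 : G W = ∑ x, if x = x' then G W else 0 := by simp
    conv_rhs => rw [h2]
    rw [← Finset.sum_add_distrib]
    refine Finset.sum_congr rfl fun x _ => ?_
    by_cases hx : x = x'
    · subst hx
      have h3 : ¬ (W x = y ∧ W x = z) := by
        rintro ⟨ha, hb⟩
        exact hyz (ha.symm.trans hb)
      rw [if_neg h3]
      simp [← hx']
    · rw [if_neg hx, Function.update_of_ne hx]
      simp [hx']
  · simp [hx']

theorem injD {L : Type} [Fintype L] [DecidableEq L] (y z : L) (hyz : y ≠ z) (G : (X → L) → ℚ)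
    (hs : ∀ W, G W ≠ 0 → cnt W z < cnt W y)
    (h0 : ∀ W, ∑ x ∈ univ.filter (fun x => W x = z), G (Function.update W x y) = 0) :
    ∀ W, G W = 0 := by
  have h0' : ∀ W : X → L, ∑ x, (if W x = z then G (Function.update W x y) else 0) = 0 := by
    intro W
    rw [← Finset.sum_filter]
    exact h0 W
  -- D' D G = 0
  have hA : ∀ W : X → L, (cnt W y : ℚ) * G W + ∑ x', ∑ x, (if (W x' = y ∧ W x = z) then
          G (Function.update (Function.update W x' z) x y) else 0) = 0 := by
    intro W
    rw [← injD_comp y z hyz G W]
    refine Finset.sum_eq_zero fun x' _ => ?_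
    rw [h0']
    simp
  have hB := fun W : X → L => injD_comp z y hyz.symm G W
  -- the two double sums agree
  have hC : ∀ W : X → L, (∑ x', ∑ x, (if (W x' = z ∧ W x = y) then
          G (Function.update (Function.update W x' y) x z) else 0))
        = ∑ x', ∑ x, (if (W x' = y ∧ W x = z) then
          G (Function.update (Function.update W x' z) x y) else 0) := by
    intro W
    rw [Finset.sum_comm]
    refine Finset.sum_congr rfl fun x' _ => Finset.sum_congr rfl fun x _ => ?_
    by_cases h : W x = z ∧ W x' = y
    · rw [if_pos h, if_pos h.symm]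
      have hne : x ≠ x' := by
        rintro rfl
        exact hyz (h.2.symm.trans h.1)
      rw [Function.update_comm hne]
    · rw [if_neg h, if_neg (fun h' => h h'.symm)]
  have key : ∑ W : X → L, ((∑ x, (if W x = y then G (Function.update W x z) else 0)) ^ 2
      + ((cnt W y : ℚ) - cnt W z) * G W ^ 2) = 0 := by
    have e1 : ∀ W : X → L, ((∑ x, (if W x = y then G (Function.update W x z) else 0)) ^ 2
      + ((cnt W y : ℚ) - cnt W z) * G W ^ 2)
        = ((∑ x, (if W x = y then G (Function.update W x z) else 0))
            * (∑ x, (if W x = y then G (Function.update W x z) else 0))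
          - G W * (∑ x', if W x' = z then
              (∑ x, if (Function.update W x' y) x = y then
                G (Function.update (Function.update W x' y) x z) else 0) else 0)) := by
      intro W
      rw [hB W, hC W]
      have := hA W
      linear_combination G W * this
    rw [Finset.sum_congr rfl fun W _ => e1 W, Finset.sum_sub_distrib, sub_eq_zero]
    exact (injD_adj y z G
      (fun W => ∑ x, (if W x = y then G (Function.update W x z) else 0))).symm
  intro W
  by_contra hW
  have hnn : ∀ W ∈ (univ : Finset (X → L)),
      0 ≤ (∑ x, (if W x = y then G (Function.update W x z) else 0)) ^ 2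
        + ((cnt W y : ℚ) - cnt W z) * G W ^ 2 := by
    intro W _
    by_cases hG : G W = 0
    · rw [hG]
      have := sq_nonneg (∑ x, (if W x = y then G (Function.update W x z) else 0))
      simpa using this
    · have h1 : ((cnt W z : ℕ) : ℚ) < cnt W y := by exact_mod_cast hs W hG
      have h2 : 0 ≤ ((cnt W y : ℚ) - cnt W z) * G W ^ 2 :=
        mul_nonneg (by linarith) (sq_nonneg _)
      have h3 := sq_nonneg (∑ x, (if W x = y then G (Function.update W x z) else 0))
      linarith
  have hz := (Finset.sum_eq_zero_iff_of_nonneg hnn).1 key W (Finset.mem_univ _)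
  have h1 : ((cnt W z : ℕ) : ℚ) < cnt W y := by exact_mod_cast hs W hW
  have h2 : 0 < ((cnt W y : ℚ) - cnt W z) * G W ^ 2 :=
    mul_pos (by linarith) (by positivity)
  have h3 := sq_nonneg (∑ x, (if W x = y then G (Function.update W x z) else 0))
  linarith

end Sx
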